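import Pool.Agent.H197Z.BiCalc

/-!
Arithmetic inside a structure that interprets the natural numbers: order, division, sequence
coding, inductively defined sets; from the integers with addition and divisibility to arithmetic.
-/

set_option autoImplicit false
set_option linter.unusedSectionVars false

namespace Pool.Agent.H197Z.Bi

open FirstOrder FirstOrder.Language Pool.Agent.H146Z.BiDefs

/-- Addition and multiplication of the sort of natural numbers are definable. -/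
class Arith (L : FirstOrder.Language.{0, 0}) (M : Type) [L.Structure M] [Srt L M ℕ] : Prop where
  add0 : DF L M fun p : ℕ × ℕ => p.1 + p.2
  mul0 : DF L M fun p : ℕ × ℕ => p.1 * p.2

/-- The beta function. -/
def bt (c : ℕ × ℕ) (i : ℕ) : ℕ := c.1 % ((i + 1) * c.2 + 1)

theorem exists_bt (n : ℕ) (s : ℕ → ℕ) : ∃ c, ∀ i < n, bt c i = s i := by
  refine ⟨(Nat.unbeta (List.ofFn fun i : Fin n => s i)).unpair, fun i hi => ?_⟩
  have := Nat.beta_unbeta_coe (List.ofFn fun i : Fin n => s i) ⟨i, by simpa using hi⟩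
  simpa [Nat.beta, bt] using this

/-- Coded sequences of tuples. -/
def tup (r : ℕ) (c : ℕ × ℕ) (i : ℕ) : Fin r → ℕ := fun j => bt c (i * r + j)

theorem exists_tup (r n : ℕ) (s : ℕ → Fin r → ℕ) : ∃ c, ∀ i < n, tup r c i = s i := by
  obtain ⟨c, hc⟩ := exists_bt (n * r)
    (fun m => if h : 0 < r then s (m / r) ⟨m % r, Nat.mod_lt _ h⟩ else 0)
  refine ⟨c, fun i hi => funext fun j => ?_⟩
  have hr : 0 < r := j.pos
  have hj := j.2
  have h1 : (i * r + j) / r = i := by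
    rw [Nat.add_comm, Nat.add_mul_div_right _ _ hr, Nat.div_eq_of_lt hj, zero_add]
  have h2 : (i * r + j) % r = j := by
    rw [Nat.add_comm, Nat.add_mul_mod_self_right, Nat.mod_eq_of_lt hj]
  unfold tup
  rw [hc _ (by nlinarith), dif_pos hr]
  simp only [h1, h2]

/-- The least set containing `Base` and closed under a rule with two premises. -/
inductive Cl {X : Type} (Base : X → Prop) (Rule : X → X → X → Prop) : X → Prop
  | base (z : X) : Base z → Cl Base Rule z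
  | rule (x y z : X) : Cl Base Rule x → Cl Base Rule y → Rule x y z → Cl Base Rule z

theorem cl_iff {X : Type} (Base : X → Prop) (Rule : X → X → X → Prop) (z : X) :
    Cl Base Rule z ↔ ∃ (n : ℕ) (s : ℕ → X),
      (∀ i, i < n + 1 → Base (s i) ∨ ∃ j, j < i ∧ ∃ k, k < i ∧ Rule (s j) (s k) (s i)) ∧
        s n = z := by
  constructor
  · intro h
    induction h with
    | base z hz => exact ⟨0, fun _ => z, fun _ _ => Or.inl hz, rfl⟩
    | rule x y z _ _ hr ih1 ih2 =>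
      obtain ⟨n1, s1, h1, e1⟩ := ih1
      obtain ⟨n2, s2, h2, e2⟩ := ih2
      let s : ℕ → X := fun i => if i < n1 + 1 then s1 i else if i < n1 + 1 + (n2 + 1) then
        s2 (i - (n1 + 1)) else z
      have a1 : ∀ i, i < n1 + 1 → s i = s1 i := fun i hi => if_pos hi
      have a2 : ∀ i, i < n2 + 1 → s (n1 + 1 + i) = s2 i := fun i hi => by
        simp only [s]
        rw [if_neg (by omega), if_pos (by omega)]
        congr 1
        omega
      have a3 : s (n1 + 1 + (n2 + 1)) = z := by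
        simp only [s]
        rw [if_neg (by omega), if_neg (by omega)]
      refine ⟨n1 + 1 + (n2 + 1), s, fun i hi => ?_, a3⟩
      by_cases c1 : i < n1 + 1
      · rw [a1 i c1]
        rcases h1 i c1 with h | ⟨j, hj, k, hk, h⟩
        · exact Or.inl h
        · exact Or.inr ⟨j, hj, k, hk, by rw [a1 j (by omega), a1 k (by omega)]; exact h⟩
      by_cases c2 : i < n1 + 1 + (n2 + 1)
      · obtain ⟨i', rfl⟩ : ∃ i', i = n1 + 1 + i' := ⟨i - (n1 + 1), by omega⟩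
        rw [a2 i' (by omega)]
        rcases h2 i' (by omega) with h | ⟨j, hj, k, hk, h⟩
        · exact Or.inl h
        · exact Or.inr ⟨n1 + 1 + j, by omega, n1 + 1 + k, by omega,
            by rw [a2 j (by omega), a2 k (by omega)]; exact h⟩
      · obtain rfl : i = n1 + 1 + (n2 + 1) := by omega
        refine Or.inr ⟨n1, by omega, n1 + 1 + n2, by omega, ?_⟩
        rw [a1 n1 (by omega), a2 n2 (by omega), a3, e1, e2]
        exact hr
  · rintro ⟨n, s, h, rfl⟩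
    have key : ∀ i, i < n + 1 → Cl Base Rule (s i) := by
      intro i
      induction i using Nat.strong_induction_on with
      | _ i ih =>
        intro hi
        rcases h i hi with h | ⟨j, hj, k, hk, h⟩
        · exact Cl.base _ h
        · exact Cl.rule _ _ _ (ih j hj (by omega)) (ih k hk (by omega)) h
    exact key n (by omega)

/-- Concatenation of words over `K` letters, coded in bijective base `K`. -/
def cat (K p : ℕ) : ℕ → ℕ
  | 0 => p
  | m + 1 => K * cat K p (m / K) + m % K + 1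
decreasing_by exact Nat.lt_succ_of_le (Nat.div_le_self _ _)

theorem cat_zero (K p : ℕ) : cat K p 0 = p := by rw [cat]

theorem cat_succ (K p m : ℕ) : cat K p (m + 1) = K * cat K p (m / K) + m % K + 1 := by rw [cat]

section

variable {L : FirstOrder.Language.{0, 0}} {M : Type} [L.Structure M] [Srt L M ℕ] [Arith L M]
variable {X Y : Type} [Srt L M X] [Srt L M Y]

theorem DF.add {f g : X → ℕ} (hf : DF L M f) (hg : DF L M g) : DF L M fun x => f x + g x :=
  DF.comp2 (h := fun a b : ℕ => a + b) Arith.add0 hf hg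

theorem DF.mul {f g : X → ℕ} (hf : DF L M f) (hg : DF L M g) : DF L M fun x => f x * g x :=
  DF.comp2 (h := fun a b : ℕ => a * b) Arith.mul0 hf hg

theorem DP.le {f g : X → ℕ} (hf : DF L M f) (hg : DF L M g) : DP L M fun x => f x ≤ g x :=
  (DP.ex (P := fun x (c : ℕ) => f x + c = g x)
    (DP.eq ((hf.comp DF.fst0).add DF.snd0) (hg.comp DF.fst0))).congr fun x =>
      ⟨fun ⟨c, h⟩ => by omega, fun h => ⟨g x - f x, by omega⟩⟩

theorem DP.lt {f g : X → ℕ} (hf : DF L M f) (hg : DF L M g) : DP L M fun x => f x < g x :=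
  DP.le (hf.add (DF.const 1)) hg

theorem DF.mod0 : DF L M fun p : ℕ × ℕ => p.1 % p.2 := by
  refine DF.of_graph (P := fun (p : ℕ × ℕ) (r : ℕ) =>
    (p.2 = 0 ∧ r = p.1) ∨ (r < p.2 ∧ ∃ q : ℕ, p.1 = p.2 * q + r)) ?_ ?_
  · refine ((DP.eq DF.fst0.snd (DF.const 0)).and (DP.eq DF.snd0 DF.fst0.fst)).or
      ((DP.lt DF.snd0 DF.fst0.snd).and (DP.ex (P := fun (x : (ℕ × ℕ) × ℕ) (q : ℕ) =>
        x.1.1 = x.1.2 * q + x.2) ?_))
    exact DP.eq DF.fst0.fst.fst ((DF.fst0.fst.snd.mul DF.snd0).add DF.fst0.snd)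
  · rintro ⟨a, b⟩ r
    constructor
    · rintro (⟨h1, h2⟩ | ⟨h1, q, h2⟩)
      · simp only at h1 h2
        simp [h1, h2]
      · simp only at h1 h2
        simp only [h2, Nat.mul_add_mod, Nat.mod_eq_of_lt h1]
    · rintro rfl
      rcases Nat.eq_zero_or_pos b with h | h
      · left
        simp [h]
      · right
        exact ⟨Nat.mod_lt _ h, a / b, (Nat.div_add_mod a b).symm⟩

theorem DF.mod {f g : X → ℕ} (hf : DF L M f) (hg : DF L M g) : DF L M fun x => f x % g x :=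
  DF.comp2 (h := fun a b : ℕ => a % b) DF.mod0 hf hg

theorem DF.divc {f : X → ℕ} (hf : DF L M f) {K : ℕ} (hK : 0 < K) : DF L M fun x => f x / K := by
  have : DF L M fun a : ℕ => a / K := by
    refine DF.of_graph (P := fun (a q : ℕ) => a = K * q + a % K) ?_ ?_
    · exact DP.eq DF.fst0 (((DF.const K).mul DF.snd0).add (DF.fst0.mod (DF.const K)))
    · intro a q
      constructor
      · intro h
        have h2 := Nat.div_add_mod a K
        have h3 : K * q = K * (a / K) := by omega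
        exact (Nat.eq_of_mul_eq_mul_left hK h3).symm
      · rintro rfl
        exact (Nat.div_add_mod a K).symm
  exact this.comp hf

theorem DF.bt {f : X → ℕ × ℕ} {g : X → ℕ} (hf : DF L M f) (hg : DF L M g) :
    DF L M fun x => bt (f x) (g x) :=
  hf.fst.mod (((hg.add (DF.const 1)).mul hf.snd).add (DF.const 1))

theorem DF.tup (r : ℕ) {f : X → ℕ × ℕ} {g : X → ℕ} (hf : DF L M f) (hg : DF L M g) :
    DF L M fun x => tup r (f x) (g x) :=
  DF.pi fun j => hf.bt ((hg.mul (DF.const r)).add (DF.const (j : ℕ)))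

theorem DF.cat0 {K : ℕ} (hK : 0 < K) : DF L M fun p : ℕ × ℕ => cat K p.1 p.2 := by
  refine DF.of_graph (P := fun (p : ℕ × ℕ) (r : ℕ) => ∃ c : ℕ × ℕ, Bi.bt c 0 = p.1 ∧
    (∀ m : ℕ, m < p.2 → Bi.bt c (m + 1) = K * Bi.bt c (m / K) + m % K + 1) ∧
      Bi.bt c p.2 = r) ?_ ?_
  · refine DP.ex (P := fun (x : (ℕ × ℕ) × ℕ) (c : ℕ × ℕ) => Bi.bt c 0 = x.1.1 ∧
      (∀ m : ℕ, m < x.1.2 → Bi.bt c (m + 1) = K * Bi.bt c (m / K) + m % K + 1) ∧
        Bi.bt c x.1.2 = x.2) ?_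
    refine (DP.eq (DF.snd0.bt (DF.const 0)) DF.fst0.fst.fst).and (DP.and ?_
      (DP.eq (DF.snd0.bt DF.fst0.fst.snd) DF.fst0.snd))
    refine DP.all (P := fun (x : ((ℕ × ℕ) × ℕ) × (ℕ × ℕ)) (m : ℕ) => m < x.1.1.2 →
      Bi.bt x.2 (m + 1) = K * Bi.bt x.2 (m / K) + m % K + 1) ?_
    exact (DP.lt DF.snd0 DF.fst0.fst.fst.snd).imp (DP.eq
      (DF.fst0.snd.bt (DF.snd0.add (DF.const 1)))
      ((((DF.const K).mul (DF.fst0.snd.bt (DF.snd0.divc hK))).add
        (DF.snd0.mod (DF.const K))).add (DF.const 1)))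
  · rintro ⟨p, q⟩ r
    constructor
    · rintro ⟨c, h0, h1, rfl⟩
      have key : ∀ m, m ≤ q → cat K p m = Bi.bt c m := by
        intro m
        induction m using Nat.strong_induction_on with
        | _ m ih =>
          intro hm
          rcases m with _ | m
          · rw [cat_zero]; exact h0.symm
          · have := Nat.div_le_self m K
            rw [cat_succ, ih (m / K) (by omega) (by omega), h1 m (by omega)]
      exact key q le_rfl
    · rintro rfl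
      obtain ⟨c, hc⟩ := exists_bt (q + 1) (cat K p)
      refine ⟨c, by rw [hc 0 (by omega), cat_zero], fun m hm => ?_, hc q (by omega)⟩
      have := Nat.div_le_self m K
      simp only at hm
      rw [hc _ (by omega), hc _ (by omega), cat_succ]

theorem DF.cat {K : ℕ} (hK : 0 < K) {f g : X → ℕ} (hf : DF L M f) (hg : DF L M g) :
    DF L M fun x => cat K (f x) (g x) :=
  DF.comp2 (h := fun a b : ℕ => Bi.cat K a b) (DF.cat0 hK) hf hg

theorem DP.cl {r : ℕ} {dec : (Fin r → ℕ) → X} (hd : DF L M dec) (hs : Function.Surjective dec)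
    {Base : X → Prop} {Rule : X → X → X → Prop} (hB : DP L M Base)
    (hR : DP L M fun p : (X × X) × X => Rule p.1.1 p.1.2 p.2) : DP L M (Cl Base Rule) := by
  have hU : DF L M fun p : (ℕ × ℕ) × ℕ => dec (Bi.tup r p.1 p.2) :=
    hd.comp (DF.tup r DF.fst0 DF.snd0)
  let U : ℕ × ℕ → ℕ → X := fun c i => dec (Bi.tup r c i)
  have hU' : ∀ {W : Type} [Srt L M W] {f : W → ℕ × ℕ} {g : W → ℕ}, DF L M f → DF L M g →
      DF L M fun w => U (f w) (g w) := fun hf hg => DF.comp2 (h := U) hU hf hg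
  have h1 : DP L M fun p : (ℕ × ℕ) × ℕ => Base (U p.1 p.2) ∨
      ∃ j, j < p.2 ∧ ∃ k, k < p.2 ∧ Rule (U p.1 j) (U p.1 k) (U p.1 p.2) := by
    refine (hB.comp hU).or (DP.ex (P := fun (p : (ℕ × ℕ) × ℕ) (j : ℕ) => j < p.2 ∧
      ∃ k, k < p.2 ∧ Rule (U p.1 j) (U p.1 k) (U p.1 p.2)) ?_)
    refine (DP.lt DF.snd0 DF.fst0.snd).and (DP.ex (P := fun (p : ((ℕ × ℕ) × ℕ) × ℕ) (k : ℕ) =>
      k < p.1.2 ∧ Rule (U p.1.1 p.2) (U p.1.1 k) (U p.1.1 p.1.2)) ?_)
    refine (DP.lt DF.snd0 DF.fst0.fst.snd).and ?_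
    exact hR.comp (((hU' DF.fst0.fst.fst DF.fst0.snd).pair (hU' DF.fst0.fst.fst DF.snd0)).pair
      (hU' DF.fst0.fst.fst DF.fst0.fst.snd))
  have h2 : DP L M fun z : X => ∃ q : ℕ × (ℕ × ℕ),
      (∀ i, i < q.1 + 1 → Base (U q.2 i) ∨
        ∃ j, j < i ∧ ∃ k, k < i ∧ Rule (U q.2 j) (U q.2 k) (U q.2 i)) ∧ U q.2 q.1 = z := by
    refine DP.ex (P := fun (z : X) (q : ℕ × (ℕ × ℕ)) => (∀ i, i < q.1 + 1 → Base (U q.2 i) ∨
        ∃ j, j < i ∧ ∃ k, k < i ∧ Rule (U q.2 j) (U q.2 k) (U q.2 i)) ∧ U q.2 q.1 = z) ?_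
    refine DP.and (DP.all (P := fun (p : X × (ℕ × (ℕ × ℕ))) (i : ℕ) => i < p.2.1 + 1 →
      Base (U p.2.2 i) ∨ ∃ j, j < i ∧ ∃ k, k < i ∧ Rule (U p.2.2 j) (U p.2.2 k) (U p.2.2 i)) ?_)
      (DP.eq (hU' DF.snd0.snd DF.snd0.fst) DF.fst0)
    exact (DP.lt DF.snd0 (DF.fst0.snd.fst.add (DF.const 1))).imp
      (h1.comp (DF.fst0.snd.snd.pair DF.snd0))
  refine h2.congr fun z => ?_
  rw [cl_iff]
  constructor
  · rintro ⟨q, h, e⟩
    exact ⟨q.1, U q.2, h, e⟩
  · rintro ⟨n, s, h, e⟩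
    choose t ht using hs
    obtain ⟨c, hc⟩ := exists_tup r (n + 1) (fun i => t (s i))
    have hu : ∀ i, i < n + 1 → U c i = s i := fun i hi => by
      simp only [U]
      rw [hc i hi, ht]
    refine ⟨(n, c), fun i hi => ?_, (hu n (by omega)).trans e⟩
    simp only at hi
    rw [hu i hi]
    rcases h i hi with h | ⟨j, hj, k, hk, h⟩
    · exact Or.inl h
    · exact Or.inr ⟨j, hj, k, hk, by rw [hu j (by omega), hu k (by omega)]; exact h⟩

end

section int

variable {L : FirstOrder.Language.{0, 0}} {M : Type} [L.Structure M] [S : Srt L M ℤ]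

theorem lcm_iff {a b y : ℤ} (h : IsCoprime a b) :
    (a ∣ y ∧ b ∣ y ∧ ∀ z, a ∣ z → b ∣ z → y ∣ z) ↔ y = a * b ∨ y = -(a * b) := by
  constructor
  · rintro ⟨h1, h2, h3⟩
    have h4 := h3 _ (Dvd.intro b rfl) (Dvd.intro_left a rfl)
    have h5 := h.mul_dvd h1 h2
    exact Int.natAbs_eq_natAbs_iff.1 (Nat.dvd_antisymm (Int.natAbs_dvd_natAbs.2 h4)
      (Int.natAbs_dvd_natAbs.2 h5))
  · rintro (rfl | rfl)
    · exact ⟨Dvd.intro b rfl, Dvd.intro_left a rfl, fun z h1 h2 => h.mul_dvd h1 h2⟩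
    · exact ⟨(Dvd.intro b rfl).neg_right, (Dvd.intro_left a rfl).neg_right,
        fun z h1 h2 => (h.mul_dvd h1 h2).neg_left⟩

variable (hadd : DF L M fun p : ℤ × ℤ => p.1 + p.2) (hdvd : DP L M fun p : ℤ × ℤ => p.1 ∣ p.2)

include hadd hdvd

theorem int_mul : DF L M fun p : ℤ × ℤ => p.1 * p.2 := by
  have add : ∀ {W : Type} [Srt L M W] {f g : W → ℤ}, DF L M f → DF L M g →
      DF L M fun w => f w + g w := fun hf hg => DF.comp2 (h := fun a b : ℤ => a + b) hadd hf hg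
  have dvd : ∀ {W : Type} [Srt L M W] {f g : W → ℤ}, DF L M f → DF L M g →
      DP L M fun w => f w ∣ g w := fun hf hg => DP.comp2 (P := fun a b : ℤ => a ∣ b) hdvd hf hg
  have hl : DP L M fun p : (ℤ × ℤ) × ℤ =>
      p.1.1 ∣ p.2 ∧ p.1.2 ∣ p.2 ∧ ∀ z, p.1.1 ∣ z → p.1.2 ∣ z → p.2 ∣ z :=
    (dvd DF.fst0.fst DF.snd0).and ((dvd DF.fst0.snd DF.snd0).and
      (DP.all (P := fun (p : (ℤ × ℤ) × ℤ) (z : ℤ) => p.1.1 ∣ z → p.1.2 ∣ z → p.2 ∣ z)
        ((dvd DF.fst0.fst.fst DF.snd0).imp ((dvd DF.fst0.fst.snd DF.snd0).imp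
          (dvd DF.fst0.snd DF.snd0)))))
  have hsq : DF L M fun n : ℤ => n * n := by
    refine DF.of_graph (P := fun (n s : ℤ) => ∃ y' : ℤ,
      (n ∣ s + n ∧ n + 1 ∣ s + n ∧ ∀ z, n ∣ z → n + 1 ∣ z → s + n ∣ z) ∧
      (n ∣ y' ∧ n + -1 ∣ y' ∧ ∀ z, n ∣ z → n + -1 ∣ z → y' ∣ z) ∧ s = y' + n) ?_ ?_
    · refine DP.ex (P := fun (p : ℤ × ℤ) (y' : ℤ) =>
        (p.1 ∣ p.2 + p.1 ∧ p.1 + 1 ∣ p.2 + p.1 ∧ ∀ z, p.1 ∣ z → p.1 + 1 ∣ z → p.2 + p.1 ∣ z) ∧
        (p.1 ∣ y' ∧ p.1 + -1 ∣ y' ∧ ∀ z, p.1 ∣ z → p.1 + -1 ∣ z → y' ∣ z) ∧ p.2 = y' + p.1) ?_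
      exact (hl.comp ((DF.fst0.fst.pair (add DF.fst0.fst (DF.const 1))).pair
        (add DF.fst0.snd DF.fst0.fst))).and ((hl.comp ((DF.fst0.fst.pair
          (add DF.fst0.fst (DF.const (-1)))).pair DF.snd0)).and
            (DP.eq DF.fst0.snd (add DF.snd0 DF.fst0.fst)))
    · intro n s
      have c1 : IsCoprime n (n + 1) := ⟨-1, 1, by ring⟩
      have c2 : IsCoprime n (n + -1) := ⟨1, -1, by ring⟩
      simp only [lcm_iff c1, lcm_iff c2]
      constructor
      · rintro ⟨y', h1 | h1, h2 | h2, h3⟩ <;> nlinarith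
      · rintro rfl
        exact ⟨n * (n + -1), Or.inl (by ring), Or.inl rfl, by ring⟩
  refine DF.of_graph (P := fun (p : ℤ × ℤ) (z : ℤ) =>
    (p.1 + p.2) * (p.1 + p.2) = p.1 * p.1 + p.2 * p.2 + z + z) ?_ ?_
  · exact DP.eq (hsq.comp (add DF.fst0.fst DF.fst0.snd))
      (add (add (add (hsq.comp DF.fst0.fst) (hsq.comp DF.fst0.snd)) DF.snd0) DF.snd0)
  · intro p z
    constructor
    · intro h
      linarith
    · rintro rfl
      ring

theorem int_nonneg : DP L M fun n : ℤ => 0 ≤ n := by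
  have add : ∀ {W : Type} [Srt L M W] {f g : W → ℤ}, DF L M f → DF L M g →
      DF L M fun w => f w + g w := fun hf hg => DF.comp2 (h := fun a b : ℤ => a + b) hadd hf hg
  have sq : ∀ {W : Type} [Srt L M W] {f : W → ℤ}, DF L M f →
      DF L M fun w => f w * f w := fun hf =>
    DF.comp2 (h := fun a b : ℤ => a * b) (int_mul hadd hdvd) hf hf
  refine (DP.ex (P := fun (n : ℤ) (v : Fin 4 → ℤ) =>
    n = v 0 * v 0 + v 1 * v 1 + v 2 * v 2 + v 3 * v 3) (DP.eq DF.fst0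
      (add (add (add (sq (DF.snd0.eval 0)) (sq (DF.snd0.eval 1))) (sq (DF.snd0.eval 2)))
        (sq (DF.snd0.eval 3))))).congr fun n => ?_
  constructor
  · rintro ⟨v, rfl⟩
    nlinarith [mul_self_nonneg (v 0), mul_self_nonneg (v 1), mul_self_nonneg (v 2),
      mul_self_nonneg (v 3)]
  · intro h
    obtain ⟨a, b, c, d, e⟩ := Nat.sum_four_squares n.toNat
    refine ⟨![a, b, c, d], ?_⟩
    have : (n.toNat : ℤ) = n := Int.toNat_of_nonneg h
    rw [← this, ← e]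
    simp [pow_two]

/-- The natural numbers as a sort, from the integers. -/
@[reducible] def natSort : Srt L M ℕ where
  ι := S.ι
  fin := S.fin
  D := {w | w ∈ S.D ∧ 0 ≤ S.F w}
  F := fun w => (S.F w).toNat
  dom := int_nonneg hadd hdvd
  surj := fun n => by
    obtain ⟨w, hw, e⟩ := S.surj n
    exact ⟨w, ⟨hw, by rw [e]; positivity⟩, by rw [e]; simp⟩
  ker := by
    have h : DP L M fun p : ℤ × ℤ => 0 ≤ p.1 ∧ 0 ≤ p.2 ∧ p.1 = p.2 :=
      (int_nonneg hadd hdvd).fst.and ((int_nonneg hadd hdvd).snd.and DP.eq0)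
    refine def_congr L M h fun w => ?_
    constructor
    · rintro ⟨⟨a, b⟩, ⟨c, d⟩, e⟩
      refine ⟨⟨a, c⟩, b, d, ?_⟩
      change S.F (w ∘ Sum.inl) = S.F (w ∘ Sum.inr)
      omega
    · rintro ⟨⟨a, c⟩, b, d, e⟩
      exact ⟨⟨a, b⟩, ⟨c, d⟩, congrArg Int.toNat e⟩

theorem nat_cast : letI := natSort hadd hdvd; DF L M fun n : ℕ => (n : ℤ) := by
  have h : DP L M fun p : ℤ × ℤ => 0 ≤ p.1 ∧ p.1 = p.2 :=
    (int_nonneg hadd hdvd).fst.and DP.eq0
  refine def_congr L M h fun w => ?_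
  constructor
  · rintro ⟨⟨⟨a, b⟩, c⟩, e⟩
    refine ⟨⟨a, c⟩, b, ?_⟩
    change S.F (w ∘ Sum.inl) = S.F (w ∘ Sum.inr)
    change ((S.F (w ∘ Sum.inl)).toNat : ℤ) = S.F (w ∘ Sum.inr) at e
    omega
  · rintro ⟨⟨a, c⟩, b, e⟩
    refine ⟨⟨⟨a, b⟩, c⟩, ?_⟩
    change ((S.F (w ∘ Sum.inl)).toNat : ℤ) = S.F (w ∘ Sum.inr)
    change S.F (w ∘ Sum.inl) = S.F (w ∘ Sum.inr) at e
    change 0 ≤ S.F (w ∘ Sum.inl) at b
    omega

theorem nat_arith : letI := natSort hadd hdvd; Arith L M := by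
  let _ := natSort hadd hdvd
  have hc := nat_cast hadd hdvd
  constructor
  · exact DF.of_graph (P := fun (p : ℕ × ℕ) (r : ℕ) => (p.1 : ℤ) + (p.2 : ℤ) = (r : ℤ))
      (DP.eq (DF.comp2 (h := fun a b : ℤ => a + b) hadd (hc.comp DF.fst0.fst)
        (hc.comp DF.fst0.snd)) (hc.comp DF.snd0)) fun p r => by norm_cast
  · exact DF.of_graph (P := fun (p : ℕ × ℕ) (r : ℕ) => (p.1 : ℤ) * (p.2 : ℤ) = (r : ℤ))
      (DP.eq (DF.comp2 (h := fun a b : ℤ => a * b) (int_mul hadd hdvd) (hc.comp DF.fst0.fst)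
        (hc.comp DF.fst0.snd)) (hc.comp DF.snd0)) fun p r => by norm_cast

end int

end Pool.Agent.H197Z.Bi
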