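import Pool.Agent.H146Z.BiDefs

/-!
A calculus of definable predicates and functions between sorts interpreted in a structure.
-/

set_option autoImplicit false
set_option linter.unusedSectionVars false

namespace Pool.Agent.H197Z.Bi

open FirstOrder FirstOrder.Language Pool.Agent.H146Z.BiDefs

/-- A type coded by tuples of a structure, modulo a definable equivalence relation. -/
class Srt (L : FirstOrder.Language.{0, 0}) (M : Type) [L.Structure M] (X : Type) where
  ι : Type
  fin : Finite ι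
  D : Set (ι → M)
  F : (ι → M) → X
  dom : (Set.univ : Set M).Definable L D
  surj : ∀ x, ∃ w ∈ D, F w = x
  ker : (Set.univ : Set M).Definable L
    {w : ι ⊕ ι → M | w ∘ Sum.inl ∈ D ∧ w ∘ Sum.inr ∈ D ∧ F (w ∘ Sum.inl) = F (w ∘ Sum.inr)}

section

variable (L : FirstOrder.Language.{0, 0}) (M : Type) [L.Structure M]

instance finι (X : Type) [S : Srt L M X] : Finite (Srt.ι L M X) := S.fin

theorem def_congr {α : Type} {s t : Set (α → M)} (h : (Set.univ : Set M).Definable L s)
    (e : ∀ w, w ∈ t ↔ w ∈ s) : (Set.univ : Set M).Definable L t := by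
  rw [show t = s from Set.ext e]
  exact h

theorem def_eq_var {α : Type} (i j : α) :
    (Set.univ : Set M).Definable L {w : α → M | w i = w j} := by
  refine Set.Definable.mono (A := ∅) ?_ (Set.empty_subset _)
  rw [Set.empty_definable_iff]
  exact ⟨Term.equal (Term.var i) (Term.var j), by ext w; simp⟩

theorem def_eq_const {α : Type} (i : α) (a : M) :
    (Set.univ : Set M).Definable L {w : α → M | w i = a} := by
  rw [Set.definable_iff_exists_formula_sum]
  exact ⟨Term.equal (Term.var (Sum.inr i)) (Term.var (Sum.inl ⟨a, trivial⟩)), by ext w; simp⟩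

instance base : Srt L M M where
  ι := Unit
  fin := inferInstance
  D := Set.univ
  F := fun w => w ()
  dom := Set.definable_univ
  surj := fun x => ⟨fun _ => x, trivial, rfl⟩
  ker := by
    have := def_eq_var L M (α := Unit ⊕ Unit) (Sum.inl ()) (Sum.inr ())
    convert this using 2
    simp

instance prod (X Y : Type) [S : Srt L M X] [T : Srt L M Y] : Srt L M (X × Y) where
  ι := S.ι ⊕ T.ι
  fin := inferInstance
  D := {w | w ∘ Sum.inl ∈ S.D ∧ w ∘ Sum.inr ∈ T.D}
  F := fun w => (S.F (w ∘ Sum.inl), T.F (w ∘ Sum.inr))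
  dom := (S.dom.preimage_comp Sum.inl).inter (T.dom.preimage_comp Sum.inr)
  surj := fun x => by
    obtain ⟨u, hu, e1⟩ := S.surj x.1
    obtain ⟨v, hv, e2⟩ := T.surj x.2
    exact ⟨Sum.elim u v, ⟨hu, hv⟩, Prod.ext e1 e2⟩
  ker := by
    have := (S.ker.preimage_comp (Sum.map Sum.inl Sum.inl :
      S.ι ⊕ S.ι → (S.ι ⊕ T.ι) ⊕ (S.ι ⊕ T.ι))).inter (T.ker.preimage_comp (Sum.map Sum.inr Sum.inr))
    convert this using 1
    ext w
    simp only [Set.mem_ofPred_eq, Prod.mk.injEq, Set.mem_inter_iff, Set.mem_preimage]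
    constructor
    · rintro ⟨⟨a, b⟩, ⟨c, d⟩, e, f⟩
      exact ⟨⟨a, c, e⟩, b, d, f⟩
    · rintro ⟨⟨a, c, e⟩, b, d, f⟩
      exact ⟨⟨a, b⟩, ⟨c, d⟩, e, f⟩

instance pi (κ X : Type) [Finite κ] [S : Srt L M X] : Srt L M (κ → X) where
  ι := κ × S.ι
  fin := inferInstance
  D := {w | ∀ k, w ∘ Prod.mk k ∈ S.D}
  F := fun w k => S.F (w ∘ Prod.mk k)
  dom := by
    have := Set.definable_iInter_of_finite (fun k : κ => S.dom.preimage_comp
      (Prod.mk k : S.ι → κ × S.ι))
    convert this using 1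
    ext w
    simp
  surj := fun x => by
    choose u hu e using fun k => S.surj (x k)
    exact ⟨fun p => u p.1 p.2, hu, funext e⟩
  ker := by
    have := Set.definable_iInter_of_finite (fun k : κ => S.ker.preimage_comp
      (Sum.map (Prod.mk k) (Prod.mk k) : S.ι ⊕ S.ι → (κ × S.ι) ⊕ (κ × S.ι)))
    convert this using 1
    ext w
    simp only [Set.mem_ofPred_eq, Set.mem_iInter, Set.mem_preimage, funext_iff]
    constructor
    · rintro ⟨a, b, c⟩ k
      exact ⟨a k, b k, c k⟩
    · intro h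
      exact ⟨fun k => (h k).1, fun k => (h k).2.1, fun k => (h k).2.2⟩

/-- Definable predicates on a sort. -/
def DP {X : Type} [S : Srt L M X] (P : X → Prop) : Prop :=
  (Set.univ : Set M).Definable L {w : S.ι → M | w ∈ S.D ∧ P (S.F w)}

/-- Definable functions between sorts. -/
def DF {X Y : Type} [Srt L M X] [Srt L M Y] (g : X → Y) : Prop :=
  DP L M (fun p : X × Y => g p.1 = p.2)

end

section

variable {L : FirstOrder.Language.{0, 0}} {M : Type} [L.Structure M]
variable {X Y Z : Type} [S : Srt L M X] [T : Srt L M Y] [U : Srt L M Z]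

theorem DP.congr {P Q : X → Prop} (h : DP L M P) (e : ∀ x, P x ↔ Q x) : DP L M Q := by
  have : P = Q := funext fun x => propext (e x)
  rwa [← this]

theorem DP.and {P Q : X → Prop} (h : DP L M P) (h' : DP L M Q) : DP L M fun x => P x ∧ Q x := by
  have := Set.Definable.inter h h'
  unfold DP
  convert this using 1
  ext w
  simp only [Set.mem_ofPred_eq, Set.mem_inter_iff]
  tauto

theorem DP.not {P : X → Prop} (h : DP L M P) : DP L M fun x => ¬ P x := by
  have := S.dom.inter (Set.Definable.compl h)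
  unfold DP
  convert this using 1
  ext w
  simp only [Set.mem_ofPred_eq, Set.mem_inter_iff, Set.mem_compl_iff]
  tauto

theorem DP.or {P Q : X → Prop} (h : DP L M P) (h' : DP L M Q) : DP L M fun x => P x ∨ Q x :=
  (h.not.and h'.not).not.congr fun x => by tauto

theorem DP.imp {P Q : X → Prop} (h : DP L M P) (h' : DP L M Q) : DP L M fun x => P x → Q x :=
  (h.and h'.not).not.congr fun x => by tauto

theorem DP.iff {P Q : X → Prop} (h : DP L M P) (h' : DP L M Q) : DP L M fun x => P x ↔ Q x :=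
  ((h.imp h').and (h'.imp h)).congr fun x => by tauto

theorem DP.top : DP L M fun _ : X => True := by
  unfold DP
  convert S.dom using 1
  ext w
  simp

theorem DP.const (p : Prop) : DP L M fun _ : X => p := by
  by_cases h : p
  · exact DP.top.congr fun _ => by simp [h]
  · exact DP.top.not.congr fun _ => by simp [h]

theorem DP.all_fin {κ : Type} [Finite κ] {P : κ → X → Prop} (h : ∀ k, DP L M (P k)) :
    DP L M fun x => ∀ k, P k x := by
  have := S.dom.inter (Set.definable_iInter_of_finite h)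
  unfold DP
  convert this using 1
  ext w
  simp only [Set.mem_ofPred_eq, Set.mem_inter_iff, Set.mem_iInter]
  exact ⟨fun h => ⟨h.1, fun k => ⟨h.1, h.2 k⟩⟩, fun h => ⟨h.1, fun k => (h.2 k).2⟩⟩

theorem DP.ex_fin {κ : Type} [Finite κ] {P : κ → X → Prop} (h : ∀ k, DP L M (P k)) :
    DP L M fun x => ∃ k, P k x :=
  (DP.all_fin fun k => (h k).not).not.congr fun x => by simp

theorem DP.reindex {P : X → Prop} (h : DP L M P) (g : Z → X) (r : S.ι → U.ι)
    (hr : ∀ w ∈ U.D, w ∘ r ∈ S.D ∧ S.F (w ∘ r) = g (U.F w)) : DP L M fun z => P (g z) := by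
  have := U.dom.inter (Set.Definable.preimage_comp r h)
  unfold DP
  convert this using 1
  ext w
  simp only [Set.mem_ofPred_eq, Set.mem_inter_iff, Set.mem_preimage]
  constructor
  · rintro ⟨a, b⟩
    exact ⟨a, (hr w a).1, by rw [(hr w a).2]; exact b⟩
  · rintro ⟨a, -, b⟩
    exact ⟨a, by rw [← (hr w a).2]; exact b⟩

theorem DP.ex {P : X → Y → Prop} (h : DP L M fun p : X × Y => P p.1 p.2) :
    DP L M fun x => ∃ y, P x y := by
  have := Set.Definable.exists_of_finite (α := S.ι) (β := T.ι) h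
  unfold DP
  convert this using 1
  ext w
  simp only [Set.mem_ofPred_eq]
  constructor
  · rintro ⟨a, y, b⟩
    obtain ⟨u, hu, rfl⟩ := T.surj y
    exact ⟨u, ⟨a, hu⟩, b⟩
  · rintro ⟨u, ⟨a, hu⟩, b⟩
    exact ⟨a, _, b⟩

theorem DP.all {P : X → Y → Prop} (h : DP L M fun p : X × Y => P p.1 p.2) :
    DP L M fun x => ∀ y, P x y :=
  (DP.ex (P := fun x y => ¬ P x y) h.not).not.congr fun x => by simp

theorem DP.eq0 : DP L M fun p : X × X => p.1 = p.2 := by
  exact def_congr L M S.ker fun w => and_assoc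

theorem DP.fst {P : X → Prop} (h : DP L M P) : DP L M fun p : X × Y => P p.1 :=
  h.reindex (U := prod L M X Y) Prod.fst Sum.inl fun _ hw => ⟨hw.1, rfl⟩

theorem DP.snd {P : Y → Prop} (h : DP L M P) : DP L M fun p : X × Y => P p.2 :=
  h.reindex (U := prod L M X Y) Prod.snd Sum.inr fun _ hw => ⟨hw.2, rfl⟩

theorem DP.comp {P : Y → Prop} {g : X → Y} (h : DP L M P) (hg : DF L M g) :
    DP L M fun x => P (g x) :=
  (DP.ex (P := fun x y => g x = y ∧ P y) (DP.and hg h.snd)).congr fun x => by simp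

theorem DF.id : DF L M fun x : X => x := DP.eq0

theorem DF.fst0 : DF L M fun p : X × Y => p.1 :=
  (DP.eq0 (X := X)).reindex (U := prod L M (X × Y) X) (fun p => (p.1.1, p.2))
    (Sum.map Sum.inl _root_.id) fun _ hw => ⟨⟨hw.1.1, hw.2⟩, rfl⟩

theorem DF.snd0 : DF L M fun p : X × Y => p.2 :=
  (DP.eq0 (X := Y)).reindex (U := prod L M (X × Y) Y) (fun p => (p.1.2, p.2))
    (Sum.map Sum.inr _root_.id) fun _ hw => ⟨⟨hw.1.2, hw.2⟩, rfl⟩

theorem DF.pair {f : X → Y} {g : X → Z} (hf : DF L M f) (hg : DF L M g) :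
    DF L M fun x => (f x, g x) := by
  have h1 := DP.reindex hf (U := prod L M X (Y × Z)) (fun p => (p.1, p.2.1))
    (Sum.map _root_.id Sum.inl) fun _ hw => ⟨⟨hw.1, hw.2.1⟩, rfl⟩
  have h2 := DP.reindex hg (U := prod L M X (Y × Z)) (fun p => (p.1, p.2.2))
    (Sum.map _root_.id Sum.inr) fun _ hw => ⟨⟨hw.1, hw.2.2⟩, rfl⟩
  exact (h1.and h2).congr fun p => by simp [Prod.ext_iff]

theorem DF.comp {g : Y → Z} {f : X → Y} (hg : DF L M g) (hf : DF L M f) :
    DF L M fun x => g (f x) := by
  have h1 := DP.reindex hf (U := prod L M (X × Z) Y) (fun p => (p.1.1, p.2))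
    (Sum.map Sum.inl _root_.id) fun _ hw => ⟨⟨hw.1.1, hw.2⟩, rfl⟩
  have h2 := DP.reindex hg (U := prod L M (X × Z) Y) (fun p => (p.2, p.1.2))
    (Sum.elim Sum.inr (Sum.inl ∘ Sum.inr)) fun _ hw => ⟨⟨hw.2, hw.1.2⟩, rfl⟩
  exact (DP.ex (P := fun (p : X × Z) (y : Y) => f p.1 = y ∧ g y = p.2) (h1.and h2)).congr
    fun p => by simp

theorem DF.fst {f : X → Y × Z} (hf : DF L M f) : DF L M fun x => (f x).1 := DF.fst0.comp hf

theorem DF.snd {f : X → Y × Z} (hf : DF L M f) : DF L M fun x => (f x).2 := DF.snd0.comp hf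

theorem DP.eq {f g : X → Y} (hf : DF L M f) (hg : DF L M g) : DP L M fun x => f x = g x :=
  DP.comp (P := fun p : Y × Y => p.1 = p.2) DP.eq0 (hf.pair hg)

theorem DP.eq_const (c : X) : DP L M fun x => c = x := by
  obtain ⟨u, hu, rfl⟩ := S.surj c
  have h1 : (Set.univ : Set M).Definable L
      (⋂ i : S.ι, {w : S.ι ⊕ S.ι → M | w (Sum.inr i) = u i}) :=
    Set.definable_iInter_of_finite fun i => def_eq_const L M _ _
  have := Set.Definable.exists_of_finite (h1.inter S.ker)
  unfold DP
  convert this using 1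
  ext w
  simp only [Set.mem_ofPred_eq, Set.mem_inter_iff, Set.mem_iInter, Sum.elim_inr]
  constructor
  · rintro ⟨a, b⟩
    exact ⟨u, fun _ => rfl, a, hu, b.symm⟩
  · rintro ⟨v, e, a, -, b⟩
    obtain rfl : v = u := funext e
    exact ⟨a, b.symm⟩

theorem DF.const (c : Y) : DF L M fun _ : X => c := (DP.eq_const c).snd

theorem DF.eval0 {κ : Type} [Finite κ] (k : κ) : DF L M fun v : κ → X => v k :=
  (DP.eq0 (X := X)).reindex (U := prod L M (κ → X) X) (fun p => (p.1 k, p.2))
    (Sum.map (Prod.mk k) _root_.id) fun _ hw => ⟨⟨hw.1 k, hw.2⟩, rfl⟩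

theorem DF.eval {κ : Type} [Finite κ] {f : X → κ → Y} (hf : DF L M f) (k : κ) :
    DF L M fun x => f x k := (DF.eval0 k).comp hf

theorem DF.pi {κ : Type} [Finite κ] {f : X → κ → Y} (hf : ∀ k, DF L M fun x => f x k) :
    DF L M f :=
  (DP.all_fin fun k => DP.eq ((hf k).comp DF.fst0) ((DF.snd0 (Y := κ → Y)).eval k)).congr
    fun p => by simp [funext_iff]

theorem DF.of_graph {g : X → Y} {P : X → Y → Prop} (h : DP L M fun p : X × Y => P p.1 p.2)
    (e : ∀ x y, P x y ↔ g x = y) : DF L M g := h.congr fun p => e p.1 p.2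

theorem DP.comp2 {P : Y → Z → Prop} {f : X → Y} {g : X → Z}
    (h : DP L M fun p : Y × Z => P p.1 p.2) (hf : DF L M f) (hg : DF L M g) :
    DP L M fun x => P (f x) (g x) :=
  DP.comp (P := fun p : Y × Z => P p.1 p.2) h (hf.pair hg)

theorem DF.comp2 {W : Type} [Srt L M W] {h : Y → Z → W} {f : X → Y} {g : X → Z}
    (hh : DF L M fun p : Y × Z => h p.1 p.2) (hf : DF L M f) (hg : DF L M g) :
    DF L M fun x => h (f x) (g x) :=
  DF.comp (g := fun p : Y × Z => h p.1 p.2) hh (hf.pair hg)

theorem dp_base {α : Type} [Finite α] (P : (α → M) → Prop) :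
    DP L M P ↔ (Set.univ : Set M).Definable L {w | P w} := by
  constructor
  · intro h
    have := Set.Definable.preimage_comp (Prod.fst : α × Unit → α) h
    convert this using 1
    ext w
    exact ⟨fun h => ⟨fun _ => trivial, h⟩, fun h => h.2⟩
  · intro h
    have := Set.Definable.preimage_comp (fun a : α => (a, ())) h
    exact def_congr L M this fun w => ⟨fun h => h.2, fun h => ⟨fun _ => trivial, h⟩⟩

theorem DF.funMap0 {k : ℕ} (F : L.Functions k) :
    DF L M fun v : Fin k → M => Structure.funMap F v := by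
  refine Set.Definable.mono (A := ∅) ?_ (Set.empty_subset _)
  rw [Set.empty_definable_iff]
  refine ⟨Term.equal (Term.func F fun i => Term.var (Sum.inl (i, ()))) (Term.var (Sum.inr ())), ?_⟩
  ext w
  simp only [Set.mem_ofPred_eq, Formula.realize_equal, Term.realize_func, Term.realize_var]
  exact ⟨fun h => h.2, fun h => ⟨⟨fun _ => trivial, trivial⟩, h⟩⟩

/-- The coordinate map of a sort is definable. -/
theorem dp_coord : DP L M fun p : (S.ι → M) × X => p.1 ∈ S.D ∧ S.F p.1 = p.2 := by
  have := Set.Definable.preimage_comp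
    (Sum.map (fun i => (i, ())) _root_.id : S.ι ⊕ S.ι → (S.ι × Unit) ⊕ S.ι) S.ker
  exact def_congr L M this fun w =>
    ⟨fun h => ⟨h.2.1, h.1.2, h.2.2⟩, fun h => ⟨⟨fun _ => trivial, h.2.1⟩, h.1, h.2.2⟩⟩

/-- Definable sets pull back along an interpretation. -/
theorem pullback {L' : FirstOrder.Language.{0, 0}} {N : Type} [L'.Structure N] [Srt L M N]
    (hf : ∀ (k : ℕ) (F : L'.Functions k), DF L M fun v : Fin k → N => Structure.funMap F v)
    (hr : ∀ (k : ℕ) (r : L'.Relations k), DP L M fun v : Fin k → N => Structure.RelMap r v)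
    {α : Type} [Finite α] {s : Set (α → N)} (hs : (Set.univ : Set N).Definable L' s) :
    DP L M fun v : α → N => v ∈ s := by
  rw [Set.definable_iff_exists_formula_sum] at hs
  obtain ⟨φ, rfl⟩ := hs
  have ht : ∀ (n : ℕ) (t : L'.Term (((Set.univ : Set N) ⊕ α) ⊕ Fin n)),
      DF L M fun p : (α → N) × (Fin n → N) =>
        t.realize (Sum.elim (Sum.elim (↑) p.1) p.2) := by
    intro n t
    induction t with
    | var i =>
      rcases i with (i | i) | i
      · exact DF.const _
      · exact DF.fst0.eval i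
      · exact DF.snd0.eval i
    | func F ts ih => exact (hf _ F).comp (DF.pi ih)
  have key : ∀ (n : ℕ) (ψ : L'.BoundedFormula ((Set.univ : Set N) ⊕ α) n),
      DP L M fun p : (α → N) × (Fin n → N) => ψ.Realize (Sum.elim (↑) p.1) p.2 := by
    intro n ψ
    induction ψ with
    | falsum => exact DP.const False
    | equal t₁ t₂ => exact DP.eq (ht _ t₁) (ht _ t₂)
    | rel r ts => exact (hr _ r).comp (DF.pi fun i => ht _ (ts i))
    | imp _ _ ih1 ih2 => exact ih1.imp ih2
    | @all n ψ ih =>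
      have hsn : DF L M fun q : ((α → N) × (Fin n → N)) × N =>
          (q.1.1, (Fin.snoc q.1.2 q.2 : Fin (n + 1) → N)) := by
        refine DF.fst0.fst.pair (DF.pi fun i => ?_)
        refine Fin.lastCases ?_ (fun j => ?_) i
        · simpa using DF.snd0
        · simpa using DF.fst0.snd.eval j
      exact DP.all (P := fun (p : (α → N) × (Fin n → N)) (x : N) =>
        ψ.Realize (Sum.elim (↑) p.1) (Fin.snoc p.2 x)) (ih.comp hsn)
  exact (key 0 φ).comp (DF.id.pair (DF.const default))

end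

end Pool.Agent.H197Z.Bi
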