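import Pool.Agent.H197Z.BiArith

/-!
A criterion for a finitely generated group to be bi-interpretable with arithmetic.
-/

set_option autoImplicit false
set_option linter.unusedSectionVars false

namespace Pool.Agent.H197Z.Bi

open FirstOrder FirstOrder.Language Pool.Agent.H146Z.BiDefs

section general

variable {L L' : FirstOrder.Language.{0, 0}} {M N : Type} [L.Structure M] [L'.Structure N]
  [S : Srt L M N]

theorem DF.row {ι : Type} [Finite ι] {n : ℕ} (j : ι) :
    DF L M fun w : ι × Fin n → M => row w j :=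
  DF.pi fun i => DF.eval0 (j, i)

theorem isInterp_of_graph {n : ℕ} {D : Set (Fin n → M)} {f : (Fin n → M) → N}
    (hG : DP L M fun p : (Fin n → M) × N => p.1 ∈ D ∧ f p.1 = p.2)
    (hs : ∀ y : N, ∃ u ∈ D, f u = y)
    (hf : ∀ (k : ℕ) (F : L'.Functions k), DF L M fun v : Fin k → N => Structure.funMap F v)
    (hr : ∀ (k : ℕ) (r : L'.Relations k), DP L M fun v : Fin k → N => Structure.RelMap r v) :
    IsInterp L L' M N n D f := by
  have G : ∀ {W : Type} [Srt L M W] {a : W → Fin n → M} {b : W → N}, DF L M a → DF L M b →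
      DP L M fun w => a w ∈ D ∧ f (a w) = b w := fun ha hb =>
    DP.comp2 (P := fun (u : Fin n → M) (y : N) => u ∈ D ∧ f u = y) hG ha hb
  refine ⟨hs, ?_, ?_, fun k F => ?_, fun k r => ?_⟩
  · exact (dp_base _).1 ((DP.ex (P := fun (u : Fin n → M) (y : N) => u ∈ D ∧ f u = y) hG).congr
      fun u => ⟨fun ⟨_, h, _⟩ => h, fun h => ⟨_, h, rfl⟩⟩)
  · refine (dp_base _).1 ((DP.ex (P := fun (w : Fin 2 × Fin n → M) (y : N) =>
      (row w 0 ∈ D ∧ f (row w 0) = y) ∧ (row w 1 ∈ D ∧ f (row w 1) = y))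
      ((G ((DF.row 0).comp DF.fst0) DF.snd0).and (G ((DF.row 1).comp DF.fst0) DF.snd0))).congr
      fun w => ?_)
    constructor
    · rintro ⟨y, ⟨a, b⟩, c, d⟩
      exact ⟨a, c, b.trans d.symm⟩
    · rintro ⟨a, c, e⟩
      exact ⟨_, ⟨a, rfl⟩, c, e.symm⟩
  · refine (dp_base _).1 ((DP.ex (P := fun (w : Option (Fin k) × Fin n → M)
      (y : Option (Fin k) → N) => (∀ j, row w j ∈ D ∧ f (row w j) = y j) ∧
        Structure.funMap F (fun j => y (some j)) = y none)
      ((DP.all_fin fun j => G ((DF.row j).comp DF.fst0) (DF.snd0.eval j)).and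
        (DP.eq ((hf k F).comp (DF.pi fun j => DF.snd0.eval (some j))) (DF.snd0.eval none)))).congr
      fun w => ?_)
    constructor
    · rintro ⟨y, a, b⟩
      obtain rfl : y = fun j => f (row w j) := funext fun j => (a j).2.symm
      exact ⟨fun j => (a j).1, b⟩
    · rintro ⟨a, b⟩
      exact ⟨fun j => f (row w j), fun j => ⟨a j, rfl⟩, b⟩
  · refine (dp_base _).1 ((DP.ex (P := fun (w : Fin k × Fin n → M)
      (y : Fin k → N) => (∀ j, row w j ∈ D ∧ f (row w j) = y j) ∧ Structure.RelMap r y)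
      ((DP.all_fin fun j => G ((DF.row j).comp DF.fst0) (DF.snd0.eval j)).and
        ((hr k r).comp DF.snd0))).congr fun w => ?_)
    constructor
    · rintro ⟨y, a, b⟩
      obtain rfl : y = fun j => f (row w j) := funext fun j => (a j).2.symm
      exact ⟨fun j => (a j).1, b⟩
    · rintro ⟨a, b⟩
      exact ⟨fun j => f (row w j), fun j => ⟨a j, rfl⟩, b⟩

theorem compGraph_def {n m : ℕ} {D : Set (Fin n → M)} {f : (Fin n → M) → N}
    {D' : Set (Fin m → N)} {g : (Fin m → N) → M}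
    (hG : DP L M fun p : (Fin n → M) × N => p.1 ∈ D ∧ f p.1 = p.2)
    (hG' : DP L M fun p : (Fin m → N) × M => p.1 ∈ D' ∧ g p.1 = p.2) :
    (Set.univ : Set M).Definable L (compGraph D f D' g) := by
  have G : ∀ {W : Type} [Srt L M W] {a : W → Fin n → M} {b : W → N}, DF L M a → DF L M b →
      DP L M fun w => a w ∈ D ∧ f (a w) = b w := fun ha hb =>
    DP.comp2 (P := fun (u : Fin n → M) (y : N) => u ∈ D ∧ f u = y) hG ha hb
  refine (dp_base _).1 ((DP.ex (P := fun (w : Option (Fin m × Fin n) → M) (y : Fin m → N) =>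
    (∀ j, row (w ∘ some) j ∈ D ∧ f (row (w ∘ some) j) = y j) ∧ (y ∈ D' ∧ g y = w none))
    ((DP.all_fin fun j => G (DF.pi fun i => DF.fst0.eval (some (j, i))) (DF.snd0.eval j)).and
      (DP.comp2 (P := fun (u : Fin m → N) (y : M) => u ∈ D' ∧ g u = y) hG' DF.snd0
        (DF.fst0.eval none)))).congr fun w => ?_)
  constructor
  · rintro ⟨y, a, b⟩
    obtain rfl : y = fun j => f (row (w ∘ some) j) := funext fun j => (a j).2.symm
    exact ⟨fun j => (a j).1, b⟩
  · rintro ⟨a, b⟩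
    exact ⟨fun j => f (row (w ∘ some) j), fun j => ⟨a j, rfl⟩, b⟩

theorem exists_graph : ∃ (n : ℕ) (D : Set (Fin n → M)) (f : (Fin n → M) → N),
    (DP L M fun p : (Fin n → M) × N => p.1 ∈ D ∧ f p.1 = p.2) ∧ ∀ y : N, ∃ u ∈ D, f u = y := by
  obtain ⟨n, ⟨e⟩⟩ := Finite.exists_equiv_fin S.ι
  refine ⟨n, {u | u ∘ e ∈ S.D}, fun u => S.F (u ∘ e), ?_, fun y => ?_⟩
  · exact DP.comp2 (P := fun (u : S.ι → M) (y : N) => u ∈ S.D ∧ S.F u = y) dp_coord
      (DF.pi fun i => DF.fst0.eval (e i)) DF.snd0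
  · obtain ⟨w, hw, rfl⟩ := S.surj y
    have : (w ∘ e.symm) ∘ e = w := by
      funext i
      simp
    exact ⟨w ∘ e.symm, by simpa [this] using hw, congrArg S.F this⟩

theorem pullback2
    (hf : ∀ (k : ℕ) (F : L'.Functions k), DF L M fun v : Fin k → N => Structure.funMap F v)
    (hr : ∀ (k : ℕ) (r : L'.Relations k), DP L M fun v : Fin k → N => Structure.RelMap r v)
    {n : ℕ} {P : (Fin n → N) → (Fin n → N) → Prop}
    (h : DP L' N fun p : (Fin n → N) × (Fin n → N) => P p.1 p.2) :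
    DP L M fun p : (Fin n → N) × (Fin n → N) => P p.1 p.2 := by
  have h1 : DP L' N fun w : Fin n ⊕ Fin n → N => P (w ∘ Sum.inl) (w ∘ Sum.inr) :=
    DP.comp2 h (DF.pi fun i => DF.eval0 (Sum.inl i)) (DF.pi fun i => DF.eval0 (Sum.inr i))
  have h2 := pullback (L := L) (M := M) hf hr ((dp_base _).1 h1)
  have h3 : DF L M fun p : (Fin n → N) × (Fin n → N) => Sum.elim p.1 p.2 := by
    refine DF.pi fun i => ?_
    rcases i with i | i
    · exact DF.fst0.eval i
    · exact DF.snd0.eval i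
  exact h2.comp h3

end general

instance arithNat : Arith Lar ℕ where
  add0 := (DF.funMap0 (L := Lar) (M := ℕ) ArFunc.add).comp
    (f := fun p : ℕ × ℕ => ![p.1, p.2]) (DF.pi fun i => by
      fin_cases i
      · exact DF.fst0
      · exact DF.snd0)
  mul0 := (DF.funMap0 (L := Lar) (M := ℕ) ArFunc.mul).comp
    (f := fun p : ℕ × ℕ => ![p.1, p.2]) (DF.pi fun i => by
      fin_cases i
      · exact DF.fst0
      · exact DF.snd0)

section group

variable {G : Type} [Group G]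

theorem gmul0 : DF Lgrp G fun p : G × G => p.1 * p.2 :=
  (DF.funMap0 (L := Lgrp) (M := G) GrpFunc.mul).comp
    (f := fun p : G × G => ![p.1, p.2]) (DF.pi fun i => by
      fin_cases i
      · exact DF.fst0
      · exact DF.snd0)

theorem ginv0 : DF Lgrp G fun a : G => a⁻¹ :=
  (DF.funMap0 (L := Lgrp) (M := G) GrpFunc.inv).comp
    (f := fun (a : G) (_ : Fin 1) => a) (DF.pi fun _ => DF.id)

theorem DF.gmul {X : Type} [Srt Lgrp G X] {f g : X → G} (hf : DF Lgrp G f) (hg : DF Lgrp G g) :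
    DF Lgrp G fun x => f x * g x :=
  DF.comp2 (h := fun a b : G => a * b) gmul0 hf hg

theorem DF.ginv {X : Type} [Srt Lgrp G X] {f : X → G} (hf : DF Lgrp G f) :
    DF Lgrp G fun x => (f x)⁻¹ := ginv0.comp hf

theorem DF.gprod {X : Type} [Srt Lgrp G X] {k : ℕ} {f : X → Fin k → G}
    (hf : ∀ i, DF Lgrp G fun x => f x i) : DF Lgrp G fun x => (List.ofFn (f x)).prod := by
  induction k with
  | zero => simpa using DF.const (L := Lgrp) (M := G) (X := X) (1 : G)
  | succ k ih =>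
    simp only [List.ofFn_succ, List.prod_cons]
    exact (hf 0).gmul (ih fun i => hf i.succ)

/-- Evaluation of a coded word. -/
def ev (K : ℕ) (x : ℕ → G) : ℕ → G
  | 0 => 1
  | m + 1 => ev K x (m / K) * x (m % K)
decreasing_by exact Nat.lt_succ_of_le (Nat.div_le_self _ _)

theorem ev_zero (K : ℕ) (x : ℕ → G) : ev K x 0 = 1 := by rw [ev]

theorem ev_succ (K : ℕ) (x : ℕ → G) (m : ℕ) : ev K x (m + 1) = ev K x (m / K) * x (m % K) := by
  rw [ev]

theorem ev_step {K : ℕ} (hK : 0 < K) (x : ℕ → G) (c i : ℕ) (hi : i < K) :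
    ev K x (K * c + i + 1) = ev K x c * x i := by
  rw [ev_succ, Nat.mul_add_div hK, Nat.div_eq_of_lt hi, add_zero, Nat.mul_add_mod,
    Nat.mod_eq_of_lt hi]

theorem ev_cat {K : ℕ} (hK : 0 < K) (x : ℕ → G) (p q : ℕ) :
    ev K x (cat K p q) = ev K x p * ev K x q := by
  induction q using Nat.strong_induction_on with
  | _ q ih =>
    rcases q with _ | m
    · rw [cat_zero, ev_zero, mul_one]
    · rw [cat_succ, ev_step hK _ _ _ (Nat.mod_lt _ hK), ev_succ,
        ih _ (Nat.lt_succ_of_le (Nat.div_le_self _ _)), mul_assoc]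

/-- Evaluation is definable once the group is approximated by definable coset spaces with
definable enumerations. -/
theorem ev_def [Srt Lgrp G ℕ] [Arith Lgrp G] {P : Type} [Srt Lgrp G P] (N : P → Subgroup G)
    (hN : DP Lgrp G fun p : P × G => p.2 ∈ N p.1) (hbot : ∀ g : G, (∀ p, g ∈ N p) → g = 1)
    {r : ℕ} (π : (Fin r → ℕ) → G) (hπ : DF Lgrp G π) (hs : ∀ p g, ∃ t, π t * g⁻¹ ∈ N p)
    {K : ℕ} (hK : 0 < K) (x : ℕ → G) : DF Lgrp G (ev K x) := by
  let U : ℕ × ℕ → ℕ → G := fun c i => π (tup r c i)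
  have hU : ∀ {W : Type} [Srt Lgrp G W] {f : W → ℕ × ℕ} {g : W → ℕ}, DF Lgrp G f →
      DF Lgrp G g → DF Lgrp G fun w => U (f w) (g w) := fun hf hg => hπ.comp (DF.tup r hf hg)
  have hm : ∀ {W : Type} [Srt Lgrp G W] {f : W → P} {g : W → G}, DF Lgrp G f →
      DF Lgrp G g → DP Lgrp G fun w => g w ∈ N (f w) := fun hf hg =>
    DP.comp2 (P := fun (p : P) (g : G) => g ∈ N p) hN hf hg
  have hx : DF Lgrp G fun m : ℕ => x (m % K) := by
    refine DF.of_graph (P := fun (m : ℕ) (g : G) => ∃ i : Fin K, m % K = i ∧ x i = g)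
      (DP.ex_fin fun i => (DP.eq (DF.fst0.mod (DF.const K)) (DF.const (i : ℕ))).and
        (DP.eq (DF.const (x i)) DF.snd0)) fun m g => ?_
    constructor
    · rintro ⟨i, h1, h2⟩
      rw [h1, h2]
    · intro h
      exact ⟨⟨m % K, Nat.mod_lt _ hK⟩, rfl, h⟩
  refine DF.of_graph (P := fun (n : ℕ) (g : G) => ∀ p : P, ∃ c : ℕ × ℕ, U c 0 ∈ N p ∧
    (∀ m : ℕ, m < n → U c (m + 1) * (U c (m / K) * x (m % K))⁻¹ ∈ N p) ∧ U c n * g⁻¹ ∈ N p) ?_ ?_
  · refine DP.all (P := fun (q : ℕ × G) (p : P) => ∃ c : ℕ × ℕ, U c 0 ∈ N p ∧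
      (∀ m : ℕ, m < q.1 → U c (m + 1) * (U c (m / K) * x (m % K))⁻¹ ∈ N p) ∧
        U c q.1 * q.2⁻¹ ∈ N p) ?_
    refine DP.ex (P := fun (q : (ℕ × G) × P) (c : ℕ × ℕ) => U c 0 ∈ N q.2 ∧
      (∀ m : ℕ, m < q.1.1 → U c (m + 1) * (U c (m / K) * x (m % K))⁻¹ ∈ N q.2) ∧
        U c q.1.1 * q.1.2⁻¹ ∈ N q.2) ?_
    refine (hm DF.fst0.snd (hU DF.snd0 (DF.const 0))).and (DP.and ?_
      (hm DF.fst0.snd ((hU DF.snd0 DF.fst0.fst.fst).gmul DF.fst0.fst.snd.ginv)))
    refine DP.all (P := fun (q : ((ℕ × G) × P) × (ℕ × ℕ)) (m : ℕ) => m < q.1.1.1 →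
      U q.2 (m + 1) * (U q.2 (m / K) * x (m % K))⁻¹ ∈ N q.1.2) ?_
    exact (DP.lt DF.snd0 DF.fst0.fst.fst.fst).imp (hm DF.fst0.fst.snd
      ((hU DF.fst0.snd (DF.snd0.add (DF.const 1))).gmul
        ((hU DF.fst0.snd (DF.snd0.divc hK)).gmul (hx.comp DF.snd0)).ginv))
  · intro n g
    constructor
    · intro h
      have : ev K x n * g⁻¹ = 1 := by
        apply hbot
        intro p
        obtain ⟨c, h0, h1, h2⟩ := h p
        have key : ∀ m, m ≤ n → U c m * (ev K x m)⁻¹ ∈ N p := by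
          intro m
          induction m using Nat.strong_induction_on with
          | _ m ih =>
            intro hm
            rcases m with _ | m
            · simpa [ev_zero] using h0
            · have := Nat.div_le_self m K
              have := (N p).mul_mem (h1 m (by omega)) (ih (m / K) (by omega) (by omega))
              rw [ev_succ]
              have h3 := (N p).mul_mem (h1 m (by omega)) (ih (m / K) (by omega) (by omega))
              have e : U c (m + 1) * (ev K x (m / K) * x (m % K))⁻¹ =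
                  U c (m + 1) * (U c (m / K) * x (m % K))⁻¹ * (U c (m / K) * (ev K x (m / K))⁻¹) := by
                group
              rw [e]
              exact h3
        have := (N p).mul_mem ((N p).inv_mem (key n le_rfl)) h2
        convert this using 1
        group
      exact mul_inv_eq_one.1 this
    · rintro rfl p
      choose t ht using hs p
      obtain ⟨c, hc⟩ := exists_tup r (n + 1) (fun i => t (ev K x i))
      have hu : ∀ i, i < n + 1 → U c i * (ev K x i)⁻¹ ∈ N p := fun i hi => by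
        simp only [U]
        rw [hc i hi]
        exact ht _
      refine ⟨c, by simpa [ev_zero] using hu 0 (by omega), fun m hm => ?_, hu n (by omega)⟩
      have := Nat.div_le_self m K
      have h3 := (N p).mul_mem (hu (m + 1) (by omega)) ((N p).inv_mem (hu (m / K) (by omega)))
      rw [ev_succ] at h3
      convert h3 using 1
      group

/-- The group as a sort in arithmetic. -/
@[reducible] def grpSort {K : ℕ} {x : ℕ → G} (hs : Function.Surjective (ev K x))
    (hE : DP Lar ℕ fun p : ℕ × ℕ => ev K x p.1 = ev K x p.2) : Srt Lar ℕ G where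
  ι := Unit
  fin := inferInstance
  D := Set.univ
  F := fun w => ev K x (w ())
  dom := Set.definable_univ
  surj := fun g => by
    obtain ⟨n, rfl⟩ := hs g
    exact ⟨fun _ => n, trivial, rfl⟩
  ker := def_congr Lar ℕ hE fun _ =>
    ⟨fun h => ⟨⟨trivial, trivial⟩, h.2.2⟩, fun h => ⟨trivial, trivial, h.2⟩⟩

theorem biInterp_of [S : Srt Lgrp G ℕ] [Arith Lgrp G] {K : ℕ} (hK : 0 < K) {x : ℕ → G}
    (hs : Function.Surjective (ev K x)) (hev : DF Lgrp G (ev K x))
    (hE : DP Lar ℕ fun p : ℕ × ℕ => ev K x p.1 = ev K x p.2) : BiInterp Lgrp Lar G ℕ := by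
  let _ := grpSort hs hE
  have hev' : DF Lar ℕ (ev K x) := def_congr Lar ℕ hE fun _ => Iff.rfl
  have hmul : DF Lar ℕ fun p : G × G => p.1 * p.2 := by
    refine DF.of_graph (P := fun (p : G × G) (g : G) => ∃ q : ℕ × ℕ, ev K x q.1 = p.1 ∧
      ev K x q.2 = p.2 ∧ ev K x (cat K q.1 q.2) = g) ?_ ?_
    · refine DP.ex (P := fun (p : (G × G) × G) (q : ℕ × ℕ) => ev K x q.1 = p.1.1 ∧
        ev K x q.2 = p.1.2 ∧ ev K x (cat K q.1 q.2) = p.2) ?_
      exact (DP.eq (hev'.comp DF.snd0.fst) DF.fst0.fst.fst).and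
        ((DP.eq (hev'.comp DF.snd0.snd) DF.fst0.fst.snd).and
          (DP.eq (hev'.comp (DF.snd0.fst.cat hK DF.snd0.snd)) DF.fst0.snd))
    · intro p g
      constructor
      · rintro ⟨q, h1, h2, h3⟩
        rw [← h1, ← h2, ← h3, ev_cat hK]
      · rintro rfl
        obtain ⟨a, ha⟩ := hs p.1
        obtain ⟨b, hb⟩ := hs p.2
        exact ⟨(a, b), ha, hb, by rw [ev_cat hK, ha, hb]⟩
  have hinv : DF Lar ℕ fun a : G => a⁻¹ :=
    DF.of_graph (P := fun a b : G => a * b = 1) (DP.eq hmul (DF.const 1)) fun a b =>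
      ⟨fun h => inv_eq_of_mul_eq_one_right h, fun h => by rw [← h, mul_inv_cancel]⟩
  have hfG : ∀ (k : ℕ) (F : Lgrp.Functions k),
      DF Lar ℕ fun v : Fin k → G => Structure.funMap F v := by
    intro k F
    cases F with
    | one => exact DF.const (1 : G)
    | inv => exact hinv.comp (DF.eval0 0)
    | mul => exact DF.comp2 (h := fun a b : G => a * b) hmul (DF.eval0 0) (DF.eval0 1)
  have hrG : ∀ (k : ℕ) (r : Lgrp.Relations k),
      DP Lar ℕ fun v : Fin k → G => Structure.RelMap r v := fun k r => Empty.elim r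
  have hfN : ∀ (k : ℕ) (F : Lar.Functions k),
      DF Lgrp G fun v : Fin k → ℕ => Structure.funMap F v := by
    intro k F
    cases F with
    | zero => exact DF.const (0 : ℕ)
    | one => exact DF.const (1 : ℕ)
    | add => exact (DF.eval0 0).add (DF.eval0 1)
    | mul => exact (DF.eval0 0).mul (DF.eval0 1)
  have hrN : ∀ (k : ℕ) (r : Lar.Relations k),
      DP Lgrp G fun v : Fin k → ℕ => Structure.RelMap r v := fun k r => Empty.elim r
  obtain ⟨n, D, f, hG, hsf⟩ := exists_graph (L := Lgrp) (M := G) (N := ℕ)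
  let g : (Fin 1 → ℕ) → G := fun u => ev K x (u 0)
  have hg1 : DP Lar ℕ fun p : (Fin 1 → ℕ) × G => p.1 ∈ (Set.univ : Set (Fin 1 → ℕ)) ∧
      g p.1 = p.2 := (DP.const True).and (DP.eq (hev'.comp (DF.fst0.eval 0)) DF.snd0)
  have hg2 : DP Lgrp G fun p : (Fin 1 → ℕ) × G => p.1 ∈ (Set.univ : Set (Fin 1 → ℕ)) ∧
      g p.1 = p.2 := (DP.const True).and (DP.eq (hev.comp (DF.fst0.eval 0)) DF.snd0)
  have GG : ∀ {W : Type} [Srt Lgrp G W] {a : W → Fin n → G} {b : W → ℕ}, DF Lgrp G a →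
      DF Lgrp G b → DP Lgrp G fun w => a w ∈ D ∧ f (a w) = b w := fun ha hb =>
    DP.comp2 (P := fun (u : Fin n → G) (y : ℕ) => u ∈ D ∧ f u = y) hG ha hb
  have hrel : ∀ k l : ℕ, DP Lar ℕ fun p : (Fin n → G) × (Fin n → G) =>
      ∃ y : ℕ, (p.1 ∈ D ∧ f p.1 = y) ∧ (p.2 ∈ D ∧ f p.2 = k * y + l) := fun k l =>
    pullback2 (P := fun u v => ∃ y : ℕ, (u ∈ D ∧ f u = y) ∧ (v ∈ D ∧ f v = k * y + l)) hfG hrG
      (DP.ex (P := fun (p : (Fin n → G) × (Fin n → G)) (y : ℕ) =>
        (p.1 ∈ D ∧ f p.1 = y) ∧ (p.2 ∈ D ∧ f p.2 = k * y + l))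
        ((GG DF.fst0.fst DF.snd0).and
          (GG DF.fst0.snd (((DF.const k).mul DF.snd0).add (DF.const l)))))
  let R : ℕ → ℕ → (Fin n → G) → (Fin n → G) → Prop := fun k l u v =>
    ∃ y : ℕ, (u ∈ D ∧ f u = y) ∧ (v ∈ D ∧ f v = k * y + l)
  have hR : ∀ (k l : ℕ) {W : Type} [Srt Lar ℕ W] {a b : W → Fin n → G}, DF Lar ℕ a →
      DF Lar ℕ b → DP Lar ℕ fun w => R k l (a w) (b w) := fun k l _ _ _ _ ha hb =>
    DP.comp2 (P := R k l) (hrel k l) ha hb
  let U : ℕ × ℕ → ℕ → Fin n → G := fun c i j => ev K x (tup n c i j)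
  have hU : ∀ {W : Type} [Srt Lar ℕ W] {a : W → ℕ × ℕ} {b : W → ℕ}, DF Lar ℕ a →
      DF Lar ℕ b → DF Lar ℕ fun w => U (a w) (b w) := fun ha hb =>
    DF.pi fun j => hev'.comp ((DF.tup n ha hb).eval j)
  have hf2 : DP Lar ℕ fun p : (Fin n → G) × ℕ => p.1 ∈ D ∧ f p.1 = p.2 := by
    have : DP Lar ℕ fun p : (Fin n → G) × ℕ => ∃ c : ℕ × ℕ, R 0 0 (U c 0) (U c 0) ∧
        (∀ i, i < p.2 → R 1 1 (U c i) (U c (i + 1))) ∧ R 1 0 (U c p.2) p.1 := by
      refine DP.ex (P := fun (p : (Fin n → G) × ℕ) (c : ℕ × ℕ) => R 0 0 (U c 0) (U c 0) ∧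
        (∀ i, i < p.2 → R 1 1 (U c i) (U c (i + 1))) ∧ R 1 0 (U c p.2) p.1) ?_
      refine (hR 0 0 (hU DF.snd0 (DF.const 0)) (hU DF.snd0 (DF.const 0))).and (DP.and ?_
        (hR 1 0 (hU DF.snd0 DF.fst0.snd) DF.fst0.fst))
      refine DP.all (P := fun (p : ((Fin n → G) × ℕ) × (ℕ × ℕ)) (i : ℕ) => i < p.1.2 →
        R 1 1 (U p.2 i) (U p.2 (i + 1))) ?_
      exact (DP.lt DF.snd0 DF.fst0.fst.snd).imp (hR 1 1 (hU DF.fst0.snd DF.snd0)
        (hU DF.fst0.snd (DF.snd0.add (DF.const 1))))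
    refine this.congr fun p => ?_
    constructor
    · rintro ⟨c, ⟨y0, -, -, h0⟩, h1, y, ⟨-, h2⟩, h3, h4⟩
      have key : ∀ i, i ≤ p.2 → f (U c i) = i := by
        intro i
        induction i with
        | zero => intro _; simpa using h0
        | succ i ih =>
          intro hi
          obtain ⟨z, ⟨-, a⟩, -, b⟩ := h1 i (by omega)
          rw [b, ← a, ih (by omega)]
          omega
      exact ⟨h3, by rw [h4, ← h2, key _ le_rfl]; omega⟩
    · rintro ⟨h1, h2⟩
      choose u hu1 hu2 using hsf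
      choose t ht using (id hs : ∀ b, ∃ a, ev K x a = b)
      obtain ⟨c, hc⟩ := exists_tup n (p.2 + 1) (fun i j => t (u i j))
      have hu : ∀ i, i < p.2 + 1 → U c i = u i := fun i hi => by
        funext j
        simp only [U]
        rw [hc i hi, ht]
      refine ⟨c, ?_, fun i hi => ?_, ?_⟩
      · rw [hu 0 (by omega)]
        exact ⟨0, ⟨hu1 0, hu2 0⟩, hu1 0, hu2 0⟩
      · rw [hu i (by omega), hu (i + 1) (by omega)]
        exact ⟨i, ⟨hu1 _, hu2 _⟩, hu1 _, by rw [hu2]; omega⟩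
      · rw [hu _ (by omega)]
        exact ⟨p.2, ⟨hu1 _, hu2 _⟩, h1, by rw [h2]; omega⟩
  refine ⟨n, D, f, 1, Set.univ, g, isInterp_of_graph hG hsf hfN hrN,
    isInterp_of_graph hg1 (fun y => ?_) hfG hrG, compGraph_def hG hg2, compGraph_def hg1 hf2⟩
  obtain ⟨a, ha⟩ := hs y
  exact ⟨fun _ => a, trivial, ha⟩

end group

end Pool.Agent.H197Z.Bi
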