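import Mathlib

/-!
Facts on integral group rings of abelian groups and their torsion-free modules.
-/

set_option autoImplicit false
set_option linter.unusedSectionVars false

namespace Pool.Agent.H197Z.Bi

open MonoidAlgebra

theorem nak {R A : Type} [CommRing R] [AddCommGroup A] [Module R A] [Module.Finite R A]
    [Nontrivial A] (hT : ∀ (r : R) (a : A), r • a = 0 → r = 0 ∨ a = 0) {r s : R}
    (h : ∀ a : A, ∃ a' : A, r • a = s • a') : ∃ n, s ∣ r ^ n := by
  obtain ⟨p, h1, -, h2, h3⟩ :=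
    LinearMap.exists_monic_and_natDegree_eq_and_coeff_mem_pow_and_aeval_eq_zero R
      (algebraMap R (Module.End R A) r) (Ideal.span {s}) (by
        rintro _ ⟨a, rfl⟩
        obtain ⟨a', e⟩ := h a
        rw [Module.algebraMap_end_apply, e]
        exact Submodule.smul_mem_smul (Ideal.mem_span_singleton_self s) trivial)
  obtain ⟨c, hc⟩ := exists_ne (0 : A)
  rw [Polynomial.aeval_algebraMap_apply, Polynomial.coe_aeval_eq_eval] at h3
  have h4 := (hT _ c (by simpa using LinearMap.congr_fun h3 c)).resolve_right hc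
  rw [Polynomial.eval_eq_sum_range, Finset.sum_range_succ, h1.coeff_natDegree, one_mul] at h4
  refine ⟨p.natDegree, ?_⟩
  rw [eq_neg_of_add_eq_zero_right h4, dvd_neg]
  refine Finset.dvd_sum fun i hi => Dvd.dvd.mul_right ?_ _
  rw [← Ideal.mem_span_singleton]
  exact Ideal.pow_le_self (by have := Finset.mem_range.1 hi; omega) (h2 i)

theorem exists_dual {R A : Type} [CommRing R] [IsDomain R] [AddCommGroup A] [Module R A]
    [Module.Finite R A] (hT : ∀ (r : R) (a : A), r • a = 0 → r = 0 ∨ a = 0) {c : A} (hc : c ≠ 0) :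
    ∃ l : A →ₗ[R] R, l c ≠ 0 := by
  classical
  obtain ⟨n, s, hs⟩ := Module.Finite.exists_fin (R := R) (M := A)
  obtain ⟨I, h1, h2⟩ := exists_maximal_linearIndepOn R s
  let N := Submodule.span R (Set.range fun i : I => s i)
  let b : Module.Basis I R N := Module.Basis.span h1
  have h3 : ∀ i, ∃ a : R, a ≠ 0 ∧ a • s i ∈ N := by
    intro i
    by_cases hi : i ∈ I
    · exact ⟨1, one_ne_zero, by rw [one_smul]; exact Submodule.subset_span ⟨⟨i, hi⟩, rfl⟩⟩
    · simpa [Set.image_eq_range s I] using! h2 i hi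
  choose a ha ha' using h3
  have h4 : ∀ x : A, LinearMap.lsmul R A (∏ i, a i) x ∈ N := by
    have : LinearMap.range (LinearMap.lsmul R A (∏ i, a i)) ≤ N := by
      rw [LinearMap.range_eq_map, ← hs, Submodule.map_span_le]
      rintro _ ⟨i, rfl⟩
      rw [LinearMap.lsmul_apply, Fintype.prod_eq_prod_compl_mul i, mul_smul]
      exact N.smul_mem _ (ha' i)
    exact fun x => this ⟨x, rfl⟩
  let f : A →ₗ[R] N := LinearMap.codRestrict N _ h4
  have h5 : f c ≠ 0 := fun e => by
    have := hT _ _ (congrArg Subtype.val e)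
    exact hc (this.resolve_left (Finset.prod_ne_zero_iff.2 fun i _ => ha i))
  obtain ⟨j, hj⟩ := not_forall.1 fun h => h5 (b.forall_coord_eq_zero_iff.1 h)
  exact ⟨b.coord j ∘ₗ f, hj⟩

variable {B : Type} [CommGroup B]

theorem geom (Y : B) (s : ℤ) : ∃ ρ : MonoidAlgebra ℤ B,
    of ℤ B (Y ^ s) - 1 = (of ℤ B Y - 1) * (s + (of ℤ B Y - 1) * ρ) := by
  induction s using Int.induction_on with
  | zero => exact ⟨0, by simp [← one_def]⟩
  | succ i ih =>
    obtain ⟨ρ, h⟩ := ih
    refine ⟨(i : ℤ) + of ℤ B Y * ρ, ?_⟩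
    rw [zpow_add_one, map_mul]
    push_cast at h ⊢
    linear_combination of ℤ B Y * h
  | pred i ih =>
    obtain ⟨ρ, h⟩ := ih
    have hu : of ℤ B Y⁻¹ * of ℤ B Y = 1 := by rw [← map_mul, inv_mul_cancel, map_one]
    refine ⟨of ℤ B Y⁻¹ * (ρ + 1 + (i : ℤ)), ?_⟩
    rw [zpow_sub_one, map_mul]
    push_cast at h ⊢
    linear_combination of ℤ B Y⁻¹ * h +
      (1 - (of ℤ B Y - 1) - (i : MonoidAlgebra ℤ B) * (of ℤ B Y - 1)) * hu

theorem of_sub_one_ne {Y : B} (h : Y ≠ 1) : of ℤ B Y - 1 ≠ 0 := fun e =>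
  h (of_injective (R := ℤ) ((sub_eq_zero.1 e).trans (map_one _).symm))

theorem int_eq_zero {Y : B} {z : ℤ} {n : ℕ} (h : of ℤ B Y - 1 ∣ (z : MonoidAlgebra ℤ B) ^ n) :
    z = 0 := by
  have := map_dvd (MonoidAlgebra.lift ℤ ℤ B 1) h
  rw [map_sub, lift_of, map_one, map_pow, map_intCast] at this
  simp only [MonoidHom.one_apply, sub_self, Int.cast_id, zero_dvd_iff] at this
  exact eq_zero_of_pow_eq_zero this

theorem mem_zpowers_of_dvd {X Y : B} {n : ℕ} (h : of ℤ B Y - 1 ∣ (of ℤ B X - 1) ^ n) :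
    X ∈ Subgroup.zpowers Y := by
  have key : ∀ p : ℕ, p.Prime → (QuotientGroup.mk' (Subgroup.zpowers Y) X) ^ p ^ n = 1 := by
    intro p hp
    have := Fact.mk hp
    let C := B ⧸ Subgroup.zpowers Y
    have : CharP (MonoidAlgebra (ZMod p) C) p := charP_of_injective_ringHom
      (f := singleOneRingHom) single_right_injective p
    let χ := MonoidAlgebra.lift ℤ (MonoidAlgebra (ZMod p) C) B
      ((of (ZMod p) C).comp (QuotientGroup.mk' (Subgroup.zpowers Y)))
    have h1 := map_dvd χ h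
    have h2 : QuotientGroup.mk' (Subgroup.zpowers Y) Y = 1 :=
      (QuotientGroup.eq_one_iff _).2 (Subgroup.mem_zpowers Y)
    rw [map_sub, map_pow, map_sub, lift_of, lift_of, map_one, MonoidHom.comp_apply, h2, map_one,
      sub_self, zero_dvd_iff] at h1
    have h3 := pow_eq_zero_of_le (Nat.lt_pow_self hp.one_lt).le h1
    rw [sub_pow_char_pow, one_pow, sub_eq_zero, MonoidHom.comp_apply, ← map_pow] at h3
    exact of_injective (h3.trans (map_one _).symm)
  have h1 := orderOf_dvd_of_pow_eq_one (key 2 Nat.prime_two)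
  have h2 := orderOf_dvd_of_pow_eq_one (key 3 Nat.prime_three)
  have h3 := Nat.eq_one_of_dvd_coprimes (Nat.Coprime.pow n n (by norm_num : Nat.Coprime 2 3)) h1 h2
  exact (QuotientGroup.eq_one_iff _).1 (orderOf_eq_one_iff.1 h3)

theorem torsionFree [IsDomain (MonoidAlgebra ℤ B)] {Y : B} {s : ℤ} (h : Y ^ s = 1) (hY : Y ≠ 1) :
    s = 0 := by
  obtain ⟨ρ, e⟩ := geom Y s
  rw [h, map_one, sub_self, eq_comm, mul_eq_zero] at e
  refine int_eq_zero (Y := Y) (n := 1) ⟨-ρ, ?_⟩
  linear_combination e.resolve_left (of_sub_one_ne hY)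

theorem exists_forall_ne {V : Type} [AddCommGroup V] [Module.Projective ℤ V] (T : Finset V) :
    ∃ e : V →ₗ[ℤ] ℤ, ∀ v ∈ T, v ≠ 0 → e v ≠ 0 := by
  classical
  induction T using Finset.induction_on with
  | empty => exact ⟨0, by simp⟩
  | insert w T _ ih =>
    obtain ⟨e, he⟩ := ih
    by_cases hw : w = 0
    · exact ⟨e, fun v hv h => he v ((Finset.mem_insert.1 hv).resolve_left (hw ▸ h)) h⟩
    obtain ⟨f, hf⟩ := not_forall.1 fun h => hw ((Module.forall_dual_apply_eq_zero_iff ℤ w).1 h)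
    let N : ℤ := ∑ v ∈ insert w T, |f v| + 1
    refine ⟨N • e + f, fun v hv h h' => ?_⟩
    have h1 : |f v| < N := by
      have := Finset.single_le_sum (f := fun v => |f v|) (fun _ _ => abs_nonneg _) hv
      omega
    have h2 : f v = -(N * e v) := by
      simp only [LinearMap.add_apply, LinearMap.smul_apply, smul_eq_mul] at h'
      omega
    have h3 : e v = 0 := by
      by_contra h3
      have := Int.one_le_abs h3
      have h0 : 0 ≤ N := (abs_nonneg _).trans h1.le
      rw [h2, abs_neg, abs_mul, abs_of_nonneg h0] at h1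
      nlinarith
    rcases Finset.mem_insert.1 hv with rfl | hv
    · exact hf (by rw [h2, h3]; simp)
    · exact he v hv h h3

open LaurentPolynomial in
theorem exists_zmod [Group.FG B] [IsDomain (MonoidAlgebra ℤ B)] {r : MonoidAlgebra ℤ B}
    (hr : r ≠ 0) : ∃ q : ℕ, q ≠ 0 ∧ ∃ ψ : MonoidAlgebra ℤ B →+* ZMod q, ψ r ≠ 0 := by
  classical
  have : Module.Finite ℤ (Additive B) := Module.Finite.iff_addGroup_fg.2 inferInstance
  have : Module.IsTorsionFree ℤ (Additive B) := .of_smul_eq_zero fun z v h => by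
    by_cases hv : v = 0
    · exact Or.inr hv
    · exact Or.inl (torsionFree (Y := Additive.toMul v) h hv)
  obtain ⟨b, hb⟩ : ∃ b, r.coeff b ≠ 0 := by
    by_contra h
    exact hr (coeff_eq_zero.1 (Finsupp.ext fun b => not_not.1 (not_exists.1 h b)))
  obtain ⟨e, he⟩ := exists_forall_ne
    (r.coeff.support.image fun c => Additive.ofMul c - Additive.ofMul b)
  let θ := MonoidAlgebra.lift ℤ ℤ[T;T⁻¹] B
    { toFun := fun c => T (e (Additive.ofMul c))
      map_one' := by simp
      map_mul' := fun c d => by rw [ofMul_mul, map_add, T_add] }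
  have h1 : θ r ≠ 0 := fun h => by
    have h2 := congrArg (fun f : ℤ[T;T⁻¹] => f.coeff (e (Additive.ofMul b))) h
    simp only [θ, lift_apply, Finsupp.sum, AddMonoidAlgebra.coeff_sum, Finsupp.finsetSum_apply,
      AddMonoidAlgebra.coeff_smul_apply, MonoidHom.coe_mk, OneHom.coe_mk, T_apply] at h2
    rw [Finset.sum_eq_single b] at h2
    · exact hb (by simpa using h2)
    · intro c hc hcb
      rw [if_neg, smul_zero]
      intro h3
      exact he _ (Finset.mem_image_of_mem _ hc) (fun h4 => hcb (Additive.ofMul.injective (sub_eq_zero.1 h4)))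
        (by rw [map_sub, h3, sub_self])
    · intro h3
      exact absurd (Finsupp.mem_support_iff.2 hb) h3
  obtain ⟨n, f, hf⟩ := exists_T_pow (θ r)
  have h2 : f ≠ 0 := fun h => by
    rw [h, map_zero, eq_comm, (isUnit_T n).mul_left_eq_zero] at hf
    exact h1 hf
  have h3 : (Set.range fun k : ℕ => (k : ℤ)).Infinite :=
    Set.infinite_range_of_injective Nat.cast_injective
  obtain ⟨_, ⟨k, rfl⟩, hk⟩ := h3.exists_notMem_finite
    ((Polynomial.finite_setOfPred_isRoot h2).insert 0)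
  have hk0 : k ≠ 0 := fun h => hk (by simp [h])
  have hk1 : f.eval (k : ℤ) ≠ 0 := fun h => hk (Or.inr h)
  let m := (f.eval (k : ℤ)).natAbs
  have hco : k.Coprime (k * m + 1) := by simp
  refine ⟨k * m + 1, by omega, (eval₂ (Int.castRingHom _) (ZMod.unitOfCoprime k hco)).comp
    θ.toRingHom, fun h => ?_⟩
  have h4 := congrArg (eval₂ (Int.castRingHom _) (ZMod.unitOfCoprime k hco)) hf
  change eval₂ _ _ (θ r) = 0 at h
  rw [map_mul, h, zero_mul, eval₂_toLaurent, ZMod.coe_unitOfCoprime, Polynomial.eval₂_at_natCast,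
    eq_intCast, ZMod.intCast_zmod_eq_zero_iff_dvd, Int.natCast_dvd] at h4
  have h5 := Nat.le_of_dvd (Int.natAbs_pos.2 hk1) h4
  have h6 : m ≤ k * m := Nat.le_mul_of_pos_left m (Nat.pos_of_ne_zero hk0)
  omega

end Pool.Agent.H197Z.Bi
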