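import Pool.Agent.H197Z.BiWord
import Pool.Agent.H197Z.BiRing

/-!
Arithmetic inside a torsion-free module over an integral group ring, and bi-interpretability of
the corresponding group extensions with arithmetic.
-/

set_option autoImplicit false
set_option linter.unusedSectionVars false

namespace Pool.Agent.H197Z.Bi

open FirstOrder FirstOrder.Language Pool.Agent.H146Z.BiDefs MonoidAlgebra

section sorts

variable {L : FirstOrder.Language.{0, 0}} {M : Type} [L.Structure M] {X Y Z : Type}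

theorem exists_subSort [S : Srt L M X] [Nonempty Y] {e : Y → X} (he : Function.Injective e)
    (h : DP L M fun x => ∃ y, e y = x) : ∃ _ : Srt L M Y, DF L M e := by
  have h2 : DP L M fun p : X × X => (∃ y, e y = p.1) ∧ p.1 = p.2 := h.fst.and DP.eq0
  refine ⟨⟨S.ι, S.fin, {w | w ∈ S.D ∧ ∃ y, e y = S.F w}, fun w => Function.invFun e (S.F w), h,
    fun y => ?_, def_congr L M h2 fun w => ?_⟩, def_congr L M h2 fun w => ?_⟩
  · obtain ⟨w, hw, e'⟩ := S.surj (e y)
    exact ⟨w, ⟨hw, y, e'.symm⟩, by rw [e', Function.leftInverse_invFun he]⟩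
  · constructor
    · rintro ⟨⟨a, b⟩, ⟨c, d⟩, f⟩
      refine ⟨⟨a, c⟩, b, ?_⟩
      have := congrArg e f
      rwa [Function.invFun_eq b, Function.invFun_eq d] at this
    · rintro ⟨⟨a, c⟩, b, f⟩
      exact ⟨⟨a, b⟩, ⟨c, b.imp fun _ h => h.trans f⟩, congrArg (Function.invFun e) f⟩
  · constructor
    · rintro ⟨⟨⟨a, b⟩, c⟩, f⟩
      exact ⟨⟨a, c⟩, b, (Function.invFun_eq b).symm.trans f⟩
    · rintro ⟨⟨a, c⟩, b, f⟩
      exact ⟨⟨⟨a, b⟩, c⟩, (Function.invFun_eq b).trans f⟩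

theorem exists_quotSort [S : Srt L M X] {g : X → Y} (hg : Function.Surjective g)
    (h : DP L M fun p : X × X => g p.1 = g p.2) : ∃ _ : Srt L M Y, DF L M g := by
  refine ⟨⟨S.ι, S.fin, S.D, fun w => g (S.F w), S.dom, fun y => ?_,
    def_congr L M h fun w => and_assoc.symm⟩, h⟩
  obtain ⟨x, rfl⟩ := hg y
  obtain ⟨w, hw, rfl⟩ := S.surj x
  exact ⟨w, hw, rfl⟩

variable [Srt L M X] [Srt L M Y] [Srt L M Z]

theorem DF.of_inj {e : Y → X} (he : Function.Injective e) (h : DF L M e) {f : Z → Y}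
    (hf : DF L M fun z => e (f z)) : DF L M f :=
  DF.of_graph (P := fun z y => e (f z) = e y) (DP.eq (hf.comp DF.fst0) (h.comp DF.snd0))
    fun _ _ => he.eq_iff

theorem DF.of_surj {g : X → Y} (hg : Function.Surjective g) (h : DF L M g) {f : Y → Z}
    (hf : DF L M fun x => f (g x)) : DF L M f :=
  DF.of_graph (P := fun y z => ∃ x, g x = y ∧ f (g x) = z)
    (DP.ex (P := fun (p : Y × Z) (x : X) => g x = p.1 ∧ f (g x) = p.2)
      ((DP.eq (h.comp DF.snd0) DF.fst0.fst).and (DP.eq (hf.comp DF.snd0) DF.fst0.snd)))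
    fun y _ => ⟨fun ⟨_, a, b⟩ => a ▸ b, fun a => (hg y).imp fun _ b => ⟨b, b ▸ a⟩⟩

theorem DF.congr {f g : X → Y} (h : DF L M f) (e : ∀ x, f x = g x) : DF L M g :=
  funext e ▸ h

end sorts

section module

variable {B A : Type} [CommGroup B] [AddCommGroup A] [Module (MonoidAlgebra ℤ B) A]
  [Module.Finite (MonoidAlgebra ℤ B) A] [Nontrivial A] [Group.FG B]
  (hT : ∀ (r : MonoidAlgebra ℤ B) (a : A), r • a = 0 → r = 0 ∨ a = 0)

/-- The action of `X - 1`. -/
noncomputable def dl (X : B) (a : A) : A := (of ℤ B X - 1) • a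

include hT

theorem isDomain_of : IsDomain (MonoidAlgebra ℤ B) := by
  obtain ⟨c, hc⟩ := exists_ne (0 : A)
  have : NoZeroDivisors (MonoidAlgebra ℤ B) := ⟨fun {r s} h =>
    (hT r (s • c) (by rw [smul_smul, h, zero_smul])).imp id fun e => (hT s c e).resolve_right hc⟩
  exact NoZeroDivisors.to_isDomain _

theorem sep {c : A} (hc : c ≠ 0) : ∃ q : ℕ, q ≠ 0 ∧ ∃ (ψ : MonoidAlgebra ℤ B →+* ZMod q)
    (l : A →ₗ[MonoidAlgebra ℤ B] MonoidAlgebra ℤ B), ψ (l c) ≠ 0 := by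
  have := isDomain_of hT
  obtain ⟨l, hl⟩ := exists_dual hT hc
  obtain ⟨q, hq, ψ, h⟩ := exists_zmod hl
  exact ⟨q, hq, ψ, l, h⟩

theorem inter_dl (β : B) {c : A} (h : ∀ j : ℕ, ∃ b, c = dl (β ^ (j + 1)) b) : c = 0 := by
  by_contra hc
  obtain ⟨q, hq, ψ, l, h1⟩ := sep hT hc
  have := NeZero.mk hq
  let χ : B →* (ZMod q)ˣ := (ψ.toMonoidHom.comp (of ℤ B)).toHomUnits
  obtain ⟨n, hn, e⟩ := (isOfFinOrder_of_finite (χ β)).exists_pow_eq_one
  obtain ⟨b, rfl⟩ := h (n - 1)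
  rw [Nat.sub_add_cancel hn] at h1
  rw [← map_pow] at e
  have e' : ψ (of ℤ B (β ^ n)) = 1 := congrArg Units.val e
  apply h1
  rw [dl, map_smul, smul_eq_mul, map_mul, map_sub, e', map_one, sub_self, zero_mul]

theorem dl_cancel {Y : B} (hY : Y ≠ 1) {s : ℤ} {ρ : MonoidAlgebra ℤ B} {a b : A}
    (e : of ℤ B (Y ^ s) - 1 = (of ℤ B Y - 1) * (s + (of ℤ B Y - 1) * ρ))
    (h : dl (Y ^ s) a = dl Y b) : b = s • a + dl Y (ρ • a) := by
  rw [dl, dl, e, mul_smul, ← sub_eq_zero, ← smul_sub] at h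
  have := sub_eq_zero.1 ((hT _ _ h).resolve_left (of_sub_one_ne hY))
  rw [← this, add_smul, mul_smul, Int.cast_smul_eq_zsmul, dl]

omit hT in
theorem dl_geom {Y : B} {s : ℤ} {ρ : MonoidAlgebra ℤ B} (a : A)
    (e : of ℤ B (Y ^ s) - 1 = (of ℤ B Y - 1) * (s + (of ℤ B Y - 1) * ρ)) :
    dl (Y ^ s) a = dl Y (s • a + dl Y (ρ • a)) := by
  rw [dl, dl, e, mul_smul, add_smul, mul_smul, Int.cast_smul_eq_zsmul, dl]

variable {L : FirstOrder.Language.{0, 0}} {M : Type} [L.Structure M] [Srt L M B] [Srt L M A]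
  (hmul : DF L M fun p : B × B => p.1 * p.2) (hadd : DF L M fun p : A × A => p.1 + p.2)
  (hact : DF L M fun p : B × A => of ℤ B p.1 • p.2)

omit hT in
include hadd in
theorem df_sub {W : Type} [Srt L M W] {f g : W → A} (hf : DF L M f) (hg : DF L M g) :
    DF L M fun w => f w - g w :=
  DF.of_graph (P := fun w a => f w = a + g w) (DP.eq (hf.comp DF.fst0)
    (DF.comp2 (h := fun a b : A => a + b) hadd DF.snd0 (hg.comp DF.fst0)))
    fun _ _ => sub_eq_iff_eq_add.symm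

omit hT in
include hadd in
theorem df_sum {W κ : Type} [Srt L M W] (s : Finset κ) {f : κ → W → A}
    (hf : ∀ k, DF L M (f k)) : DF L M fun w => ∑ k ∈ s, f k w := by
  classical
  induction s using Finset.induction_on with
  | empty => exact DF.const 0
  | insert k s hk ih =>
    exact (DF.comp2 (h := fun a b : A => a + b) hadd (hf k) ih).congr fun w =>
      (Finset.sum_insert (f := fun k => f k w) hk).symm

include hadd hact

omit hT in
theorem df_dl {W : Type} [Srt L M W] {f : W → B} {g : W → A} (hf : DF L M f) (hg : DF L M g) :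
    DF L M fun w => dl (f w) (g w) :=
  (df_sub hadd (DF.comp2 (h := fun (b : B) (a : A) => of ℤ B b • a) hact hf hg) hg).congr
    fun w => by rw [dl, sub_smul, one_smul]

theorem dp_zpowers : DP L M fun p : B × B => p.1 ∈ Subgroup.zpowers p.2 := by
  refine (DP.all (P := fun (p : B × B) (a : A) => ∃ a' : A, dl p.1 a = dl p.2 a')
    (DP.ex (P := fun (q : (B × B) × A) (a' : A) => dl q.1.1 q.2 = dl q.1.2 a')
      (DP.eq (df_dl hadd hact DF.fst0.fst.fst DF.fst0.snd)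
        (df_dl hadd hact DF.fst0.fst.snd DF.snd0)))).congr fun p => ⟨fun h => ?_, ?_⟩
  · obtain ⟨n, hn⟩ := nak hT h
    exact mem_zpowers_of_dvd hn
  · rintro ⟨s, e⟩ a
    obtain ⟨ρ, hρ⟩ := geom p.2 s
    exact ⟨_, by rw [← e]; exact dl_geom a hρ⟩

include hmul in
theorem mod_arith {β : B} (hβ : β ≠ 1) :
    ∃ _ : Srt L M ℕ, Arith L M ∧ DF L M fun n : ℕ => β ^ n := by
  have := isDomain_of hT
  have hz := dp_zpowers hT hadd hact
  have he : Function.Injective fun n : ℤ => β ^ n := fun m n h => by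
    have : β ^ (m - n) = 1 := by
      rw [zpow_sub, mul_inv_eq_one]
      exact h
    exact sub_eq_zero.1 (torsionFree this hβ)
  obtain ⟨_, hp⟩ := exists_subSort (L := L) (M := M) he
    (DP.comp2 (P := fun x y : B => x ∈ Subgroup.zpowers y) hz DF.id (DF.const β))
  have h1 : DF L M fun p : ℤ × ℤ => p.1 + p.2 := DF.of_inj he hp
    ((DF.comp2 (h := fun a b : B => a * b) hmul (hp.comp DF.fst0) (hp.comp DF.snd0)).congr
      fun p => (zpow_add _ _ _).symm)
  have h2 : DP L M fun p : ℤ × ℤ => p.1 ∣ p.2 :=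
    (DP.comp2 (P := fun x y : B => x ∈ Subgroup.zpowers y) hz (hp.comp DF.snd0)
      (hp.comp DF.fst0)).congr fun p =>
        ⟨fun ⟨k, e⟩ => ⟨k, he (e.symm.trans (zpow_mul _ _ _).symm)⟩,
          fun ⟨k, e⟩ => ⟨k, by rw [e]; exact (zpow_mul _ _ _).symm⟩⟩
  let _ := natSort h1 h2
  exact ⟨_, nat_arith h1 h2, (hp.comp (nat_cast h1 h2)).congr fun n => zpow_natCast _ _⟩

variable [Srt L M ℕ] [Arith L M]

theorem df_nsmul {β : B} (hβ : β ≠ 1) (hp : DF L M fun n : ℕ => β ^ n) :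
    DF L M fun p : ℕ × A => p.1 • p.2 := by
  have := isDomain_of hT
  refine DF.of_graph (P := fun (p : ℕ × A) (a : A) => ∀ j : ℕ, ∃ q : A × A,
    dl (β ^ ((j + 1) * p.1)) p.2 = dl (β ^ (j + 1)) q.1 ∧ a - q.1 = dl (β ^ (j + 1)) q.2) ?_ ?_
  · refine DP.all (P := fun (w : (ℕ × A) × A) (j : ℕ) => ∃ q : A × A,
      dl (β ^ ((j + 1) * w.1.1)) w.1.2 = dl (β ^ (j + 1)) q.1 ∧
        w.2 - q.1 = dl (β ^ (j + 1)) q.2) ?_
    refine DP.ex (P := fun (w : ((ℕ × A) × A) × ℕ) (q : A × A) =>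
      dl (β ^ ((w.2 + 1) * w.1.1.1)) w.1.1.2 = dl (β ^ (w.2 + 1)) q.1 ∧
        w.1.2 - q.1 = dl (β ^ (w.2 + 1)) q.2) ?_
    exact (DP.eq (df_dl hadd hact (hp.comp ((DF.fst0.snd.add (DF.const 1)).mul
      DF.fst0.fst.fst.fst)) DF.fst0.fst.fst.snd)
      (df_dl hadd hact (hp.comp (DF.fst0.snd.add (DF.const 1))) DF.snd0.fst)).and
      (DP.eq (df_sub hadd DF.fst0.fst.snd DF.snd0.fst)
        (df_dl hadd hact (hp.comp (DF.fst0.snd.add (DF.const 1))) DF.snd0.snd))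
  · rintro ⟨t, a⟩ a'
    constructor
    · intro h
      refine (sub_eq_zero.1 (inter_dl hT β fun j => ?_)).symm
      obtain ⟨q, h1, h2⟩ := h j
      obtain ⟨ρ, hρ⟩ := geom (β ^ (j + 1)) t
      have hne : β ^ (j + 1) ≠ 1 := fun e => by
        have := torsionFree (s := (j + 1 : ℕ)) (by rw [zpow_natCast]; exact e) hβ
        omega
      rw [pow_mul, ← zpow_natCast _ t] at h1
      refine ⟨q.2 + ρ • a, ?_⟩
      rw [dl_cancel hT hne hρ h1, natCast_zsmul] at h2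
      rw [dl, smul_add, ← dl, ← dl, ← h2]
      abel
    · rintro rfl j
      obtain ⟨ρ, hρ⟩ := geom (β ^ (j + 1)) t
      refine ⟨(_, -(ρ • a)), by rw [pow_mul, ← zpow_natCast _ t]; exact dl_geom a hρ, ?_⟩
      simp only [dl, natCast_zsmul, smul_neg]
      abel

theorem df_pow (hn : DF L M fun p : ℕ × A => p.1 • p.2) {y : B} (hy : y ≠ 1) :
    DF L M fun t : ℕ => y ^ t := by
  refine DF.of_graph (P := fun (t : ℕ) (Z : B) => Z ∈ Subgroup.zpowers y ∧ ∀ a : A, ∃ q : A × A,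
    dl Z a = dl y q.1 ∧ q.1 - t • a = dl y q.2) ?_ ?_
  · refine (DP.comp2 (P := fun x y : B => x ∈ Subgroup.zpowers y) (dp_zpowers hT hadd hact)
      DF.snd0 (DF.const y)).and (DP.all (P := fun (w : ℕ × B) (a : A) => ∃ q : A × A,
        dl w.2 a = dl y q.1 ∧ q.1 - w.1 • a = dl y q.2) ?_)
    refine DP.ex (P := fun (w : (ℕ × B) × A) (q : A × A) =>
        dl w.1.2 w.2 = dl y q.1 ∧ q.1 - w.1.1 • w.2 = dl y q.2) ?_
    exact (DP.eq (df_dl hadd hact DF.fst0.fst.snd DF.fst0.snd)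
      (df_dl hadd hact (DF.const y) DF.snd0.fst)).and
      (DP.eq (df_sub hadd DF.snd0.fst (DF.comp2 (h := fun (n : ℕ) (a : A) => n • a) hn
        DF.fst0.fst.fst DF.fst0.snd)) (df_dl hadd hact (DF.const y) DF.snd0.snd))
  · intro t Z
    constructor
    · rintro ⟨⟨s, rfl⟩, h⟩
      obtain ⟨ρ, hρ⟩ := geom y s
      obtain ⟨n, hn⟩ := nak hT (r := ((s - t : ℤ) : MonoidAlgebra ℤ B)) (s := of ℤ B y - 1)
        fun a => by
          obtain ⟨q, h1, h2⟩ := h a
          refine ⟨q.2 - ρ • a, ?_⟩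
          rw [dl_cancel hT hy hρ h1] at h2
          rw [Int.cast_smul_eq_zsmul, smul_sub, ← dl, ← dl, ← h2, sub_zsmul, natCast_zsmul]
          abel
      have := int_eq_zero hn
      rw [sub_eq_zero.1 this]
      exact (zpow_natCast _ _).symm
    · rintro rfl
      refine ⟨⟨t, zpow_natCast _ _⟩, fun a => ?_⟩
      obtain ⟨ρ, hρ⟩ := geom y t
      refine ⟨(_, ρ • a), by rw [← zpow_natCast]; exact dl_geom a hρ, ?_⟩
      simp only [natCast_zsmul]
      abel

end module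

end Pool.Agent.H197Z.Bi
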