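import Pool.Agent.H197Z.BiDef

/-!
Finitely generated extensions of torsion-free modules by abelian groups are bi-interpretable with
arithmetic.
-/

set_option autoImplicit false
set_option linter.unusedSectionVars false

namespace Pool.Agent.H197Z.Bi

open FirstOrder FirstOrder.Language Pool.Agent.H146Z.BiDefs MonoidAlgebra

theorem exists_ev (G : Type) [Group G] [Group.FG G] :
    ∃ K : ℕ, 0 < K ∧ ∃ x : ℕ → G, Function.Surjective (ev K x) := by
  obtain ⟨S, hS, hf⟩ := Monoid.fg_iff.1 (inferInstance : Monoid.FG G)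
  obtain ⟨n, f, -, hf'⟩ := hf.fin_param
  have hK : 0 < n + 1 := n.succ_pos
  refine ⟨n + 1, hK, fun i => if h : i < n then f ⟨i, h⟩ else 1, fun g => ?_⟩
  have : g ∈ Submonoid.closure S := by rw [hS]; trivial
  induction this using Submonoid.closure_induction with
  | mem s hs =>
    obtain ⟨i, rfl⟩ : s ∈ Set.range f := hf' ▸ hs
    refine ⟨(n + 1) * 0 + i + 1, ?_⟩
    rw [ev_step hK _ _ _ (by omega), ev_zero, one_mul, dif_pos i.2]
  | one => exact ⟨0, ev_zero _ _⟩
  | mul a b _ _ ha hb =>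
    obtain ⟨p, rfl⟩ := ha
    obtain ⟨q, rfl⟩ := hb
    exact ⟨_, ev_cat hK _ p q⟩

theorem ev_def' {G : Type} [Group G] [Srt Lgrp G ℕ] [Arith Lgrp G] {P : Type} [Srt Lgrp G P]
    (N : P → Subgroup G) (hN : DP Lgrp G fun p : P × G => p.2 ∈ N p.1)
    (hbot : ∀ g : G, (∀ p, g ∈ N p) → g = 1) {κ : Type} [Finite κ] (π : (κ → ℕ) → G)
    (hπ : DF Lgrp G π) (hs : ∀ p g, ∃ t, π t * g⁻¹ ∈ N p) {K : ℕ} (hK : 0 < K) (x : ℕ → G) :
    DF Lgrp G (ev K x) := by
  obtain ⟨r, ⟨e⟩⟩ := Finite.exists_equiv_fin κ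
  refine ev_def N hN hbot (fun t : Fin r → ℕ => π (t ∘ e))
    (hπ.comp (DF.pi fun i => DF.eval0 (e i))) (fun p g => ?_) hK x
  obtain ⟨t, ht⟩ := hs p g
  exact ⟨t ∘ e.symm, by simpa [Function.comp_def] using ht⟩

variable {G B A : Type} [Group G] [CommGroup B] [AddCommGroup A]
  [Module (MonoidAlgebra ℤ B) A] {φ : G →* B} {ι : A → G} (h : IsExt φ ι)
  (hT : ∀ (r : MonoidAlgebra ℤ B) (a : A), r • a = 0 → r = 0 ∨ a = 0)

include h

theorem IsExt.comm (a b : A) : Commute (ι a) (ι b) := by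
  rw [Commute, SemiconjBy, ← h.map_add, ← h.map_add, add_comm]

theorem IsExt.metab (a b c d : G) : Commute (a * b * a⁻¹ * b⁻¹) (c * d * c⁻¹ * d⁻¹) := by
  obtain ⟨u, hu⟩ := (h.ker (a * b * a⁻¹ * b⁻¹)).1 (by simp [mul_comm (φ a) (φ b)])
  obtain ⟨v, hv⟩ := (h.ker (c * d * c⁻¹ * d⁻¹)).1 (by simp [mul_comm (φ c) (φ d)])
  rw [← hu, ← hv]
  exact h.comm u v

include hT

theorem IsExt.of_comm {g : G} {a : A} (e : g * ι a = ι a * g) : φ g = 1 ∨ a = 0 := by
  have : of ℤ B (φ g) • a = a := h.inj (by rw [h.act, e, mul_inv_cancel_right])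
  refine (hT (of ℤ B (φ g) - 1) a (by rw [sub_smul, one_smul, this, sub_self])).imp_left fun e => ?_
  by_contra hne
  exact of_sub_one_ne hne e

theorem IsExt.biInterp [Group.FG G] [Nontrivial A] [Nontrivial B] : BiInterp Lgrp Lar G ℕ := by
  classical
  have : Group.FG B := Group.fg_of_surjective h.surj
  have := h.finite
  obtain ⟨c, hc⟩ := exists_ne (0 : A)
  obtain ⟨β, hβ⟩ := exists_ne (1 : B)
  have hk : DP Lgrp G fun g : G => φ g = 1 :=
    (DP.eq (DF.id.gmul (DF.const (ι c))) ((DF.const (ι c)).gmul DF.id)).congr fun g =>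
      ⟨fun e => (h.of_comm hT e).resolve_right hc, fun e => by
        obtain ⟨a, rfl⟩ := (h.ker g).1 e
        exact h.comm a c⟩
  obtain ⟨_, hι⟩ := exists_subSort (L := Lgrp) (M := G) h.inj (hk.congr h.ker)
  obtain ⟨_, hφ⟩ := exists_quotSort (L := Lgrp) (M := G) h.surj
    ((hk.comp (DF.fst0.gmul DF.snd0.ginv)).congr fun p : G × G => by simp [mul_inv_eq_one])
  have hmul : DF Lgrp G fun p : B × B => p.1 * p.2 :=
    DF.of_surj (g := fun p : G × G => (φ p.1, φ p.2)) (h.surj.prodMap h.surj)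
      ((hφ.comp DF.fst0).pair (hφ.comp DF.snd0))
      ((hφ.comp gmul0).congr fun p => map_mul φ _ _)
  have hadd : DF Lgrp G fun p : A × A => p.1 + p.2 :=
    DF.of_inj h.inj hι (((hι.comp DF.fst0).gmul (hι.comp DF.snd0)).congr fun p =>
      (h.map_add _ _).symm)
  have hact : DF Lgrp G fun p : B × A => of ℤ B p.1 • p.2 :=
    DF.of_surj (g := fun p : G × A => (φ p.1, p.2)) (h.surj.prodMap Function.surjective_id)
      ((hφ.comp DF.fst0).pair DF.snd0) (DF.of_inj h.inj hι
        (((DF.fst0.gmul (hι.comp DF.snd0)).gmul DF.fst0.ginv).congr fun p => (h.act _ _).symm))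
  obtain ⟨_, _, hp⟩ := mod_arith hT hmul hadd hact hβ
  have hn := df_nsmul hT hadd hact hβ hp
  have hn' : ∀ {W : Type} [Srt Lgrp G W] {f : W → ℕ} {g : W → A}, DF Lgrp G f → DF Lgrp G g →
      DF Lgrp G fun w => f w • g w := fun hf hg =>
    DF.comp2 (h := fun (n : ℕ) (a : A) => n • a) hn hf hg
  have hpow : ∀ y : G, DF Lgrp G fun t : ℕ => y ^ t := by
    intro y
    by_cases hy : φ y = 1
    · obtain ⟨a, rfl⟩ := (h.ker y).1 hy
      exact (hι.comp (hn' DF.id (DF.const a))).congr fun t => h.map_nsmul a t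
    refine DF.of_graph (P := fun (t : ℕ) (z : G) => y * z = z * y ∧ φ y ^ t = φ z)
      ((DP.eq ((DF.const y).gmul DF.snd0) (DF.snd0.gmul (DF.const y))).and
        (DP.eq ((df_pow hT hadd hact hn hy).comp DF.fst0) (hφ.comp DF.snd0))) fun t z => ?_
    constructor
    · rintro ⟨h1, h2⟩
      obtain ⟨a, ha⟩ := (h.ker (y ^ t * z⁻¹)).1 (by simp [h2])
      have h3 : Commute y (ι a) := by
        rw [ha]
        exact (Commute.self_pow y t).mul_right (Commute.inv_right h1)
      rw [(h.of_comm hT h3).resolve_left hy, h.map_zero] at ha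
      exact mul_inv_eq_one.1 ha.symm
    · rintro rfl
      exact ⟨Commute.self_pow y t, (map_pow φ y t).symm⟩
  obtain ⟨K, hK, x, hx⟩ := exists_ev G
  refine biInterp_of hK hx ?_ (word_problem h.metab hK hx)
  let T : (Fin K → ℕ) → (Fin K → A) →ₗ[MonoidAlgebra ℤ B] A := fun u =>
    ∑ j : Fin K, (of ℤ B (φ (x j)) - (u j : MonoidAlgebra ℤ B)) • LinearMap.proj j
  have hTa : ∀ u y, T u y = ∑ j : Fin K, (of ℤ B (φ (x j)) - (u j : MonoidAlgebra ℤ B)) • y j :=
    fun u y => by simp [T, LinearMap.sum_apply]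
  obtain ⟨m, a0, ha0⟩ := Module.Finite.exists_fin (R := MonoidAlgebra ℤ B) (M := A)
  let π : ((Fin m ⊕ Fin m) ⊕ Fin K → ℕ) → G := fun t =>
    ι (∑ i : Fin m, (t (.inl (.inl i)) • a0 i - t (.inl (.inr i)) • a0 i)) *
      (List.ofFn fun j : Fin K => x j ^ t (.inr j)).prod
  refine ev_def' (fun u => h.sub (LinearMap.range (T u))) ?_ ?_ π ?_ ?_ hK x
  · refine (DP.ex (P := fun (p : (Fin K → ℕ) × G) (y : Fin K → A) =>
      ι (∑ j : Fin K, (of ℤ B (φ (x j)) • y j - p.1 j • y j)) = p.2) (DP.eq (hι.comp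
        (df_sum hadd _ fun j => df_sub hadd (DF.comp2 (h := fun (b : B) (a : A) => of ℤ B b • a)
          hact (DF.const _) (DF.snd0.eval j)) (hn' (DF.fst0.fst.eval j) (DF.snd0.eval j))))
            DF.fst0.snd)).congr fun p => ?_
    have e : ∀ y, T p.1 y = ∑ j : Fin K, (of ℤ B (φ (x j)) • y j - p.1 j • y j) := fun y => by
      simp only [hTa, sub_smul, Nat.cast_smul_eq_nsmul]
    exact ⟨fun ⟨y, hy⟩ => ⟨_, ⟨y, e y⟩, hy⟩, fun ⟨_, ⟨y, e'⟩, hy⟩ => ⟨y, by rw [← e, e', hy]⟩⟩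
  · intro g hg
    obtain ⟨a, -, rfl⟩ := hg 0
    rw [h.eq_one]
    by_contra ha
    obtain ⟨q, hq, ψ, l, h1⟩ := sep hT ha
    have := NeZero.mk hq
    obtain ⟨_, ⟨y, rfl⟩, e⟩ := hg fun j => (ψ (of ℤ B (φ (x j)))).val
    apply h1
    rw [← h.inj e, hTa, map_sum, map_sum]
    refine Finset.sum_eq_zero fun j _ => ?_
    rw [map_smul, smul_eq_mul, map_mul, _root_.map_sub, map_natCast, ZMod.natCast_zmod_val,
      sub_self, zero_mul]
  · exact (hι.comp (df_sum hadd _ fun i => df_sub hadd (hn' (DF.eval0 _) (DF.const _))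
      (hn' (DF.eval0 _) (DF.const _)))).gmul (DF.gprod fun j => (hpow _).comp (DF.eval0 _))
  · intro u g
    have c1 : ∀ n, ∃ t : Fin K → ℕ, φ (ev K x n) = ∏ j : Fin K, φ (x j) ^ t j := by
      intro n
      induction n using code_ind hK with
      | h0 => exact ⟨0, by simp [ev_zero]⟩
      | h1 c i hi ih =>
        obtain ⟨t, ht⟩ := ih
        refine ⟨t + Pi.single ⟨i, hi⟩ 1, ?_⟩
        simp only [Pi.add_apply, pow_add, Finset.prod_mul_distrib]
        rw [ev_step hK _ _ _ hi, map_mul, ht]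
        congr 1
        rw [Finset.prod_eq_single ⟨i, hi⟩]
        · simp
        · intro j _ hj
          simp [hj]
        · simp
    have c2 : ∀ r : MonoidAlgebra ℤ B, ∃ z : ℤ, ∀ a, z • a - r • a ∈ LinearMap.range (T u) := by
      intro r
      induction r using MonoidAlgebra.induction_on with
      | of b =>
        obtain ⟨g, rfl⟩ := h.surj b
        obtain ⟨n, rfl⟩ := hx g
        induction n using code_ind hK with
        | h0 => exact ⟨1, fun a => by simp [ev_zero, ← one_def]⟩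
        | h1 c i hi ih =>
          obtain ⟨z, hz⟩ := ih
          refine ⟨z * u ⟨i, hi⟩, fun a => ?_⟩
          have h1 : (of ℤ B (φ (x i)) - (u ⟨i, hi⟩ : MonoidAlgebra ℤ B)) • a ∈
              LinearMap.range (T u) := by
            refine ⟨Pi.single ⟨i, hi⟩ a, ?_⟩
            rw [hTa, Finset.sum_eq_single ⟨i, hi⟩]
            · simp
            · intro j _ hj
              simp [hj]
            · simp
          have h2 := Submodule.sub_mem _ (hz (of ℤ B (φ (x i)) • a))
            (Submodule.smul_mem _ (z : MonoidAlgebra ℤ B) h1)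
          rw [ev_step hK _ _ _ hi, map_mul, map_mul]
          convert h2 using 1
          rw [mul_smul, mul_smul, sub_smul, smul_sub, Int.cast_smul_eq_zsmul,
            Int.cast_smul_eq_zsmul, natCast_zsmul, Nat.cast_smul_eq_nsmul]
          abel
      | add r s hr hs =>
        obtain ⟨z, hz⟩ := hr
        obtain ⟨w, hw⟩ := hs
        refine ⟨z + w, fun a => ?_⟩
        convert Submodule.add_mem _ (hz a) (hw a) using 1
        rw [add_smul, add_smul]
        abel
      | smul k r hr =>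
        obtain ⟨z, hz⟩ := hr
        refine ⟨k * z, fun a => ?_⟩
        convert Submodule.smul_mem _ (k : MonoidAlgebra ℤ B) (hz a) using 1
        rw [Int.cast_smul_eq_zsmul, smul_sub, mul_smul, smul_assoc]
    choose z hz using c2
    obtain ⟨n, rfl⟩ := hx g
    obtain ⟨t, ht⟩ := c1 n
    obtain ⟨a, ha⟩ := (h.ker (ev K x n * ((List.ofFn fun j : Fin K => x j ^ t j).prod)⁻¹)).1 (by
      rw [map_mul, map_inv, mul_inv_eq_one, ht, map_list_prod, List.map_ofFn, List.prod_ofFn]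
      simp)
    obtain ⟨r, rfl⟩ := (Submodule.mem_span_range_iff_exists_fun (MonoidAlgebra ℤ B)).1
      (show a ∈ Submodule.span _ (Set.range a0) by rw [ha0]; trivial)
    refine ⟨Sum.elim (Sum.elim (fun i => (z (r i)).toNat) fun i => (-z (r i)).toNat) t,
      _, Submodule.sum_mem _ (t := Finset.univ) fun i _ => hz (r i) (a0 i), ?_⟩
    rw [Finset.sum_sub_distrib, h.map_sub, ha]
    simp only [π, Sum.elim_inl, Sum.elim_inr, ← natCast_zsmul, ← sub_smul,
      Int.toNat_sub_toNat_neg]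
    group

end Pool.Agent.H197Z.Bi
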