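import Pool.Agent.H197Z.BiExt

/-!
The Magnus embedding: the derived subgroup of a free metabelian group is a torsion-free module
over the integral group ring of the abelianization.
-/

set_option autoImplicit false
set_option linter.unusedSectionVars false

namespace Pool.Agent.H197Z.Bi

open Pool.Agent.H146Z.BiDefs MonoidAlgebra
open scoped commutatorElement

/-- The split extension of a module by an abelian group. -/
@[ext] structure Aff (B C : Type) where
  b : B
  c : C

section

variable {B C : Type} [CommGroup B] [AddCommGroup C] [Module (MonoidAlgebra ℤ B) C]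

noncomputable instance : Mul (Aff B C) := ⟨fun x y => ⟨x.b * y.b, x.c + of ℤ B x.b • y.c⟩⟩
noncomputable instance : One (Aff B C) := ⟨⟨1, 0⟩⟩
noncomputable instance : Inv (Aff B C) := ⟨fun x => ⟨x.b⁻¹, -(of ℤ B x.b⁻¹ • x.c)⟩⟩

theorem Aff.mul_b (x y : Aff B C) : (x * y).b = x.b * y.b := rfl
theorem Aff.mul_c (x y : Aff B C) : (x * y).c = x.c + of ℤ B x.b • y.c := rfl

noncomputable instance : Group (Aff B C) := Group.ofLeftAxioms
  (fun x y z => Aff.ext (mul_assoc _ _ _) (by
    simp only [Aff.mul_b, Aff.mul_c, map_mul, mul_smul, smul_add, add_assoc]))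
  (fun x => Aff.ext (one_mul _) (by
    change 0 + of ℤ B 1 • x.c = x.c
    rw [map_one, one_smul, zero_add]))
  (fun x => Aff.ext (inv_mul_cancel _) (neg_add_cancel _))

/-- The projection to the abelian group. -/
noncomputable def Aff.hom : Aff B C →* B := MonoidHom.mk' Aff.b fun _ _ => rfl

end

theorem derived_two_le {F H : Type} [Group F] [Group H] (f : F →* H)
    (h : ∀ a b, Abelianization.of a = 1 → Abelianization.of b = 1 → Commute (f a) (f b)) :
    derivedSeries F 2 ≤ f.ker := by
  rw [derivedSeries_succ, derivedSeries_one, Subgroup.commutator_le]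
  intro a ha b hb
  rw [MonoidHom.mem_ker, map_commutatorElement, commutatorElement_eq_one_iff_commute]
  exact h a b ((QuotientGroup.eq_one_iff a).2 ha) ((QuotientGroup.eq_one_iff b).2 hb)

theorem freeMetab_ext (V : Type) : ∃ (B A : Type) (_ : CommGroup B) (_ : AddCommGroup A)
    (_ : Module (MonoidAlgebra ℤ B) A) (φ : FreeMetab V →* B) (ι : A → FreeMetab V),
    IsExt φ ι ∧ ∀ (r : MonoidAlgebra ℤ B) (a : A), r • a = 0 → r = 0 ∨ a = 0 := by
  let B := Abelianization (FreeGroup V)
  have : UniqueProds B := (inferInstance : UniqueProds (Multiplicative (FreeAbelianGroup V)))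
  let π : FreeGroup V →* FreeMetab V := QuotientGroup.mk' (derivedSeries (FreeGroup V) 2)
  have hπ : Function.Surjective π := QuotientGroup.mk_surjective
  let φ : FreeMetab V →* B := QuotientGroup.lift _ Abelianization.of
    (derived_two_le _ fun a b _ _ => Commute.all _ _)
  obtain ⟨A, _, _, ι, h⟩ := exists_isExt φ
    (fun b => by
      obtain ⟨g, rfl⟩ := QuotientGroup.mk_surjective b
      exact ⟨π g, rfl⟩)
    (fun a b ha hb => by
      obtain ⟨a, rfl⟩ := hπ a
      obtain ⟨b, rfl⟩ := hπ b
      have : π ⁅a, b⁆ = 1 := (QuotientGroup.eq_one_iff _).2 (by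
        rw [derivedSeries_succ, derivedSeries_one]
        exact Subgroup.commutator_mem_commutator ((QuotientGroup.eq_one_iff a).1 ha)
          ((QuotientGroup.eq_one_iff b).1 hb))
      rw [map_commutatorElement, commutatorElement_eq_one_iff_mul_comm] at this
      exact this)
  refine ⟨B, A, _, _, _, φ, ι, h, ?_⟩
  let C := V →₀ MonoidAlgebra ℤ B
  let f0 : FreeGroup V →* Aff B C := FreeGroup.lift fun i =>
    ⟨Abelianization.of (FreeGroup.of i), Finsupp.single i 1⟩
  have hb0 : ∀ g, (f0 g).b = Abelianization.of g := fun g =>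
    DFunLike.congr_fun (show Aff.hom.comp f0 = Abelianization.of from
      FreeGroup.ext_hom _ _ fun i => by simp [f0, Aff.hom]) g
  let f : FreeMetab V →* Aff B C := QuotientGroup.lift _ f0 (derived_two_le _ fun a b ha hb =>
    Aff.ext (mul_comm _ _) (by
      simp only [Aff.mul_c, hb0, ha, hb, map_one, one_smul]
      exact add_comm _ _))
  have hb : ∀ g, (f g).b = φ g := fun g => by
    obtain ⟨g, rfl⟩ := hπ g
    exact hb0 g
  have hmul : ∀ g g', (f (g * g')).c = (f g).c + of ℤ B (φ g) • (f g').c := fun g g' => by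
    rw [map_mul, Aff.mul_c, hb]
  have hone : (f 1).c = 0 := by rw [map_one]; rfl
  have hgen : ∀ i, (f (fgen i)).c = Finsupp.single i 1 := fun i => by
    change (f0 (FreeGroup.of i)).c = _
    simp [f0]
  let w : A →+ C := AddMonoidHom.mk' (fun a => (f (ι a)).c) fun a b => by
    simp only [h.map_add, hmul, h.phi, map_one, one_smul]
  have hw : ∀ (r : MonoidAlgebra ℤ B) (a : A), w (r • a) = r • w a := by
    intro r a
    induction r using MonoidAlgebra.induction_on with
    | of b =>
      obtain ⟨g, rfl⟩ := h.surj b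
      change (f (ι _)).c = _ • (f (ι a)).c
      have e := hmul g g⁻¹
      rw [mul_inv_cancel, hone] at e
      rw [h.act, hmul, hmul, map_mul φ, h.phi, mul_one, add_right_comm, ← e, zero_add]
    | add r s hr hs => rw [add_smul, map_add, hr, hs, add_smul]
    | smul z r hr => rw [smul_assoc, map_zsmul, hr, smul_assoc]
  choose s hs using h.surj
  have hg : ∀ (b : B) (i : V), ∃ a, ι a = s b * fgen i * (s (b * φ (fgen i)))⁻¹ := fun b i =>
    (h.ker _).1 (by simp [hs])
  choose g hg using hg
  let ρ : C →+ A := Finsupp.liftAddHom fun i =>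
    (Finsupp.linearCombination ℤ fun b => g b i).toAddMonoidHom.comp coeffAddEquiv.toAddMonoidHom
  have hρ : ∀ b i, ρ (of ℤ B b • Finsupp.single i 1) = g b i := fun b i => by
    rw [Finsupp.smul_single, smul_eq_mul, mul_one]
    refine (Finsupp.liftAddHom_apply_single _ _ _).trans ?_
    simp
  have step : ∀ m i, ι (ρ (f (m * fgen i)).c) =
      ι (ρ (f m).c) * (s (φ m) * fgen i * (s (φ (m * fgen i)))⁻¹) := fun m i => by
    rw [hmul, hgen, map_add, hρ, h.map_add, hg, map_mul φ]
  have key : ∀ m, ι (ρ (f m).c) = s 1 * m * (s (φ m))⁻¹ := by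
    intro m
    have hm : m ∈ Subgroup.closure (Set.range (fgen : V → FreeMetab V)) := by
      have : Set.range (fgen : V → FreeMetab V) = π '' Set.range FreeGroup.of := by
        rw [← Set.range_comp]
        rfl
      rw [this, ← MonoidHom.map_closure, FreeGroup.closure_range_of,
        Subgroup.map_top_of_surjective _ hπ]
      trivial
    induction hm using Subgroup.closure_induction_right with
    | one => rw [hone, map_zero, h.map_zero, map_one, mul_one, mul_inv_cancel]
    | mul_right m _ y hy ih =>
      obtain ⟨i, rfl⟩ := hy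
      rw [step, ih]
      group
    | mul_inv_cancel m _ y hy ih =>
      obtain ⟨i, rfl⟩ := hy
      have e := step (m * (fgen i)⁻¹) i
      rw [inv_mul_cancel_right, ih] at e
      rw [eq_mul_inv_of_mul_eq e.symm]
      group
  intro r a e
  have e1 : r • w a = 0 := by rw [← hw, e, map_zero]
  refine (smul_eq_zero.1 e1).imp_right fun e2 => ?_
  have e3 := key (ι a)
  change (f (ι a)).c = 0 at e2
  rw [e2, map_zero, h.map_zero, h.phi, eq_comm, mul_inv_eq_one, mul_eq_left] at e3
  exact h.eq_one.1 e3

end Pool.Agent.H197Z.Bi
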