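import Mathlib

/-!
Extensions of a module over a group ring by an abelian group; finite normal generation of normal
subgroups in finitely generated metabelian groups.
-/

set_option autoImplicit false
set_option linter.unusedSectionVars false

namespace Pool.Agent.H197Z.Bi

open MonoidAlgebra

/-- `G` is an extension of the `ℤ[B]`-module `A` by `B`, the action being conjugation. -/
structure IsExt {G B A : Type} [Group G] [CommGroup B] [AddCommGroup A]
    [Module (MonoidAlgebra ℤ B) A] (φ : G →* B) (ι : A → G) : Prop where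
  surj : Function.Surjective φ
  inj : Function.Injective ι
  map_add : ∀ a b, ι (a + b) = ι a * ι b
  ker : ∀ g, φ g = 1 ↔ ∃ a, ι a = g
  act : ∀ g a, ι (of ℤ B (φ g) • a) = g * ι a * g⁻¹

theorem exists_isExt {G B : Type} [Group G] [CommGroup B] (φ : G →* B)
    (hs : Function.Surjective φ) (hc : ∀ a b, φ a = 1 → φ b = 1 → a * b = b * a) :
    ∃ (A : Type) (_ : AddCommGroup A) (_ : Module (MonoidAlgebra ℤ B) A) (ι : A → G),
      IsExt φ ι := by
  let _ : CommGroup φ.ker :=
    { (inferInstance : Group φ.ker) with mul_comm := fun a b => Subtype.ext (hc _ _ a.2 b.2) }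
  let ι : Additive φ.ker → G := fun a => (Additive.toMul a : φ.ker)
  have hι : Function.Injective ι := fun a b h => Subtype.ext h
  have hk : ∀ a, φ (ι a) = 1 := fun a => (Additive.toMul a).2
  let cj : G → Additive φ.ker →+ Additive φ.ker := fun g => AddMonoidHom.mk'
    (fun a => Additive.ofMul ⟨g * ι a * g⁻¹, by simp [MonoidHom.mem_ker, hk]⟩)
    (fun a b => hι (by
      change g * (ι a * ι b) * g⁻¹ = g * ι a * g⁻¹ * (g * ι b * g⁻¹)
      group))
  have hcj : ∀ g a, ι (cj g a) = g * ι a * g⁻¹ := fun g a => rfl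
  have key : ∀ g g' a, φ g = φ g' → g * ι a * g⁻¹ = g' * ι a * g'⁻¹ := by
    intro g g' a h
    have := hc (g'⁻¹ * g) (ι a) (by simp [h]) (hk a)
    calc g * ι a * g⁻¹ = g' * (g'⁻¹ * g * ι a) * g⁻¹ := by group
      _ = g' * ι a * g'⁻¹ := by rw [this]; group
  choose s hs' using hs
  let ρ : B →* Module.End ℤ (Additive φ.ker) :=
    { toFun := fun b => (cj (s b)).toIntLinearMap
      map_one' := LinearMap.ext fun a => hι (by
        change s 1 * ι a * (s 1)⁻¹ = ι a
        rw [key (s 1) 1 a (by simp [hs'])]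
        simp)
      map_mul' := fun b b' => LinearMap.ext fun a => hι (by
        change s (b * b') * ι a * (s (b * b'))⁻¹ = s b * (s b' * ι a * (s b')⁻¹) * (s b)⁻¹
        rw [key (s (b * b')) (s b * s b') a (by simp [hs'])]
        group) }
  let _ : Module (MonoidAlgebra ℤ B) (Additive φ.ker) :=
    Module.compHom _ (MonoidAlgebra.lift ℤ (Module.End ℤ (Additive φ.ker)) B ρ).toRingHom
  refine ⟨Additive φ.ker, inferInstance, inferInstance, ι, fun b => ⟨s b, hs' b⟩, hι,
    fun _ _ => rfl, fun g => ⟨fun h => ⟨Additive.ofMul ⟨g, h⟩, rfl⟩, ?_⟩, fun g a => ?_⟩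
  · rintro ⟨a, rfl⟩
    exact hk a
  · change ι (MonoidAlgebra.lift ℤ (Module.End ℤ (Additive φ.ker)) B ρ (of ℤ B (φ g)) a) = _
    rw [MonoidAlgebra.lift_of]
    exact key (s (φ g)) g a (hs' _)

theorem comm_le {G : Type} [Group G] {S : Set G} (hS : Subgroup.closure S = ⊤) (N : Subgroup G)
    [N.Normal] (h : ∀ s ∈ S, ∀ t ∈ S, s * t * s⁻¹ * t⁻¹ ∈ N) (a b : G) :
    a * b * a⁻¹ * b⁻¹ ∈ N := by
  have h1 : Subgroup.closure (QuotientGroup.mk' N '' S) = ⊤ := by
    rw [← MonoidHom.map_closure, hS]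
    exact Subgroup.map_top_of_surjective _ (QuotientGroup.mk'_surjective N)
  have h2 := Subgroup.isMulCommutative_closure (k := QuotientGroup.mk' N '' S) (by
    rintro _ ⟨s, hs, rfl⟩ _ ⟨t, ht, rfl⟩
    have := (QuotientGroup.eq_one_iff _).2 (h s hs t ht)
    change QuotientGroup.mk' N _ = 1 at this
    simp only [map_mul, map_inv] at this
    rw [mul_inv_eq_one, mul_inv_eq_iff_eq_mul] at this
    exact this)
  have h3 : QuotientGroup.mk' N a * QuotientGroup.mk' N b =
      QuotientGroup.mk' N b * QuotientGroup.mk' N a :=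
    setLike_mul_comm (s := Subgroup.closure (QuotientGroup.mk' N '' S))
      (by rw [h1]; trivial) (by rw [h1]; trivial)
  rw [← QuotientGroup.eq_one_iff]
  change QuotientGroup.mk' N _ = 1
  simp only [map_mul, map_inv]
  rw [h3]
  group

theorem fg_of_comm {C : Type} [CommGroup C] [Group.FG C] (P : Subgroup C) : P.FG := by
  have : Module.Finite ℤ (Additive C) := Module.Finite.iff_addGroup_fg.2 inferInstance
  have h := IsNoetherian.noetherian (R := ℤ) (AddSubgroup.toIntSubmodule P.toAddSubgroup)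
  rw [Subgroup.fg_iff_add_fg]
  exact (Submodule.fg_iff_addSubgroup_fg _).1 h

theorem exists_fin_image {G C : Type} [Group G] [CommGroup C] [Group.FG C] (ψ : G →* C)
    (N : Subgroup G) : ∃ S : Set G, S.Finite ∧ S ⊆ N ∧
      ∀ n ∈ N, ∃ n' ∈ Subgroup.closure S, ψ n' = ψ n := by
  obtain ⟨T, hT, hf⟩ := (Subgroup.fg_iff _).1 (fg_of_comm (N.map ψ))
  have : ∀ t : T, ∃ n ∈ N, ψ n = t := fun t => by
    have : (t : C) ∈ N.map ψ := hT ▸ Subgroup.subset_closure t.2
    exact this
  choose n hn hn' using this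
  have := hf.to_subtype
  refine ⟨Set.range n, Set.finite_range n, Set.range_subset_iff.2 hn, fun m hm => ?_⟩
  have h1 : ψ m ∈ (Subgroup.closure (Set.range n)).map ψ := by
    rw [MonoidHom.map_closure]
    have : T ⊆ ψ '' Set.range n := fun t ht => ⟨n ⟨t, ht⟩, ⟨_, rfl⟩, hn' _⟩
    refine Subgroup.closure_mono this ?_
    rw [hT]
    exact ⟨m, hm, rfl⟩
  exact h1

theorem ker_fin {G B : Type} [Group G] [Group.FG G] [CommGroup B] (φ : G →* B) :
    ∃ S : Set G, S.Finite ∧ (∀ s ∈ S, φ s = 1) ∧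
      ∀ N : Subgroup G, N.Normal → S ⊆ N → ∀ g, φ g = 1 → g ∈ N := by
  obtain ⟨T, hT, hf⟩ := Group.fg_iff.1 ‹Group.FG G›
  have : Group.FG (Abelianization G) :=
    Group.fg_of_surjective (f := Abelianization.of) QuotientGroup.mk_surjective
  obtain ⟨S, h1, h2, h3⟩ := exists_fin_image (Abelianization.of (G := G)) φ.ker
  refine ⟨S ∪ Set.image2 (fun s t => s * t * s⁻¹ * t⁻¹) T T, h1.union (hf.image2 _ hf), ?_, ?_⟩
  · rintro s (hs | ⟨a, -, b, -, rfl⟩)
    · exact h2 hs
    · simp [mul_comm (φ a) (φ b)]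
  · intro N _ hN g hg
    obtain ⟨n, hn, e⟩ := h3 g hg
    have hn' : n ∈ N := (Subgroup.closure_le N).2 (Set.subset_union_left.trans hN) hn
    have hc : commutator G ≤ N := by
      rw [commutator_def, Subgroup.commutator_le]
      intro a _ b _
      exact comm_le hT N (fun s hs t ht => hN (Or.inr ⟨s, hs, t, ht, rfl⟩)) a b
    have : n⁻¹ * g ∈ commutator G := QuotientGroup.eq.1 e
    simpa using N.mul_mem hn' (hc this)

section

variable {G B A : Type} [Group G] [CommGroup B] [AddCommGroup A]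
  [Module (MonoidAlgebra ℤ B) A] {φ : G →* B} {ι : A → G} (h : IsExt φ ι)

include h

theorem IsExt.map_zero : ι 0 = 1 := by
  have := h.map_add 0 0
  simpa using this

theorem IsExt.map_neg (a : A) : ι (-a) = (ι a)⁻¹ := by
  rw [eq_inv_iff_mul_eq_one, ← h.map_add, neg_add_cancel, h.map_zero]

theorem IsExt.map_sub (a b : A) : ι (a - b) = ι a * (ι b)⁻¹ := by
  rw [sub_eq_add_neg, h.map_add, h.map_neg]

theorem IsExt.map_nsmul (a : A) (n : ℕ) : ι (n • a) = ι a ^ n := by
  induction n with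
  | zero => simpa using h.map_zero
  | succ n ih => rw [succ_nsmul, h.map_add, ih, pow_succ]

theorem IsExt.map_zsmul (a : A) (n : ℤ) : ι (n • a) = ι a ^ n := by
  obtain ⟨m, rfl | rfl⟩ := n.eq_nat_or_neg
  · simpa using h.map_nsmul a m
  · simpa [h.map_neg] using h.map_nsmul a m

theorem IsExt.eq_one {a : A} : ι a = 1 ↔ a = 0 :=
  ⟨fun e => h.inj (e.trans h.map_zero.symm), fun e => e ▸ h.map_zero⟩

theorem IsExt.phi (a : A) : φ (ι a) = 1 := (h.ker _).2 ⟨a, rfl⟩

/-- The subgroup given by a submodule. -/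
def IsExt.sub (U : Submodule (MonoidAlgebra ℤ B) A) : Subgroup G where
  carrier := {g | ∃ a ∈ U, ι a = g}
  mul_mem' := by
    rintro _ _ ⟨a, ha, rfl⟩ ⟨b, hb, rfl⟩
    exact ⟨a + b, U.add_mem ha hb, h.map_add a b⟩
  one_mem' := ⟨0, U.zero_mem, h.map_zero⟩
  inv_mem' := by
    rintro _ ⟨a, ha, rfl⟩
    exact ⟨-a, U.neg_mem ha, h.map_neg a⟩

theorem IsExt.sub_normal (U : Submodule (MonoidAlgebra ℤ B) A) : (h.sub U).Normal :=
  ⟨by
    rintro _ ⟨a, ha, rfl⟩ g
    exact ⟨_, U.smul_mem _ ha, h.act g a⟩⟩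

/-- The submodule given by a normal subgroup. -/
def IsExt.mod (N : Subgroup G) (hN : N.Normal) : Submodule (MonoidAlgebra ℤ B) A where
  carrier := {a | ι a ∈ N}
  add_mem' := fun {a b} ha hb => by
    change ι (a + b) ∈ N
    rw [h.map_add]
    exact N.mul_mem ha hb
  zero_mem' := by
    change ι 0 ∈ N
    rw [h.map_zero]
    exact N.one_mem
  smul_mem' := fun r a ha => by
    change ι (r • a) ∈ N
    induction r using MonoidAlgebra.induction_on with
    | of b =>
      obtain ⟨g, rfl⟩ := h.surj b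
      rw [h.act]
      exact hN.conj_mem _ ha g
    | add r s hr hs =>
      rw [add_smul, h.map_add]
      exact N.mul_mem hr hs
    | smul z r hr =>
      rw [smul_assoc, h.map_zsmul]
      exact N.zpow_mem hr z

theorem IsExt.finite [Group.FG G] : Module.Finite (MonoidAlgebra ℤ B) A := by
  obtain ⟨S, h1, h2, h3⟩ := ker_fin φ
  refine ⟨Submodule.fg_def.2 ⟨ι ⁻¹' S, h1.preimage h.inj.injOn, ?_⟩⟩
  rw [eq_top_iff]
  intro a _
  obtain ⟨b, hb, e⟩ := h3 (h.sub (Submodule.span _ (ι ⁻¹' S))) (h.sub_normal _) (fun s hs => by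
    obtain ⟨c, rfl⟩ := (h.ker s).1 (h2 s hs)
    exact ⟨c, Submodule.subset_span hs, rfl⟩) (ι a) (h.phi a)
  rwa [← h.inj e]

theorem IsExt.hall [Group.FG G] (N : Subgroup G) (hN : N.Normal) :
    ∃ S : Set G, S.Finite ∧ S ⊆ N ∧ ∀ N' : Subgroup G, N'.Normal → S ⊆ N' → N ≤ N' := by
  have : Group.FG B := Group.fg_of_surjective h.surj
  have := Algebra.FiniteType.isNoetherianRing ℤ (MonoidAlgebra ℤ B)
  have := h.finite
  obtain ⟨T, hT, hT'⟩ := Submodule.fg_def.1 (IsNoetherian.noetherian (h.mod N hN))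
  obtain ⟨S, h1, h2, h3⟩ := exists_fin_image φ N
  refine ⟨S ∪ ι '' T, h1.union (hT.image _), ?_, fun N' hN' hS n hn => ?_⟩
  · rintro s (hs | ⟨a, ha, rfl⟩)
    · exact h2 hs
    · have : a ∈ h.mod N hN := hT' ▸ Submodule.subset_span ha
      exact this
  · obtain ⟨m, hm, e⟩ := h3 n hn
    have a1 : m ∈ N := (Subgroup.closure_le N).2 h2 hm
    have a2 : m ∈ N' := (Subgroup.closure_le N').2 (Set.subset_union_left.trans hS) hm
    obtain ⟨a, ha⟩ := (h.ker (m⁻¹ * n)).1 (by simp [e])
    have a3 : a ∈ h.mod N hN := by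
      change ι a ∈ N
      rw [ha]
      exact N.mul_mem (N.inv_mem a1) hn
    have a4 : h.mod N hN ≤ h.mod N' hN' := by
      rw [← hT', Submodule.span_le]
      exact fun t ht => hS (Or.inr ⟨t, ht, rfl⟩)
    have a5 : ι a ∈ N' := a4 a3
    rw [ha] at a5
    simpa using N'.mul_mem a2 a5

end

/-- Normal subgroups of a finitely generated metabelian group are finitely normally generated. -/
theorem hall {G : Type} [Group G] [Group.FG G]
    (hm : ∀ a b c d : G, Commute (a * b * a⁻¹ * b⁻¹) (c * d * c⁻¹ * d⁻¹))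
    (N : Subgroup G) (hN : N.Normal) :
    ∃ S : Set G, S.Finite ∧ S ⊆ N ∧ ∀ N' : Subgroup G, N'.Normal → S ⊆ N' → N ≤ N' := by
  have hc : IsMulCommutative (commutator G) := by
    rw [commutator_eq_closure]
    apply Subgroup.isMulCommutative_closure
    rintro _ ⟨a, b, rfl⟩ _ ⟨c, d, rfl⟩
    exact hm a b c d
  obtain ⟨A, _, _, ι, h⟩ := exists_isExt (Abelianization.of (G := G)) QuotientGroup.mk_surjective
    (fun a b ha hb => setLike_mul_comm (s := commutator G) ((QuotientGroup.eq_one_iff a).1 ha)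
      ((QuotientGroup.eq_one_iff b).1 hb))
  exact h.hall N hN

end Pool.Agent.H197Z.Bi
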