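import Pool.Agent.H197Z.BiMagnus

/-!
Transfer of the module structure along universal equivalence with a free metabelian group.
-/

set_option autoImplicit false
set_option linter.unusedSectionVars false

namespace Pool.Agent.H197Z.Bi

open FirstOrder FirstOrder.Language Pool.Agent.H146Z.BiDefs MonoidAlgebra

/-- Two groups are universally equivalent if they satisfy the same universal sentences of the
language of groups. -/
def UnivEquiv (G H : Type) [Group G] [Group H] : Prop :=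
  ∀ φ : Lgrp.Sentence, BoundedFormula.IsUniversal φ → (G ⊨ φ ↔ H ⊨ φ)

theorem exists_term {n : ℕ} (w : FreeGroup (Fin n)) : ∃ t : Lgrp.Term (Empty ⊕ Fin n),
    ∀ (H : Type) [Group H] (e : Empty → H) (v : Fin n → H),
      t.realize (Sum.elim e v) = FreeGroup.lift v w := by
  induction w using FreeGroup.induction_on with
  | C1 => exact ⟨Term.func GrpFunc.one ![], fun H _ e v => by rw [map_one]; rfl⟩
  | of i => exact ⟨Term.var (Sum.inr i), fun H _ e v => by simp⟩
  | inv_of i _ =>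
    exact ⟨Term.func GrpFunc.inv ![Term.var (Sum.inr i)], fun H _ e v => by
      rw [map_inv, FreeGroup.lift_apply_of]; rfl⟩
  | mul a b ha hb =>
    obtain ⟨s, hs⟩ := ha
    obtain ⟨t, ht⟩ := hb
    exact ⟨Term.func GrpFunc.mul ![s, t], fun H _ e v => by
      rw [map_mul, ← hs H e v, ← ht H e v]; rfl⟩

theorem exists_qf {n : ℕ} (p : FreeGroup (Fin n) × FreeGroup (Fin n) → Prop)
    {T : Set (FreeGroup (Fin n) × FreeGroup (Fin n))} (hT : T.Finite) :
    ∃ ψ : Lgrp.BoundedFormula Empty n, ψ.IsQF ∧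
      ∀ (H : Type) [Group H] (e : Empty → H) (v : Fin n → H),
        ψ.Realize e v ↔ ∀ q ∈ T, (p q ↔ FreeGroup.lift v q.1 = FreeGroup.lift v q.2) := by
  induction T, hT using Set.Finite.induction_on with
  | empty => exact ⟨⊤, BoundedFormula.IsQF.top, fun H _ e v => by simp⟩
  | @insert q T _ _ ih =>
    obtain ⟨ψ, h1, h2⟩ := ih
    obtain ⟨s, hs⟩ := exists_term q.1
    obtain ⟨t, ht⟩ := exists_term q.2
    have h3 : (s.bdEqual t).IsQF := (BoundedFormula.IsAtomic.equal s t).isQF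
    by_cases h : p q
    · exact ⟨s.bdEqual t ⊓ ψ, h3.inf h1, fun H _ e v => by simp [h2, hs, ht, h]⟩
    · exact ⟨(s.bdEqual t).not ⊓ ψ, h3.not.inf h1, fun H _ e v => by simp [h2, hs, ht, h]⟩

theorem isUniversal_alls {n : ℕ} {ψ : Lgrp.BoundedFormula Empty n} (h : ψ.IsUniversal) :
    BoundedFormula.IsUniversal ψ.alls := by
  induction n with
  | zero => exact h
  | succ n ih => exact ih h.all

theorem UnivEquiv.loc {G H : Type} [Group G] [Group H] (h : UnivEquiv G H) {n : ℕ}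
    (f : FreeGroup (Fin n) →* G) {T : Set (FreeGroup (Fin n) × FreeGroup (Fin n))}
    (hT : T.Finite) : ∃ f' : FreeGroup (Fin n) →* H,
      ∀ q ∈ T, (f q.1 = f q.2 ↔ f' q.1 = f' q.2) := by
  obtain ⟨v, rfl⟩ := FreeGroup.lift.surjective f
  obtain ⟨ψ, h1, h2⟩ := exists_qf (fun q => FreeGroup.lift v q.1 = FreeGroup.lift v q.2) hT
  by_contra hc
  have h3 : H ⊨ ψ.not.alls := BoundedFormula.realize_alls.2 fun w hw =>
    hc ⟨FreeGroup.lift w, (h2 H _ w).1 hw⟩
  exact BoundedFormula.realize_alls.1 ((h _ (isUniversal_alls h1.not.isUniversal)).2 h3) v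
    ((h2 G _ v).2 fun _ _ => Iff.rfl)

theorem sum_of_ne_zero {κ B : Type} [CommGroup B] (s : Finset κ) (z : κ → ℤ) (y : κ → B)
    (hy : ∀ k ∈ s, ∀ k' ∈ s, y k = y k' → k = k') {k : κ} (hk : k ∈ s) (hz : z k ≠ 0) :
    ∑ i ∈ s, z i • of ℤ B (y i) ≠ 0 := fun h => by
  classical
  have h2 := congrArg (fun f : MonoidAlgebra ℤ B => f.coeff (y k)) h
  simp only [coeff_sum, Finsupp.finsetSum_apply, coeff_smul_apply, of_apply, coeff_single] at h2
  rw [Finset.sum_eq_single k] at h2
  · exact hz (by simpa using h2)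
  · intro i hi hik
    rw [Finsupp.single_eq_of_ne fun e => hik (hy i hi k hk e.symm), smul_zero]
  · exact fun h3 => absurd hk h3

theorem IsExt.eval_list {G B A F κ : Type} [Group G] [CommGroup B] [AddCommGroup A] [Group F]
    [Module (MonoidAlgebra ℤ B) A] {φ : G →* B} {ι : A → G} (h : IsExt φ ι) (f : F →* G)
    (W : κ → F) (z : κ → ℤ) {w : F} {a : A} (e : ι a = f w) (l : List κ) :
    f (l.map fun k => (W k * w * (W k)⁻¹) ^ z k).prod =
      ι ((l.map fun k => z k • of ℤ B (φ (f (W k)))).sum • a) := by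
  induction l with
  | nil => simp [h.map_zero]
  | cons k l ih =>
    rw [List.map_cons, List.prod_cons, map_mul, ih, List.map_cons, List.sum_cons, add_smul,
      h.map_add, smul_assoc, h.map_zsmul, h.act, e]
    simp

theorem biInterp_of_univEquiv {G V : Type} [Group G] [Group.FG G]
    (hna : ∃ a b : G, a * b ≠ b * a) (hU : UnivEquiv G (FreeMetab V)) :
    BiInterp Lgrp Lar G ℕ := by
  classical
  obtain ⟨B', A', _, _, _, φ', ι', h', hT'⟩ := freeMetab_ext V
  obtain ⟨n, f, hf⟩ : ∃ (n : ℕ) (f : FreeGroup (Fin n) →* G), Function.Surjective f := by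
    obtain ⟨S, hS, hfin⟩ := Group.fg_iff.1 ‹Group.FG G›
    obtain ⟨n, v, -, hv⟩ := hfin.fin_param
    refine ⟨n, FreeGroup.lift v, ?_⟩
    rw [← MonoidHom.range_eq_top, FreeGroup.range_lift_eq_closure, hv, hS]
  have hm : ∀ a b c d : G, Commute (a * b * a⁻¹ * b⁻¹) (c * d * c⁻¹ * d⁻¹) := by
    intro a b c d
    obtain ⟨a, rfl⟩ := hf a
    obtain ⟨b, rfl⟩ := hf b
    obtain ⟨c, rfl⟩ := hf c
    obtain ⟨d, rfl⟩ := hf d
    obtain ⟨f', e⟩ := hU.loc f (Set.finite_singleton
      (a * b * a⁻¹ * b⁻¹ * (c * d * c⁻¹ * d⁻¹), c * d * c⁻¹ * d⁻¹ * (a * b * a⁻¹ * b⁻¹)))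
    have := e _ rfl
    simp only [map_mul, map_inv] at this
    exact this.2 (h'.metab _ _ _ _)
  obtain ⟨x, y, hxy⟩ := hna
  obtain ⟨x, rfl⟩ := hf x
  obtain ⟨y, rfl⟩ := hf y
  let c := x * y * x⁻¹ * y⁻¹
  have hc : f c ≠ 1 := fun e => hxy (by
    simp only [c, map_mul, map_inv] at e
    rwa [mul_inv_eq_one, mul_inv_eq_iff_eq_mul] at e)
  let Z : Subgroup G := Subgroup.centralizer {f c}
  have hZ : ∀ g, g ∈ Z ↔ g * f c = f c * g := fun g => Subgroup.mem_centralizer_singleton_iff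
  have hcZ : ∀ a b : G, a * b * a⁻¹ * b⁻¹ ∈ Z := fun a b => (hZ _).2 (by
    simp only [c, map_mul, map_inv]
    exact hm _ _ _ _)
  have : Z.Normal := ⟨fun z hz g => by
    have := Z.mul_mem (hcZ g z) hz
    rwa [inv_mul_cancel_right] at this⟩
  let _ : CommGroup (G ⧸ Z) :=
    { (inferInstance : Group (G ⧸ Z)) with
      mul_comm := fun a b => by
        obtain ⟨a, rfl⟩ := QuotientGroup.mk_surjective a
        obtain ⟨b, rfl⟩ := QuotientGroup.mk_surjective b
        refine QuotientGroup.eq.2 ?_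
        have := hcZ b⁻¹ a⁻¹
        convert this using 1
        group }
  let φ : G →* G ⧸ Z := QuotientGroup.mk' Z
  have hφ : ∀ g, φ g = 1 ↔ g * f c = f c * g := fun g =>
    (QuotientGroup.eq_one_iff g).trans (hZ g)
  have tr : ∀ f' : FreeGroup (Fin n) →* FreeMetab V, (f c = f 1 ↔ f' c = f' 1) →
      ∀ w, (f (w * c) = f (c * w) ↔ f' (w * c) = f' (c * w)) →
        (φ (f w) = 1 ↔ φ' (f' w) = 1) := by
    intro f' e1 w e2
    rw [map_one, map_one] at e1
    rw [map_mul f w c, map_mul f c w, map_mul f' w c, map_mul f' c w, ← hφ] at e2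
    obtain ⟨a, ha⟩ := (h'.ker (f' c)).1 (by simp [c, mul_comm (φ' (f' x)) (φ' (f' y))])
    rw [e2, ← ha]
    constructor
    · intro e
      exact (h'.of_comm hT' e).resolve_right fun e' => hc (e1.2 (by rw [← ha, e', h'.map_zero]))
    · intro e
      obtain ⟨b, hb⟩ := (h'.ker _).1 e
      rw [← hb]
      exact h'.comm b a
  have hker : ∀ a b : G, φ a = 1 → φ b = 1 → a * b = b * a := by
    intro a b ha hb
    obtain ⟨a, rfl⟩ := hf a
    obtain ⟨b, rfl⟩ := hf b
    obtain ⟨f', e⟩ := hU.loc f (T := {(c, 1), (a * c, c * a), (b * c, c * b), (a * b, b * a)})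
      (Set.toFinite _)
    obtain ⟨u, hu⟩ := (h'.ker _).1 ((tr f' (e (c, 1) (by simp)) a
      (e (a * c, c * a) (by simp))).1 ha)
    obtain ⟨v, hv⟩ := (h'.ker _).1 ((tr f' (e (c, 1) (by simp)) b
      (e (b * c, c * b) (by simp))).1 hb)
    have := e (a * b, b * a) (by simp)
    simp only [map_mul] at this
    rw [this, ← hu, ← hv]
    exact h'.comm u v
  obtain ⟨A, _, _, ι, h⟩ := exists_isExt φ QuotientGroup.mk_surjective hker
  have : Nontrivial A := by
    obtain ⟨a, ha⟩ := (h.ker (f c)).1 ((hφ _).2 rfl)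
    exact ⟨a, 0, fun e => hc (by rw [← ha, e, h.map_zero])⟩
  have : Nontrivial (G ⧸ Z) := by
    by_contra hn
    have := not_nontrivial_iff_subsingleton.1 hn
    exact hxy (hker _ _ (Subsingleton.elim _ _) (Subsingleton.elim _ _))
  refine h.biInterp fun r a hra => ?_
  by_contra hne
  obtain ⟨hr, ha⟩ := not_or.1 hne
  choose W hW using h.surj.comp hf
  obtain ⟨w, hw⟩ := hf (ι a)
  let P := (r.coeff.support.toList.map fun k => (W k * w * (W k)⁻¹) ^ r.coeff k).prod
  obtain ⟨f', e⟩ := hU.loc f (T := {(c, 1), (w * c, c * w), (w, 1), (P, 1)} ∪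
    Set.image2 (fun k k' => (W k * (W k')⁻¹ * c, c * (W k * (W k')⁻¹))) r.coeff.support
      r.coeff.support) ((Set.toFinite _).union (Set.toFinite _))
  have e0 := e (c, 1) (by simp)
  obtain ⟨a', ha'⟩ := (h'.ker _).1 ((tr f' e0 w (e (w * c, c * w) (by simp))).1
    (by rw [hw, h.phi]))
  have e1 : f P = f 1 := by
    rw [h.eval_list f W r.coeff hw.symm, Finset.sum_map_toList, map_one, h.eq_one, ← hra]
    congr 1
    conv_rhs => rw [← r.sum_coeff_single]
    refine Finset.sum_congr rfl fun k _ => ?_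
    rw [show φ (f (W k)) = k from hW k]
    simp
  have e2 := (e (P, 1) (by simp)).1 e1
  rw [h'.eval_list f' W r.coeff ha', Finset.sum_map_toList, map_one, h'.eq_one] at e2
  obtain ⟨k, hk⟩ : ∃ k, r.coeff k ≠ 0 := by
    by_contra hh
    exact hr (coeff_eq_zero.1 (Finsupp.ext fun b => not_not.1 (not_exists.1 hh b)))
  rcases hT' _ _ e2 with e3 | e3
  · refine sum_of_ne_zero _ _ _ (fun i hi j hj eij => ?_) (Finsupp.mem_support_iff.2 hk) hk e3
    have := (tr f' e0 (W i * (W j)⁻¹) (e _ (Or.inr ⟨i, hi, j, hj, rfl⟩))).2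
      (by simp [eij])
    rw [map_mul, map_mul, map_inv, map_inv, mul_inv_eq_one] at this
    exact (hW i).symm.trans (this.trans (hW j))
  · have := (e (w, 1) (by simp)).2 (by rw [← ha', e3, h'.map_zero, map_one])
    rw [hw, map_one, h.eq_one] at this
    exact ha this

end Pool.Agent.H197Z.Bi
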