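import Pool.Agent.H197Z.BiCrit
import Pool.Agent.H197Z.BiMod

/-!
The word problem of a finitely generated metabelian group is definable in arithmetic.
-/

set_option autoImplicit false
set_option linter.unusedSectionVars false

namespace Pool.Agent.H197Z.Bi

open FirstOrder FirstOrder.Language Pool.Agent.H146Z.BiDefs

theorem cat_step {K : ℕ} (hK : 0 < K) (p c i : ℕ) (hi : i < K) :
    cat K p (K * c + i + 1) = K * cat K p c + i + 1 := by
  rw [cat_succ, Nat.mul_add_div hK, Nat.div_eq_of_lt hi, add_zero, Nat.mul_add_mod,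
    Nat.mod_eq_of_lt hi]

theorem code_ind {K : ℕ} (hK : 0 < K) {P : ℕ → Prop} (h0 : P 0)
    (h1 : ∀ c i, i < K → P c → P (K * c + i + 1)) (n : ℕ) : P n := by
  induction n using Nat.strong_induction_on with
  | _ n ih =>
    rcases n with _ | m
    · exact h0
    · have := h1 (m / K) (m % K) (Nat.mod_lt _ hK) (ih _ (Nat.lt_succ_of_le (Nat.div_le_self _ _)))
      rwa [Nat.div_add_mod] at this

theorem cat_letter {K : ℕ} (hK : 0 < K) (p i : ℕ) (hi : i < K) :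
    cat K p (i + 1) = K * p + i + 1 := by
  have := cat_step hK p 0 i hi
  rwa [mul_zero, zero_add, cat_zero] at this

/-- The monoid of coded words. -/
def W (K : ℕ) (_ : 0 < K) : Type := ℕ

instance monW (K : ℕ) (hK : 0 < K) : Monoid (W K hK) where
  mul := cat K
  one := (0 : ℕ)
  mul_assoc := fun p q r => by
    change cat K (cat K p q) r = cat K p (cat K q r)
    induction r using code_ind hK with
    | h0 => rw [cat_zero, cat_zero]
    | h1 c i hi ih => rw [cat_step hK _ _ _ hi, cat_step hK _ _ _ hi, cat_step hK _ _ _ hi, ih]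
  one_mul := fun q => by
    change cat K 0 q = q
    induction q using code_ind hK with
    | h0 => rw [cat_zero]
    | h1 c i hi ih => rw [cat_step hK _ _ _ hi, ih]
  mul_one := fun p => cat_zero K p

/-- Axioms of the calculus of equations between words. -/
def WBase (R : Set (ℕ × ℕ)) (z : ℕ × ℕ) : Prop := z.1 = z.2 ∨ z ∈ R

/-- Rules of the calculus of equations between words. -/
def WRule (K : ℕ) (x y z : ℕ × ℕ) : Prop :=
  (z.1 = x.2 ∧ z.2 = x.1) ∨ (x.2 = y.1 ∧ z.1 = x.1 ∧ z.2 = y.2) ∨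
    (z.1 = cat K x.1 y.1 ∧ z.2 = cat K x.2 y.2) ∨
    ∃ w : Fin 6 → ℕ, (x.1 = cat K (w 0) (w 1) ∧ x.2 = cat K (cat K (w 1) (w 0)) (w 2)) ∧
      (y.1 = cat K (w 3) (w 4) ∧ y.2 = cat K (cat K (w 4) (w 3)) (w 5)) ∧
      z.1 = cat K (w 2) (w 5) ∧ z.2 = cat K (w 5) (w 2)

theorem dp_wcl {K : ℕ} (hK : 0 < K) {R : Set (ℕ × ℕ)} (hR : R.Finite) :
    DP Lar ℕ (Cl (WBase R) (WRule K)) := by
  have := hR.to_subtype
  refine DP.cl (r := 2) (dec := fun v => (v 0, v 1)) ((DF.eval0 0).pair (DF.eval0 1))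
    (fun z => ⟨![z.1, z.2], rfl⟩) ?_ ?_
  · exact (DP.eq0.or (DP.ex_fin fun r : R => DP.eq_const (r : ℕ × ℕ))).congr fun z =>
      or_congr Iff.rfl ⟨fun ⟨r, e⟩ => e ▸ r.2, fun h => ⟨⟨z, h⟩, rfl⟩⟩
  · refine ((DP.eq DF.snd0.fst DF.fst0.fst.snd).and (DP.eq DF.snd0.snd DF.fst0.fst.fst)).or
      (DP.or ((DP.eq DF.fst0.fst.snd DF.fst0.snd.fst).and ((DP.eq DF.snd0.fst DF.fst0.fst.fst).and
        (DP.eq DF.snd0.snd DF.fst0.snd.snd)))
      (DP.or ((DP.eq DF.snd0.fst (DF.fst0.fst.fst.cat hK DF.fst0.snd.fst)).and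
        (DP.eq DF.snd0.snd (DF.fst0.fst.snd.cat hK DF.fst0.snd.snd))) ?_))
    refine DP.ex (P := fun (p : ((ℕ × ℕ) × (ℕ × ℕ)) × (ℕ × ℕ)) (w : Fin 6 → ℕ) =>
      (p.1.1.1 = cat K (w 0) (w 1) ∧ p.1.1.2 = cat K (cat K (w 1) (w 0)) (w 2)) ∧
      (p.1.2.1 = cat K (w 3) (w 4) ∧ p.1.2.2 = cat K (cat K (w 4) (w 3)) (w 5)) ∧
      p.2.1 = cat K (w 2) (w 5) ∧ p.2.2 = cat K (w 5) (w 2)) ?_
    have e : ∀ i : Fin 6, DF Lar ℕ
        fun q : (((ℕ × ℕ) × (ℕ × ℕ)) × (ℕ × ℕ)) × (Fin 6 → ℕ) => q.2 i := fun i => DF.snd0.eval i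
    exact ((DP.eq DF.fst0.fst.fst.fst ((e 0).cat hK (e 1))).and
      (DP.eq DF.fst0.fst.fst.snd (((e 1).cat hK (e 0)).cat hK (e 2)))).and
      (((DP.eq DF.fst0.fst.snd.fst ((e 3).cat hK (e 4))).and
      (DP.eq DF.fst0.fst.snd.snd (((e 4).cat hK (e 3)).cat hK (e 5)))).and
      ((DP.eq DF.fst0.snd.fst ((e 2).cat hK (e 5))).and
        (DP.eq DF.fst0.snd.snd ((e 5).cat hK (e 2)))))

/-- The congruence of derivable equations. -/
def wcon (K : ℕ) (hK : 0 < K) (R : Set (ℕ × ℕ)) : Con (W K hK) where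
  r := fun p q => Cl (WBase R) (WRule K) (p, q)
  iseqv := ⟨fun _ => Cl.base _ (Or.inl rfl), fun h => Cl.rule _ _ _ h h (Or.inl ⟨rfl, rfl⟩),
    fun h h' => Cl.rule _ _ _ h h' (Or.inr (Or.inl ⟨rfl, rfl, rfl⟩))⟩
  mul' := fun h h' => Cl.rule _ _ _ h h' (Or.inr (Or.inr (Or.inl ⟨rfl, rfl⟩)))

theorem wcon_mono (K : ℕ) (hK : 0 < K) {R R' : Set (ℕ × ℕ)} (h : R ⊆ R') :
    wcon K hK R ≤ wcon K hK R' := by
  have : ∀ z, Cl (WBase R) (WRule K) z → Cl (WBase R') (WRule K) z := by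
    intro z hz
    induction hz with
    | base z hz => exact Cl.base _ (hz.imp id fun a => h a)
    | rule x y z _ _ hr ih1 ih2 => exact Cl.rule _ _ _ ih1 ih2 hr
  exact fun p q hpq => this _ hpq

theorem wcon_unit (K : ℕ) (hK : 0 < K) {R : Set (ℕ × ℕ)}
    (h : ∀ i < K, ∃ v, (cat K (i + 1) v, 0) ∈ R ∧ (cat K v (i + 1), 0) ∈ R)
    (a : (wcon K hK R).Quotient) : IsUnit a := by
  obtain ⟨n, rfl⟩ := (wcon K hK R).mk'_surjective a
  induction n using code_ind hK with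
  | h0 => exact (map_one (wcon K hK R).mk').symm ▸ isUnit_one
  | h1 c i hi ih =>
    rw [← cat_letter hK c i hi]
    obtain ⟨v, h1, h2⟩ := h i hi
    have : IsUnit ((wcon K hK R).mk' (i + 1 : ℕ)) :=
      ⟨⟨(wcon K hK R).mk' (i + 1 : ℕ), (wcon K hK R).mk' v,
        (wcon K hK R).eq.2 (Cl.base _ (Or.inr h1)), (wcon K hK R).eq.2 (Cl.base _ (Or.inr h2))⟩, rfl⟩
    exact ih.mul this

theorem wcon_fg (K : ℕ) (hK : 0 < K) (R : Set (ℕ × ℕ)) : Monoid.FG (wcon K hK R).Quotient := by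
  refine Monoid.fg_iff.2 ⟨Set.range fun i : Fin K => (wcon K hK R).mk' (i + 1 : ℕ), ?_,
    Set.finite_range _⟩
  rw [eq_top_iff]
  intro a ha
  clear ha
  obtain ⟨n, rfl⟩ := (wcon K hK R).mk'_surjective a
  induction n using code_ind hK with
  | h0 => exact (map_one (wcon K hK R).mk').symm ▸ Submonoid.one_mem _
  | h1 c i hi ih =>
    rw [← cat_letter hK c i hi]
    exact Submonoid.mul_mem _ ih (Submonoid.subset_closure ⟨⟨i, hi⟩, rfl⟩)

theorem wcon_metab (K : ℕ) (hK : 0 < K) (R : Set (ℕ × ℕ)) (a b c d e f : (wcon K hK R).Quotient)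
    (h1 : a * b = b * a * c) (h2 : d * e = e * d * f) : c * f = f * c := by
  obtain ⟨a, rfl⟩ := (wcon K hK R).mk'_surjective a
  obtain ⟨b, rfl⟩ := (wcon K hK R).mk'_surjective b
  obtain ⟨c, rfl⟩ := (wcon K hK R).mk'_surjective c
  obtain ⟨d, rfl⟩ := (wcon K hK R).mk'_surjective d
  obtain ⟨e, rfl⟩ := (wcon K hK R).mk'_surjective e
  obtain ⟨f, rfl⟩ := (wcon K hK R).mk'_surjective f
  exact (wcon K hK R).eq.2 (Cl.rule _ _ _ ((wcon K hK R).eq.1 h1) ((wcon K hK R).eq.1 h2)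
    (Or.inr (Or.inr (Or.inr ⟨![a, b, c, d, e, f], ⟨rfl, rfl⟩, ⟨rfl, rfl⟩, rfl, rfl⟩))))

variable {G : Type} [Group G]

theorem wcl_sound (hm : ∀ a b c d : G, Commute (a * b * a⁻¹ * b⁻¹) (c * d * c⁻¹ * d⁻¹))
    {K : ℕ} (hK : 0 < K) (x : ℕ → G) {R : Set (ℕ × ℕ)} (hR : ∀ r ∈ R, ev K x r.1 = ev K x r.2)
    (z : ℕ × ℕ) (hz : Cl (WBase R) (WRule K) z) : ev K x z.1 = ev K x z.2 := by
  induction hz with
  | base z hz =>
    rcases hz with h | h
    · rw [h]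
    · exact hR z h
  | rule a b z _ _ hr ih1 ih2 =>
    rcases hr with ⟨h1, h2⟩ | ⟨h1, h2, h3⟩ | ⟨h1, h2⟩ | ⟨w, ⟨h1, h2⟩, ⟨h3, h4⟩, h5, h6⟩
    · rw [h1, h2, ih1]
    · rw [h2, h3, ih1, h1, ih2]
    · rw [h1, h2, ev_cat hK, ev_cat hK, ih1, ih2]
    · rw [h1, h2] at ih1
      rw [h3, h4] at ih2
      simp only [h5, h6, ev_cat hK] at ih1 ih2 ⊢
      have e1 : ev K x (w 2) = (ev K x (w 0))⁻¹ * (ev K x (w 1))⁻¹ * (ev K x (w 0))⁻¹⁻¹ *
          (ev K x (w 1))⁻¹⁻¹ := by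
        rw [inv_inv, inv_inv, mul_assoc, ih1]
        group
      have e2 : ev K x (w 5) = (ev K x (w 3))⁻¹ * (ev K x (w 4))⁻¹ * (ev K x (w 3))⁻¹⁻¹ *
          (ev K x (w 4))⁻¹⁻¹ := by
        rw [inv_inv, inv_inv, mul_assoc, ih2]
        group
      rw [e1, e2]
      exact hm _ _ _ _

theorem word_problem (hm : ∀ a b c d : G, Commute (a * b * a⁻¹ * b⁻¹) (c * d * c⁻¹ * d⁻¹))
    {K : ℕ} (hK : 0 < K) {x : ℕ → G} (hs : Function.Surjective (ev K x)) :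
    DP Lar ℕ fun p : ℕ × ℕ => ev K x p.1 = ev K x p.2 := by
  choose t ht using hs
  let R0 : Set (ℕ × ℕ) := Set.range (fun i : Fin K => (cat K (i + 1) (t (ev K x (i + 1))⁻¹), 0)) ∪
    Set.range (fun i : Fin K => (cat K (t (ev K x (i + 1))⁻¹) (i + 1), 0))
  have f0 : R0.Finite := (Set.finite_range _).union (Set.finite_range _)
  have s0 : ∀ r ∈ R0, ev K x r.1 = ev K x r.2 := by
    rintro _ (⟨i, rfl⟩ | ⟨i, rfl⟩) <;> simp [ev_cat hK, ht, ev_zero]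
  have u0 : ∀ R : Set (ℕ × ℕ), R0 ⊆ R → ∀ a : (wcon K hK R).Quotient, IsUnit a := fun R h =>
    wcon_unit K hK fun i hi => ⟨_, h (Or.inl ⟨⟨i, hi⟩, rfl⟩), h (Or.inr ⟨⟨i, hi⟩, rfl⟩)⟩
  let _ : Group (wcon K hK R0).Quotient := groupOfIsUnit (u0 R0 le_rfl)
  have : Group.FG (wcon K hK R0).Quotient := Group.fg_iff_monoid_fg.2 (wcon_fg K hK R0)
  let e : W K hK →* G := ⟨⟨ev K x, ev_zero K x⟩, ev_cat hK x⟩
  let e0 : (wcon K hK R0).Quotient →* G := (wcon K hK R0).lift e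
    fun p q h => wcl_sound hm hK x s0 _ h
  obtain ⟨S, h1, h2, h3⟩ := hall (G := (wcon K hK R0).Quotient) (fun a b c d =>
    wcon_metab K hK R0 a⁻¹ b⁻¹ _ c⁻¹ d⁻¹ _ (by group) (by group)) e0.ker inferInstance
  choose s hs using (wcon K hK R0).mk'_surjective
  let R : Set (ℕ × ℕ) := R0 ∪ (fun a => ((s a : ℕ), 0)) '' S
  have fR : R.Finite := f0.union (h1.image _)
  have sR : ∀ r ∈ R, ev K x r.1 = ev K x r.2 := by
    rintro r (h | ⟨a, ha, rfl⟩)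
    · exact s0 r h
    · have := h2 ha
      rw [← hs a] at this
      exact this.trans (ev_zero K x).symm
  refine (dp_wcl hK fR).congr fun z => ⟨wcl_sound hm hK x sR z, fun h => ?_⟩
  let _ : Group (wcon K hK R).Quotient := groupOfIsUnit (u0 R Set.subset_union_left)
  let m : (wcon K hK R0).Quotient →* (wcon K hK R).Quotient :=
    Con.map _ _ (wcon_mono K hK Set.subset_union_left)
  have h4 := h3 m.ker inferInstance (fun a ha => by
    rw [← hs a]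
    exact (wcon K hK R).eq.2 (Cl.base _ (Or.inr (Or.inr ⟨a, ha, rfl⟩))))
  have h5 : (wcon K hK R0).mk' z.1 * ((wcon K hK R0).mk' z.2)⁻¹ ∈ e0.ker := by
    rw [MonoidHom.mem_ker, map_mul, map_inv, mul_inv_eq_one]
    exact h
  have h6 := h4 h5
  rw [MonoidHom.mem_ker, map_mul, map_inv, mul_inv_eq_one] at h6
  exact (wcon K hK R).eq.1 h6

end Pool.Agent.H197Z.Bi
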