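import Pool.Agent.H146Z.BiDefs

/-!
Uniform definability over all groups with parameters; translation of arithmetic along an
interpretation; recognising the standard model by finite generation.
-/

set_option autoImplicit false
set_option linter.unusedSectionVars false

namespace Pool.Agent.H197Z.Bi

open FirstOrder FirstOrder.Language Pool.Agent.H146Z.BiDefs

/-- A group with parameters. -/
structure Ctx (ρ : Type) where
  H : Type
  grp : Group H
  par : ρ → H

instance Ctx.group {ρ : Type} (c : Ctx ρ) : Group c.H := c.grp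

section

variable (L : FirstOrder.Language.{0, 0}) (st : ∀ (H : Type) [Group H], L.Structure H)
  {ρ : Type} (κ : Type)

/-- Uniformly definable predicates on tuples of blocks. -/
def UP (α : Type) (P : ∀ c : Ctx ρ, (α → κ → c.H) → Prop) : Prop :=
  ∃ φ : L.Formula (ρ ⊕ α × κ), ∀ (c : Ctx ρ) (v : α → κ → c.H),
    @Formula.Realize L c.H (st c.H) _ φ (Sum.elim c.par fun p => v p.1 p.2) ↔ P c v

variable {L st κ} {α β : Type} {P Q : ∀ c : Ctx ρ, (α → κ → c.H) → Prop}

theorem UP.congr (h : UP L st κ α P) (e : ∀ c v, P c v ↔ Q c v) : UP L st κ α Q :=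
  h.imp fun _ h c v => (h c v).trans (e c v)

theorem UP.imp' (h : UP L st κ α P) (h' : UP L st κ α Q) :
    UP L st κ α fun c v => P c v → Q c v := by
  obtain ⟨φ, h⟩ := h
  obtain ⟨ψ, h'⟩ := h'
  exact ⟨φ.imp ψ, fun c v => imp_congr (h c v) (h' c v)⟩

theorem UP.bot : UP L st κ α fun (_ : Ctx ρ) _ => False := ⟨⊥, fun _ _ => Iff.rfl⟩

theorem UP.not (h : UP L st κ α P) : UP L st κ α fun c v => ¬ P c v := h.imp' UP.bot

theorem UP.and (h : UP L st κ α P) (h' : UP L st κ α Q) :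
    UP L st κ α fun c v => P c v ∧ Q c v := (h.imp' h'.not).not.congr fun _ _ => by tauto

theorem UP.or (h : UP L st κ α P) (h' : UP L st κ α Q) :
    UP L st κ α fun c v => P c v ∨ Q c v := (h.not.imp' h').congr fun _ _ => by tauto

theorem UP.iff (h : UP L st κ α P) (h' : UP L st κ α Q) :
    UP L st κ α fun c v => P c v ↔ Q c v :=
  ((h.imp' h').and (h'.imp' h)).congr fun _ _ => by tauto

theorem UP.re (h : UP L st κ α P) (r : α → β) : UP L st κ β fun c v => P c (v ∘ r) := by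
  obtain ⟨φ, h⟩ := h
  refine ⟨φ.relabel (Sum.map id (Prod.map r id)), fun c v => ?_⟩
  let _ := st c.H
  rw [Formula.realize_relabel]
  refine Iff.trans ?_ (h c (v ∘ r))
  rw [iff_iff_eq]
  congr 1
  funext x
  rcases x with x | x <;> rfl

theorem UP.all [Finite κ] {R : ∀ c : Ctx ρ, (α → κ → c.H) → (κ → c.H) → Prop}
    (h : UP L st κ (Option α) fun c w => R c (w ∘ some) (w none)) :
    UP L st κ α fun c v => ∀ u, R c v u := by
  obtain ⟨φ, h⟩ := h
  refine ⟨(φ.relabel (Sum.elim (Sum.inl ∘ Sum.inl) fun p =>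
    p.1.elim (Sum.inr p.2) fun a => Sum.inl (Sum.inr (a, p.2)))).iAlls κ, fun c v => ?_⟩
  let _ := st c.H
  rw [Formula.realize_iAlls]
  refine forall_congr' fun u => ?_
  rw [Formula.realize_relabel]
  refine Iff.trans ?_ (h c fun o => o.elim u v)
  rw [iff_iff_eq]
  congr 1
  funext x
  rcases x with x | ⟨_ | a, k⟩ <;> rfl

theorem UP.ex [Finite κ] {R : ∀ c : Ctx ρ, (α → κ → c.H) → (κ → c.H) → Prop}
    (h : UP L st κ (Option α) fun c w => R c (w ∘ some) (w none)) :
    UP L st κ α fun c v => ∃ u, R c v u :=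
  (UP.all (R := fun c v u => ¬ R c v u) h.not).not.congr fun _ _ => by simp

theorem UP.all_fin {ι : Type} [Finite ι] {R : ι → ∀ c : Ctx ρ, (α → κ → c.H) → Prop}
    (h : ∀ i, UP L st κ α (R i)) : UP L st κ α fun c v => ∀ i, R i c v := by
  have : ∀ s : Set ι, s.Finite → UP L st κ α fun c v => ∀ i ∈ s, R i c v := by
    intro s hs
    induction s, hs using Set.Finite.induction_on with
    | empty => exact UP.bot.not.congr fun _ _ => by simp
    | @insert i _ _ _ ih => exact ((h i).and ih).congr fun _ _ => by simp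
  exact (this _ Set.finite_univ).congr fun _ _ => by simp

theorem UP.at3 {R : ∀ c : Ctx ρ, (κ → c.H) → (κ → c.H) → (κ → c.H) → Prop}
    (h : UP L st κ (Fin 3) fun c v => R c (v 0) (v 1) (v 2)) (i j k : α) :
    UP L st κ α fun c v => R c (v i) (v j) (v k) := h.re ![i, j, k]

theorem UP.par (a : ρ) (i : α) (k : κ) : UP L st κ α fun c v => v i k = c.par a :=
  ⟨Term.equal (Term.var (Sum.inr (i, k))) (Term.var (Sum.inl a)), fun _ _ => Iff.rfl⟩

end

/-- The relations describing an interpretation of arithmetic in a group and an enumeration of the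
group. -/
structure Rels (O : Type) where
  dm : O → Prop
  zr : O → Prop
  sc : O → O → Prop
  lt : O → O → Prop
  eq : O → O → Prop
  ad : O → O → O → Prop
  ml : O → O → O → Prop
  ev : O → O → Prop
  b1 : O → O → Prop
  bl : O → O → O → Prop
  mu : O → O → O → Prop

/-- Numerals. -/
def Rels.num {O : Type} (r : Rels O) : ℕ → O → Prop
  | 0, u => r.zr u
  | n + 1, v => ∃ u, r.num n u ∧ r.sc u v

/-- The finite list of axioms. -/
def Rels.Ax {O : Type} (r : Rels O) : Prop :=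
  ((∃ u, r.zr u) ∧ (∀ u, r.dm u → ∃ v, r.sc u v) ∧ (∀ u, r.zr u → r.dm u) ∧
  (∀ u v, r.sc u v → r.dm v) ∧ (∀ u v, r.zr u → r.zr v → r.eq u v) ∧
  (∀ u v w, r.zr u → r.sc v w → ¬ r.eq u w ∧ ¬ r.eq w u) ∧
  (∀ u v u' v', r.sc u v → r.sc u' v' → (r.eq v v' ↔ r.eq u u')) ∧
  (∀ e z, r.dm e → r.zr z → r.zr e ∨ r.lt z e) ∧
  (∀ u v e, r.lt u e → r.sc u v → r.sc u e ∨ r.lt v e)) ∧
  ((∀ l g, r.dm l → ∃ l', r.dm l' ∧ r.b1 l' g ∧ ∀ h, r.b1 l h → r.b1 l' h) ∧
  (∀ l e e' g h k, r.bl l e g → r.b1 l h → r.sc e e' → r.mu g h k → r.bl l e' k) ∧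
  (∀ l e e' g, r.lt e e' → r.bl l e g → r.bl l e' g) ∧
  (∀ l e, r.dm l → r.dm e → ∃ g, ¬ r.bl l e g) ∧
  (∀ l z g, r.dm l → r.zr z → r.mu g g g → r.bl l z g)) ∧
  ((∀ u v w, r.dm u → r.zr v → r.dm w → (r.ad u v w ↔ r.eq u w)) ∧
  (∀ u v v' w', r.dm u → r.dm v → r.sc v v' → r.dm w' →
    (r.ad u v' w' ↔ ∃ w, r.dm w ∧ r.ad u v w ∧ r.sc w w')) ∧
  (∀ u v w, r.dm u → r.zr v → r.dm w → (r.ml u v w ↔ r.zr w)) ∧
  (∀ u v v' w', r.dm u → r.dm v → r.sc v v' → r.dm w' →
    (r.ml u v' w' ↔ ∃ w, r.dm w ∧ r.ml u v w ∧ r.ad w u w'))) ∧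
  (∀ u, r.dm u → ∃ g, r.ev u g) ∧ ∀ g, ∃ u, r.dm u ∧ r.ev u g

/-- The relations interpret the standard model of arithmetic via `F`. -/
structure Rels.Good {O : Type} (r : Rels O) (F : O → ℕ) : Prop where
  surj : ∀ n, ∃ u, r.dm u ∧ F u = n
  num : ∀ n u, r.num n u ↔ r.dm u ∧ F u = n
  eq : ∀ u v, r.dm u → r.dm v → (r.eq u v ↔ F u = F v)
  ad : ∀ u v w, r.dm u → r.dm v → r.dm w → (r.ad u v w ↔ F u + F v = F w)
  ml : ∀ u v w, r.dm u → r.dm v → r.dm w → (r.ml u v w ↔ F u * F v = F w)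

theorem Rels.Ax.good {O H : Type} [Group H] [Group.FG H] {r : Rels O} (h : r.Ax) {el : O → H}
    (hel : Function.Surjective el) (hmu : ∀ a b c, r.mu a b c ↔ el a * el b = el c) :
    ∃ F, r.Good F := by
  classical
  obtain ⟨⟨a1, a2, a3, a4, a5, a6, a7, a8, a9⟩, ⟨b1, b2, b3, b4, b5⟩, ⟨c1, c2, c3, c4⟩, -⟩ := h
  have ndm : ∀ n u, r.num n u → r.dm u := by
    rintro (_ | n) u h
    · exact a3 u h
    · exact h.elim fun v hv => a4 v u hv.2
  have nex : ∀ n, ∃ u, r.num n u := by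
    intro n
    induction n with
    | zero => exact a1
    | succ n ih =>
      obtain ⟨u, hu⟩ := ih
      obtain ⟨v, hv⟩ := a2 u (ndm n u hu)
      exact ⟨v, u, hu, hv⟩
  have neq : ∀ n m u v, r.num n u → r.num m v → (r.eq u v ↔ n = m) := by
    intro n
    induction n with
    | zero =>
      rintro (_ | m) u v hu hv
      · exact iff_of_true (a5 u v hu hv) rfl
      · exact hv.elim fun w hw => iff_of_false (a6 u w v hu hw.2).1 (by omega)
    | succ n ih =>
      rintro (_ | m) u v ⟨w, hw, hw'⟩ hv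
      · exact iff_of_false (a6 v w u hv hw').2 (by omega)
      · obtain ⟨w2, h2, h2'⟩ := hv
        rw [a7 w u w2 v hw' h2', ih m w w2 hw h2]
        omega
  have nuq : ∀ n m u, r.num n u → r.num m u → n = m := fun n m u h1 h2 =>
    (neq n m u u h1 h2).1 ((neq n n u u h1 h1).2 rfl)
  have std : ∀ e, r.dm e → ∃ n, r.num n e := by
    intro e he
    by_contra hc
    have hlt : ∀ n u, r.num n u → r.lt u e := by
      intro n
      induction n with
      | zero => exact fun u hu => (a8 e u he hu).resolve_left fun h => hc ⟨0, h⟩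
      | succ n ih =>
        rintro v ⟨u, hu, hv⟩
        exact (a9 u v e (ih u hu) hv).resolve_left fun h => hc ⟨n + 1, u, hu, h⟩
    obtain ⟨S, hS, hf⟩ := Monoid.fg_iff.1 (inferInstance : Monoid.FG H)
    have hl : ∀ T : Set H, T.Finite → ∃ l, r.dm l ∧ ∀ t ∈ T, ∃ o, el o = t ∧ r.b1 l o := by
      intro T hT
      induction T, hT using Set.Finite.induction_on with
      | empty => exact ⟨e, he, by simp⟩
      | @insert t T _ _ ih =>
        obtain ⟨l, h1, h2⟩ := ih
        obtain ⟨o, rfl⟩ := hel t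
        obtain ⟨l', h3, h4, h5⟩ := b1 l o h1
        refine ⟨l', h3, ?_⟩
        rintro t (rfl | ht)
        · exact ⟨o, rfl, h4⟩
        · exact (h2 t ht).imp fun o ho => ⟨ho.1, h5 o ho.2⟩
    obtain ⟨l, h1, h2⟩ := hl S hf
    have key : ∀ g : H, ∃ n u, r.num n u ∧ ∀ k, el k = g → r.bl l u k := by
      intro g
      have : g ∈ Submonoid.closure S := by rw [hS]; trivial
      induction this using Submonoid.closure_induction_right with
      | one =>
        obtain ⟨z, hz⟩ := a1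
        exact ⟨0, z, hz, fun k hk => b5 l z k h1 hz ((hmu _ _ _).2 (by rw [hk, mul_one]))⟩
      | mul_right g _ y hy ih =>
        obtain ⟨n, u, hu, ih⟩ := ih
        obtain ⟨v, hv⟩ := a2 u (ndm n u hu)
        obtain ⟨o, rfl, ho⟩ := h2 y hy
        obtain ⟨p, rfl⟩ := hel g
        exact ⟨n + 1, v, ⟨u, hu, hv⟩, fun k hk =>
          b2 l u v p o k (ih p rfl) ho hv ((hmu _ _ _).2 hk.symm)⟩
    obtain ⟨g, hg⟩ := b4 l e h1 he
    obtain ⟨n, u, hu, h3⟩ := key (el g)
    exact hg (b3 l u e g (hlt n u hu) (h3 g rfl))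
  choose! F hF using std
  have hnum : ∀ n u, r.num n u ↔ r.dm u ∧ F u = n := fun n u =>
    ⟨fun h => ⟨ndm n u h, nuq _ _ u (hF u (ndm n u h)) h⟩, fun h => h.2 ▸ hF u h.1⟩
  have heq : ∀ u v, r.dm u → r.dm v → (r.eq u v ↔ F u = F v) := fun u v hu hv =>
    neq _ _ u v (hF u hu) (hF v hv)
  have had : ∀ b u v w, r.dm u → r.num b v → r.dm w → (r.ad u v w ↔ F u + b = F w) := by
    intro b
    induction b with
    | zero => exact fun u v w hu hv hw => (c1 u v w hu hv hw).trans (heq u w hu hw)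
    | succ b ih =>
      rintro u v' w' hu ⟨v, hv, hv'⟩ hw'
      rw [c2 u v v' w' hu (ndm b v hv) hv' hw']
      constructor
      · rintro ⟨w, h1, h2, h3⟩
        rw [((hnum (F w + 1) w').1 ⟨w, hF w h1, h3⟩).2, ← (ih u v w hu hv h1).1 h2, add_assoc]
      · intro e
        obtain ⟨w, h1, h2⟩ := (hnum (F u + b + 1) w').2 ⟨hw', e.symm⟩
        exact ⟨w, ndm _ _ h1, (ih u v w hu hv (ndm _ _ h1)).2 ((hnum _ _).1 h1).2.symm, h2⟩
  have hml : ∀ b u v w, r.dm u → r.num b v → r.dm w → (r.ml u v w ↔ F u * b = F w) := by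
    intro b
    induction b with
    | zero =>
      intro u v w hu hv hw
      rw [c3 u v w hu hv hw, mul_zero, eq_comm]
      exact (hnum 0 w).trans (and_iff_right hw)
    | succ b ih =>
      rintro u v' w' hu ⟨v, hv, hv'⟩ hw'
      rw [c4 u v v' w' hu (ndm b v hv) hv' hw']
      constructor
      · rintro ⟨w, h1, h2, h3⟩
        rw [← (had _ w u w' h1 (hF u hu) hw').1 h3, ← (ih u v w hu hv h1).1 h2, mul_add_one]
      · intro e
        obtain ⟨w, h1⟩ := nex (F u * b)
        obtain ⟨h2, h3⟩ := (hnum _ _).1 h1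
        exact ⟨w, h2, (ih u v w hu hv h2).2 h3.symm,
          (had _ w u w' h2 (hF u hu) hw').2 (by rw [h3, ← e, mul_add_one])⟩
  exact ⟨F, fun n => (nex n).imp fun u hu => (hnum n u).1 hu, hnum, heq,
    fun u v w hu hv hw => had _ u v w hu (hF v hv) hw,
    fun u v w hu hv hw => hml _ u v w hu (hF v hv) hw⟩

section

variable {L : FirstOrder.Language.{0, 0}} {st : ∀ (H : Type) [Group H], L.Structure H}
  {ρ κ : Type} [Finite κ]

/-- All relations of a family are uniformly definable. -/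
structure URels (L : FirstOrder.Language.{0, 0}) (st : ∀ (H : Type) [Group H], L.Structure H)
    {ρ κ : Type} (r : ∀ c : Ctx ρ, Rels (κ → c.H)) : Prop where
  dm : ∀ {α : Type} (i : α), UP L st κ α fun c v => (r c).dm (v i)
  zr : ∀ {α : Type} (i : α), UP L st κ α fun c v => (r c).zr (v i)
  sc : ∀ {α : Type} (i j : α), UP L st κ α fun c v => (r c).sc (v i) (v j)
  lt : ∀ {α : Type} (i j : α), UP L st κ α fun c v => (r c).lt (v i) (v j)
  eq : ∀ {α : Type} (i j : α), UP L st κ α fun c v => (r c).eq (v i) (v j)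
  ad : ∀ {α : Type} (i j k : α), UP L st κ α fun c v => (r c).ad (v i) (v j) (v k)
  ml : ∀ {α : Type} (i j k : α), UP L st κ α fun c v => (r c).ml (v i) (v j) (v k)
  ev : ∀ {α : Type} (i j : α), UP L st κ α fun c v => (r c).ev (v i) (v j)
  b1 : ∀ {α : Type} (i j : α), UP L st κ α fun c v => (r c).b1 (v i) (v j)
  bl : ∀ {α : Type} (i j k : α), UP L st κ α fun c v => (r c).bl (v i) (v j) (v k)
  mu : ∀ {α : Type} (i j k : α), UP L st κ α fun c v => (r c).mu (v i) (v j) (v k)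

variable {r : ∀ c : Ctx ρ, Rels (κ → c.H)} (h : URels L st r)

include h

theorem URels.ax (α : Type) : UP L st κ α fun c _ => (r c).Ax := by
  unfold Rels.Ax
  repeat' first
    | exact h.dm _ | exact h.zr _ | exact h.sc _ _ | exact h.lt _ _ | exact h.eq _ _
    | exact h.ad _ _ _ | exact h.ml _ _ _ | exact h.ev _ _ | exact h.b1 _ _ | exact h.bl _ _ _
    | exact h.mu _ _ _ | apply UP.and | apply UP.or | apply UP.iff | apply UP.not | apply UP.imp'
    | apply UP.all | apply UP.ex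

theorem URels.num (n : ℕ) : ∀ {α : Type} (i : α), UP L st κ α fun c v => (r c).num n (v i) := by
  induction n with
  | zero => exact fun i => h.zr i
  | succ n ih => exact fun i => UP.ex ((ih none).and (h.sc none (some i)))

theorem URels.term {β : Type} (t : Lar.Term (ℕ ⊕ β)) :
    ∃ T : ∀ c : Ctx ρ, (β → κ → c.H) → (κ → c.H) → Prop,
      (UP L st κ (Option β) fun c w => T c (w ∘ some) (w none)) ∧
      ∀ c F, (r c).Good F → ∀ v u, (∀ i, (r c).dm (v i)) → (r c).dm u →
        (T c v u ↔ t.realize (Sum.elim id (F ∘ v)) = F u) := by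
  have lift2 : ∀ {T : ∀ c : Ctx ρ, (β → κ → c.H) → (κ → c.H) → Prop},
      (UP L st κ (Option β) fun c w => T c (w ∘ some) (w none)) →
      ∀ i : Option (Option (Option β)), UP L st κ (Option (Option (Option β)))
        fun c w => T c (((w ∘ some) ∘ some) ∘ some) (w i) := fun hT i =>
    hT.re fun o => o.elim i (some ∘ some ∘ some)
  induction t with
  | var i =>
    rcases i with n | i
    · exact ⟨fun c _ u => (r c).num n u, h.num n none, fun c F g v u _ hu =>
        (g.num n u).trans ⟨fun e => e.2.symm, fun e => ⟨hu, e.symm⟩⟩⟩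
    · exact ⟨fun c v u => (r c).eq (v i) u, h.eq (some i) none, fun c F g v u hv hu =>
        g.eq _ _ (hv i) hu⟩
  | func f ts ih =>
    cases f with
    | zero => exact ⟨fun c _ u => (r c).num 0 u, h.num 0 none, fun c F g v u _ hu =>
        (g.num 0 u).trans ⟨fun e => e.2.symm, fun e => ⟨hu, e.symm⟩⟩⟩
    | one => exact ⟨fun c _ u => (r c).num 1 u, h.num 1 none, fun c F g v u _ hu =>
        (g.num 1 u).trans ⟨fun e => e.2.symm, fun e => ⟨hu, e.symm⟩⟩⟩
    | add =>
      obtain ⟨T1, h1, e1⟩ := ih 0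
      obtain ⟨T2, h2, e2⟩ := ih 1
      refine ⟨fun c v u => ∃ a b, (r c).dm a ∧ (r c).dm b ∧ T1 c v a ∧ T2 c v b ∧ (r c).ad a b u,
        UP.ex (UP.ex ((h.dm (some none)).and ((h.dm none).and ((lift2 h1 (some none)).and
          ((lift2 h2 none).and (h.ad (some none) none (some (some none)))))))),
        fun c F g v u hv hu => ?_⟩
      change _ ↔ (ts 0).realize _ + (ts 1).realize _ = _
      constructor
      · rintro ⟨a, b, ha, hb, t1, t2, e⟩
        rw [(e1 c F g v a hv ha).1 t1, (e2 c F g v b hv hb).1 t2, (g.ad a b u ha hb hu).1 e]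
      · intro e
        obtain ⟨a, ha, ea⟩ := g.surj ((ts 0).realize (Sum.elim id (F ∘ v)))
        obtain ⟨b, hb, eb⟩ := g.surj ((ts 1).realize (Sum.elim id (F ∘ v)))
        exact ⟨a, b, ha, hb, (e1 c F g v a hv ha).2 ea.symm, (e2 c F g v b hv hb).2 eb.symm,
          (g.ad a b u ha hb hu).2 (by rw [ea, eb, e])⟩
    | mul =>
      obtain ⟨T1, h1, e1⟩ := ih 0
      obtain ⟨T2, h2, e2⟩ := ih 1
      refine ⟨fun c v u => ∃ a b, (r c).dm a ∧ (r c).dm b ∧ T1 c v a ∧ T2 c v b ∧ (r c).ml a b u,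
        UP.ex (UP.ex ((h.dm (some none)).and ((h.dm none).and ((lift2 h1 (some none)).and
          ((lift2 h2 none).and (h.ml (some none) none (some (some none)))))))),
        fun c F g v u hv hu => ?_⟩
      change _ ↔ (ts 0).realize _ * (ts 1).realize _ = _
      constructor
      · rintro ⟨a, b, ha, hb, t1, t2, e⟩
        rw [(e1 c F g v a hv ha).1 t1, (e2 c F g v b hv hb).1 t2, (g.ml a b u ha hb hu).1 e]
      · intro e
        obtain ⟨a, ha, ea⟩ := g.surj ((ts 0).realize (Sum.elim id (F ∘ v)))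
        obtain ⟨b, hb, eb⟩ := g.surj ((ts 1).realize (Sum.elim id (F ∘ v)))
        exact ⟨a, b, ha, hb, (e1 c F g v a hv ha).2 ea.symm, (e2 c F g v b hv hb).2 eb.symm,
          (g.ml a b u ha hb hu).2 (by rw [ea, eb, e])⟩

theorem URels.translate {α : Type} {n : ℕ} (ψ : Lar.BoundedFormula (ℕ ⊕ α) n) :
    ∃ E : ∀ c : Ctx ρ, (α ⊕ Fin n → κ → c.H) → Prop, UP L st κ (α ⊕ Fin n) E ∧
      ∀ c F, (r c).Good F → ∀ v, (∀ i, (r c).dm (v i)) →
        (E c v ↔ ψ.Realize (Sum.elim id (F ∘ v ∘ Sum.inl)) (F ∘ v ∘ Sum.inr)) := by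
  induction ψ with
  | falsum => exact ⟨_, UP.bot, fun _ _ _ _ _ => Iff.rfl⟩
  | @equal n t₁ t₂ =>
    obtain ⟨T1, h1, e1⟩ := h.term (t₁.relabel (Equiv.sumAssoc ℕ α (Fin n)))
    obtain ⟨T2, h2, e2⟩ := h.term (t₂.relabel (Equiv.sumAssoc ℕ α (Fin n)))
    refine ⟨fun c v => ∃ a, (r c).dm a ∧ T1 c v a ∧ T2 c v a,
      UP.ex ((h.dm none).and (h1.and h2)), fun c F g v hv => ?_⟩
    have e : Sum.elim (Sum.elim id (F ∘ v ∘ Sum.inl)) (F ∘ v ∘ Sum.inr) =
        Sum.elim id (F ∘ v) ∘ Equiv.sumAssoc ℕ α (Fin n) := by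
      funext x
      rcases x with (x | x) | x <;> rfl
    change _ ↔ t₁.realize _ = t₂.realize _
    rw [e, ← Term.realize_relabel, ← Term.realize_relabel]
    constructor
    · rintro ⟨a, ha, t1, t2⟩
      rw [(e1 c F g v a hv ha).1 t1, (e2 c F g v a hv ha).1 t2]
    · intro e
      obtain ⟨a, ha, ea⟩ := g.surj _
      exact ⟨a, ha, (e1 c F g v a hv ha).2 ea.symm, (e2 c F g v a hv ha).2 (e.symm.trans ea.symm)⟩
  | rel R _ => exact Empty.elim R
  | imp _ _ ih1 ih2 =>
    obtain ⟨E1, h1, e1⟩ := ih1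
    obtain ⟨E2, h2, e2⟩ := ih2
    exact ⟨_, h1.imp' h2, fun c F g v hv => imp_congr (e1 c F g v hv) (e2 c F g v hv)⟩
  | @all n ψ ih =>
    obtain ⟨E, h1, e1⟩ := ih
    let q : α ⊕ Fin (n + 1) → Option (α ⊕ Fin n) :=
      Sum.elim (some ∘ Sum.inl) (Fin.snoc (α := fun _ => Option (α ⊕ Fin n)) (some ∘ Sum.inr) none)
    refine ⟨fun c v => ∀ u, (r c).dm u → E c ((fun o => o.elim u v) ∘ q),
      UP.all ((h.dm none).imp' ((h1.re q).congr fun c w => ?_)), fun c F g v hv => ?_⟩
    · rw [iff_iff_eq]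
      congr 2
      funext o
      cases o <;> rfl
    · have e : ∀ u, (r c).dm u → (E c ((fun o => o.elim u v) ∘ q) ↔ ψ.Realize
          (Sum.elim id (F ∘ v ∘ Sum.inl)) (Fin.snoc (F ∘ v ∘ Sum.inr) (F u))) := by
        intro u hu
        rw [e1 c F g _ fun i => by
          change (r c).dm ((q i).elim u v)
          cases q i
          · exact hu
          · exact hv _]
        rw [iff_iff_eq]
        congr 1
        funext i
        refine Fin.lastCases ?_ (fun j => ?_) i <;> simp [q]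
      rw [BoundedFormula.realize_all]
      constructor
      · intro a m
        obtain ⟨u, hu, rfl⟩ := g.surj m
        exact (e u hu).1 (a u hu)
      · exact fun a u hu => (e u hu).2 (a _)

end

end Pool.Agent.H197Z.Bi
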