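import Pool.Agent.H197Z.EndCalc
import Pool.Agent.H197Z.BiDef

/-!
A finitely generated group bi-interpretable with arithmetic is described, among finitely generated
groups with parameters, by one formula.
-/

set_option autoImplicit false
set_option linter.unusedSectionVars false

namespace Pool.Agent.H197Z.Bi

open FirstOrder FirstOrder.Language Pool.Agent.H146Z.BiDefs
open scoped Pointwise

/-- The finite set of elements with small code. -/
def ball {G : Type} [Group G] (e : ℕ → G) (n : ℕ) : Set G := {g | g = 1 ∨ ∃ p, p ≤ n ∧ e p = g}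

/-- The intended meaning of the relations. -/
def stdRels {O G : Type} [Group G] (cd : O → ℕ → Prop) (el : O → G) (e : ℕ → G) : Rels O where
  dm := fun u => ∃ n, cd u n
  zr := fun u => cd u 0
  sc := fun u v => ∃ n, cd u n ∧ cd v (n + 1)
  lt := fun u v => ∃ n m, cd u n ∧ cd v m ∧ n < m
  eq := fun u v => ∃ n, cd u n ∧ cd v n
  ad := fun u v w => ∃ n m, cd u n ∧ cd v m ∧ cd w (n + m)
  ml := fun u v w => ∃ n m, cd u n ∧ cd v m ∧ cd w (n * m)
  ev := fun u g => ∃ n, cd u n ∧ e n = el g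
  b1 := fun l g => ∃ n, cd l n ∧ el g ∈ ball e n
  bl := fun l u g => ∃ n m, cd l n ∧ cd u m ∧ el g ∈ ball e n ^ m
  mu := fun a b c => el a * el b = el c

theorem stdRels_ax {O G : Type} [Group G] [Infinite G] {cd : O → ℕ → Prop} {el : O → G}
    {e : ℕ → G} (h1 : ∀ n, ∃ u, cd u n) (h2 : ∀ u n m, cd u n → cd u m → n = m)
    (hel : Function.Surjective el) (he : Function.Surjective e) : (stdRels cd el e).Ax := by
  refine ⟨⟨h1 0, ?_, fun u h => ⟨0, h⟩, ?_, fun u v a b => ⟨0, a, b⟩, ?_, ?_, ?_, ?_⟩,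
    ⟨?_, ?_, ?_, ?_, ?_⟩, ⟨?_, ?_, ?_, ?_⟩, ?_, ?_⟩
  · rintro u ⟨n, h⟩
    exact (h1 (n + 1)).imp fun v hv => ⟨n, h, hv⟩
  · rintro u v ⟨n, -, h⟩
    exact ⟨_, h⟩
  · rintro u v w a ⟨n, -, b⟩
    constructor
    · rintro ⟨m, c, d⟩
      have := h2 _ _ _ a c
      have := h2 _ _ _ b d
      omega
    · rintro ⟨m, c, d⟩
      have := h2 _ _ _ a d
      have := h2 _ _ _ b c
      omega
  · rintro u v u' v' ⟨n, a, b⟩ ⟨m, c, d⟩
    constructor
    · rintro ⟨k, x, y⟩
      have := h2 _ _ _ b x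
      have := h2 _ _ _ d y
      obtain rfl : n = m := by omega
      exact ⟨n, a, c⟩
    · rintro ⟨k, x, y⟩
      obtain rfl := h2 _ _ _ a x
      obtain rfl := h2 _ _ _ c y
      exact ⟨_, b, d⟩
  · rintro u z ⟨_ | n, a⟩ b
    · exact Or.inl a
    · exact Or.inr ⟨0, n + 1, b, a, by omega⟩
  · rintro u v w ⟨n, m, a, b, c⟩ ⟨k, x, y⟩
    obtain rfl := h2 _ _ _ a x
    by_cases h : m = n + 1
    · exact Or.inl ⟨n, a, h ▸ b⟩
    · exact Or.inr ⟨n + 1, m, y, b, by omega⟩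
  · rintro l g ⟨n, a⟩
    obtain ⟨p, hp⟩ := he (el g)
    obtain ⟨l', b⟩ := h1 (n + p)
    refine ⟨l', ⟨_, b⟩, ⟨_, b, Or.inr ⟨p, by omega, hp⟩⟩, ?_⟩
    rintro h ⟨m, c, d⟩
    obtain rfl := h2 _ _ _ a c
    exact ⟨_, b, d.imp id fun ⟨q, x, y⟩ => ⟨q, by omega, y⟩⟩
  · rintro l u u' g h k ⟨n, m, a, b, c⟩ ⟨n', x, y⟩ ⟨m', z, w⟩ t
    obtain rfl := h2 _ _ _ a x
    obtain rfl := h2 _ _ _ b z
    refine ⟨n, m + 1, a, w, ?_⟩
    rw [pow_succ, ← show el g * el h = el k from t]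
    exact Set.mul_mem_mul c y
  · rintro l u u' g ⟨m, m', x, y, z⟩ ⟨n, k, a, b, c⟩
    obtain rfl := h2 _ _ _ x b
    exact ⟨n, m', a, y, Set.pow_subset_pow_right (s := ball e n) (Or.inl rfl) z.le c⟩
  · rintro l u ⟨n, a⟩ ⟨m, b⟩
    have hf : (ball e n).Finite := ((Set.finite_singleton 1).union
      ((Set.finite_Iic n).image e)).subset fun g hg => hg
    have hp : ∀ k : ℕ, (ball e n ^ k).Finite := fun k => by
      induction k with
      | zero => simp
      | succ k ih => rw [pow_succ]; exact ih.mul hf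
    obtain ⟨g, hg⟩ := (hp m).exists_notMem
    obtain ⟨o, rfl⟩ := hel g
    refine ⟨o, ?_⟩
    rintro ⟨n', m', x, y, z⟩
    obtain rfl := h2 _ _ _ a x
    obtain rfl := h2 _ _ _ b y
    exact hg z
  · rintro l z g ⟨n, a⟩ b c
    refine ⟨n, 0, a, b, ?_⟩
    rw [pow_zero, Set.mem_one]
    exact mul_eq_left.1 c
  · rintro u v w ⟨n, a⟩ b -
    constructor
    · rintro ⟨p, q, x, y, z⟩
      obtain rfl := h2 _ _ _ b y
      exact ⟨p, x, z⟩
    · rintro ⟨p, x, y⟩
      exact ⟨p, 0, x, b, y⟩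
  · rintro u v v' w' - - ⟨n, a, b⟩ -
    constructor
    · rintro ⟨p, q, x, y, z⟩
      obtain rfl := h2 _ _ _ b y
      obtain ⟨w, hw⟩ := h1 (p + n)
      exact ⟨w, ⟨_, hw⟩, ⟨p, n, x, a, hw⟩, _, hw, z⟩
    · rintro ⟨w, -, ⟨p, q, x, y, z⟩, k, s, t⟩
      obtain rfl := h2 _ _ _ a y
      obtain rfl := h2 _ _ _ z s
      exact ⟨p, n + 1, x, b, t⟩
  · rintro u v w ⟨n, a⟩ b -
    constructor
    · rintro ⟨p, q, x, y, z⟩
      obtain rfl := h2 _ _ _ b y
      exact z
    · intro x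
      exact ⟨n, 0, a, b, x⟩
  · rintro u v v' w' - - ⟨n, a, b⟩ -
    constructor
    · rintro ⟨p, q, x, y, z⟩
      obtain rfl := h2 _ _ _ b y
      obtain ⟨w, hw⟩ := h1 (p * n)
      exact ⟨w, ⟨_, hw⟩, ⟨p, n, x, a, hw⟩, _, _, hw, x, z⟩
    · rintro ⟨w, -, ⟨p, q, x, y, z⟩, k, k', s, t, r⟩
      obtain rfl := h2 _ _ _ a y
      obtain rfl := h2 _ _ _ z s
      obtain rfl := h2 _ _ _ x t
      exact ⟨p, n + 1, x, b, r⟩
  · rintro u ⟨n, a⟩
    obtain ⟨g, hg⟩ := hel (e n)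
    exact ⟨g, n, a, hg.symm⟩
  · intro g
    obtain ⟨n, hn⟩ := he (el g)
    obtain ⟨u, hu⟩ := h1 n
    exact ⟨u, ⟨n, hu⟩, n, hu, hn⟩

theorem stdRels_cd {O G : Type} [Group G] {cd : O → ℕ → Prop} {el : O → G} {e : ℕ → G}
    (h2 : ∀ u n m, cd u n → cd u m → n = m) (n : ℕ) (u : O) (h : (stdRels cd el e).num n u) :
    cd u n := by
  induction n generalizing u with
  | zero => exact h
  | succ n ih =>
    obtain ⟨v, a, m, b, c⟩ := h
    obtain rfl := h2 _ _ _ (ih v a) b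
    exact c

variable {G : Type} [Group G] [S : Srt Lgrp G ℕ] [Arith Lgrp G] {e : ℕ → G}

theorem dp_ball (he : DF Lgrp G e) : DP Lgrp G fun p : ℕ × G => p.2 ∈ ball e p.1 :=
  (DP.eq DF.snd0 (DF.const 1)).or (DP.ex (P := fun (p : ℕ × G) (q : ℕ) => q ≤ p.1 ∧ e q = p.2)
    ((DP.le DF.snd0 DF.fst0.fst).and (DP.eq (he.comp DF.snd0) DF.fst0.snd)))

theorem dp_ball_pow (hs : Function.Surjective e) (he : DF Lgrp G e) :
    DP Lgrp G fun p : (ℕ × ℕ) × G => p.2 ∈ ball e p.1.1 ^ p.1.2 := by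
  have : DP Lgrp G fun p : (ℕ × ℕ) × G => ∃ c : ℕ × ℕ, e (bt c 0) = 1 ∧
      (∀ i, i < p.1.2 → (e (bt c i))⁻¹ * e (bt c (i + 1)) ∈ ball e p.1.1) ∧
        e (bt c p.1.2) = p.2 := by
    refine DP.ex (P := fun (p : (ℕ × ℕ) × G) (c : ℕ × ℕ) => e (bt c 0) = 1 ∧
      (∀ i, i < p.1.2 → (e (bt c i))⁻¹ * e (bt c (i + 1)) ∈ ball e p.1.1) ∧
        e (bt c p.1.2) = p.2) ?_
    refine (DP.eq (he.comp (DF.snd0.bt (DF.const 0))) (DF.const 1)).and (DP.and ?_
      (DP.eq (he.comp (DF.snd0.bt DF.fst0.fst.snd)) DF.fst0.snd))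
    refine DP.all (P := fun (p : ((ℕ × ℕ) × G) × (ℕ × ℕ)) (i : ℕ) => i < p.1.1.2 →
      (e (bt p.2 i))⁻¹ * e (bt p.2 (i + 1)) ∈ ball e p.1.1.1) ?_
    exact (DP.lt DF.snd0 DF.fst0.fst.fst.snd).imp
      (DP.comp2 (P := fun (n : ℕ) (g : G) => g ∈ ball e n) (dp_ball he) DF.fst0.fst.fst.fst
        ((he.comp (DF.fst0.snd.bt DF.snd0)).ginv.gmul
          (he.comp (DF.fst0.snd.bt (DF.snd0.add (DF.const 1))))))
  refine this.congr ?_
  rintro ⟨⟨n, m⟩, g⟩
  dsimp only
  constructor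
  · rintro ⟨c, h0, h1, rfl⟩
    have : ∀ i, i ≤ m → e (bt c i) ∈ ball e n ^ i := by
      intro i
      induction i with
      | zero => intro _; rw [h0, pow_zero]; exact Set.mem_one.2 rfl
      | succ i ih =>
        intro hi
        rw [pow_succ, ← mul_inv_cancel_left (e (bt c i)) (e (bt c (i + 1)))]
        exact Set.mul_mem_mul (ih (by omega)) (h1 i (by omega))
    exact this m le_rfl
  · intro h
    have : ∀ m, ∀ g ∈ ball e n ^ m, ∃ s : ℕ → G, s 0 = 1 ∧
        (∀ i, i < m → (s i)⁻¹ * s (i + 1) ∈ ball e n) ∧ s m = g := by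
      intro m
      induction m with
      | zero => exact fun g hg => ⟨fun _ => 1, rfl, by omega, (Set.mem_one.1 (by simpa using hg)).symm⟩
      | succ m ih =>
        intro g hg
        rw [pow_succ] at hg
        obtain ⟨a, ha, b, hb, rfl⟩ := hg
        obtain ⟨s, s0, s1, rfl⟩ := ih a ha
        refine ⟨fun i => if i ≤ m then s i else s m * b, by simp [s0], fun i hi => ?_, by simp⟩
        by_cases c : i = m
        · subst c
          simpa using hb
        · dsimp only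
          rw [if_pos (by omega), if_pos (by omega)]
          exact s1 i (by omega)
    obtain ⟨s, s0, s1, s2⟩ := this m g h
    choose t ht using hs
    obtain ⟨c, hc⟩ := exists_bt (m + 1) fun i => t (s i)
    refine ⟨c, by rw [hc 0 (by omega), ht, s0], fun i hi => ?_, by rw [hc m (by omega), ht, s2]⟩
    rw [hc i (by omega), hc (i + 1) (by omega), ht, ht]
    exact s1 i hi

/-- The relations given by a family of ternary relations. -/
def relsOf {O : Type} (R : Fin 10 → O → O → O → Prop) (mu : O → O → O → Prop) : Rels O where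
  dm := fun u => R 0 u u u
  zr := fun u => R 1 u u u
  sc := fun u v => R 2 u v v
  lt := fun u v => R 3 u v v
  eq := fun u v => R 4 u v v
  ad := R 5
  ml := R 6
  ev := fun u v => R 7 u v v
  b1 := fun u v => R 8 u v v
  bl := R 9
  mu := mu

/-- The ternary relations given by a list of relations. -/
def Rels.tern {O : Type} (r : Rels O) : Fin 10 → O → O → O → Prop :=
  ![fun u _ _ => r.dm u, fun u _ _ => r.zr u, fun u v _ => r.sc u v, fun u v _ => r.lt u v,
    fun u v _ => r.eq u v, r.ad, r.ml, fun u v _ => r.ev u v, fun u v _ => r.b1 u v, r.bl]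

theorem dp_tern (hs : Function.Surjective e) (he : DF Lgrp G e) {O : Type} [Srt Lgrp G O]
    {cd : O → ℕ → Prop} (hcd : DP Lgrp G fun p : O × ℕ => cd p.1 p.2) {el : O → G}
    (hel : DF Lgrp G el) (i : Fin 10) :
    DP Lgrp G fun v : Fin 3 → O => (stdRels cd el e).tern i (v 0) (v 1) (v 2) := by
  have c : ∀ {W : Type} [Srt Lgrp G W] {a : W → O} {b : W → ℕ}, DF Lgrp G a → DF Lgrp G b →
      DP Lgrp G fun w => cd (a w) (b w) := fun ha hb => DP.comp2 (P := cd) hcd ha hb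
  have two : ∀ {P : (Fin 3 → O) → ℕ → ℕ → Prop},
      (DP Lgrp G fun p : ((Fin 3 → O) × ℕ) × ℕ => P p.1.1 p.1.2 p.2) →
      DP Lgrp G fun v => ∃ n m, P v n m := fun {P} h =>
    DP.ex (P := fun v n => ∃ m, P v n m) (DP.ex (P := fun (p : (Fin 3 → O) × ℕ) m =>
      P p.1 p.2 m) h)
  fin_cases i
  · exact DP.ex (P := fun (v : Fin 3 → O) n => cd (v 0) n) (c (DF.fst0.eval 0) DF.snd0)
  · exact c (DF.eval0 0) (DF.const 0)
  · exact DP.ex (P := fun (v : Fin 3 → O) n => cd (v 0) n ∧ cd (v 1) (n + 1))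
      ((c (DF.fst0.eval 0) DF.snd0).and (c (DF.fst0.eval 1) (DF.snd0.add (DF.const 1))))
  · exact two (P := fun v n m => cd (v 0) n ∧ cd (v 1) m ∧ n < m)
      ((c (DF.fst0.fst.eval 0) DF.fst0.snd).and ((c (DF.fst0.fst.eval 1) DF.snd0).and
        (DP.lt DF.fst0.snd DF.snd0)))
  · exact DP.ex (P := fun (v : Fin 3 → O) n => cd (v 0) n ∧ cd (v 1) n)
      ((c (DF.fst0.eval 0) DF.snd0).and (c (DF.fst0.eval 1) DF.snd0))
  · exact two (P := fun v n m => cd (v 0) n ∧ cd (v 1) m ∧ cd (v 2) (n + m))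
      ((c (DF.fst0.fst.eval 0) DF.fst0.snd).and ((c (DF.fst0.fst.eval 1) DF.snd0).and
        (c (DF.fst0.fst.eval 2) (DF.fst0.snd.add DF.snd0))))
  · exact two (P := fun v n m => cd (v 0) n ∧ cd (v 1) m ∧ cd (v 2) (n * m))
      ((c (DF.fst0.fst.eval 0) DF.fst0.snd).and ((c (DF.fst0.fst.eval 1) DF.snd0).and
        (c (DF.fst0.fst.eval 2) (DF.fst0.snd.mul DF.snd0))))
  · exact DP.ex (P := fun (v : Fin 3 → O) n => cd (v 0) n ∧ e n = el (v 1))
      ((c (DF.fst0.eval 0) DF.snd0).and (DP.eq (he.comp DF.snd0) (hel.comp (DF.fst0.eval 1))))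
  · exact DP.ex (P := fun (v : Fin 3 → O) n => cd (v 0) n ∧ el (v 1) ∈ ball e n)
      ((c (DF.fst0.eval 0) DF.snd0).and (DP.comp2 (P := fun (n : ℕ) (g : G) => g ∈ ball e n)
        (dp_ball he) DF.snd0 (hel.comp (DF.fst0.eval 1))))
  · exact two (P := fun v n m => cd (v 0) n ∧ cd (v 1) m ∧ el (v 2) ∈ ball e n ^ m)
      ((c (DF.fst0.fst.eval 0) DF.fst0.snd).and ((c (DF.fst0.fst.eval 1) DF.snd0).and
        (DP.comp2 (P := fun (n : ℕ × ℕ) (g : G) => g ∈ ball e n.1 ^ n.2) (dp_ball_pow hs he)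
          (DF.fst0.snd.pair DF.snd0) (hel.comp (DF.fst0.fst.eval 2)))))

theorem describe0 [Group.FG G] (hs : Function.Surjective e) (he : DF Lgrp G e)
    (hμ : DP Lar ℕ fun v : Fin 3 → ℕ => e (v 0) * e (v 1) = e (v 2))
    (L : FirstOrder.Language.{0, 0}) (st : ∀ (H : Type) [Group H], L.Structure H)
    (hmul : ∃ μ : L.Formula (Fin 3), ∀ (H : Type) [Group H] (v : Fin 3 → H),
      @Formula.Realize L H (st H) _ μ v ↔ v 0 * v 1 = v 2) (T : Finset G) :
    ∃ A : Finset G, T ⊆ A ∧ ∃ ψ : L.Formula A, @Formula.Realize L G (st G) _ ψ Subtype.val ∧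
      ∀ (H : Type) [Group H] [Group.FG H] (par : A → H), @Formula.Realize L H (st H) _ ψ par →
        ∃ f : H ≃* G, ∀ a, f (par a) = a := by
  classical
  let _ := st G
  obtain ⟨μ, hμ'⟩ := hmul
  have hm : DF L G fun p : G × G => p.1 * p.2 := by
    have : DP L G fun v : Fin 3 → G => v 0 * v 1 = v 2 :=
      (dp_base _).2 ((Set.empty_definable_iff.2 ⟨μ, Set.ext fun v => (hμ' G v).symm⟩).mono
        (Set.empty_subset _))
    exact this.comp (g := fun p : (G × G) × G => ![p.1.1, p.1.2, p.2]) (DF.pi fun i => by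
      fin_cases i
      · exact DF.fst0.fst
      · exact DF.fst0.snd
      · exact DF.snd0)
  have hf : ∀ (k : ℕ) (F : Lgrp.Functions k),
      DF L G fun v : Fin k → G => Structure.funMap F v := by
    intro k F
    cases F with
    | one => exact DF.const (1 : G)
    | inv =>
      exact (DF.of_graph (P := fun a b : G => a * b = 1) (DP.eq hm (DF.const 1)) fun a b =>
        ⟨fun h => inv_eq_of_mul_eq_one_right h, fun h => by rw [← h, mul_inv_cancel]⟩).comp
          (DF.eval0 0)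
    | mul => exact DF.comp2 (h := fun a b : G => a * b) hm (DF.eval0 0) (DF.eval0 1)
  let κ := Option S.ι
  let cd : (κ → G) → ℕ → Prop := fun o n => o ∘ some ∈ S.D ∧ S.F (o ∘ some) = n
  have c1 : ∀ n, ∃ u, cd u n := fun n => by
    obtain ⟨w, hw⟩ := S.surj n
    exact ⟨fun o => o.elim 1 w, hw⟩
  have c2 : ∀ u n m, cd u n → cd u m → n = m := fun u n m a b => a.2.symm.trans b.2
  have hinf : Infinite G := by
    by_contra hfin
    have := not_infinite_iff_finite.1 hfin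
    exact not_finite_iff_infinite.2 inferInstance (Finite.of_surjective
      (fun o : κ → G => S.F (o ∘ some)) fun n => (c1 n).imp fun u hu => hu.2)
  let r0 := stdRels cd (fun o => o none) e
  have hd : ∀ i : Fin 10, ∃ A : Finset G, (A : Set G).Definable L {w : Fin 3 × κ → G |
      r0.tern i (fun k => w (0, k)) (fun k => w (1, k)) (fun k => w (2, k))} := by
    intro i
    have h1 := (dp_tern hs he (cd := cd) (DP.comp2 (P := fun (u : S.ι → G) (n : ℕ) =>
      u ∈ S.D ∧ S.F u = n) dp_coord (DF.pi fun j => DF.fst0.eval (some j)) DF.snd0)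
      (DF.eval0 none) i).comp (g := fun (w : Fin 3 × κ → G) j k => w (j, k))
      (DF.pi fun j => DF.pi fun k => DF.eval0 (j, k))
    have h2 := (dp_base _).1 (pullback (L := L) (M := G) hf (fun _ r => Empty.elim r)
      ((dp_base _).1 h1))
    exact (Set.definable_iff_finitely_definable.1 h2).imp fun A h => h.2
  choose A0 hA0 using hd
  let A : Finset G := T ∪ Finset.univ.biUnion A0
  have hd' : ∀ i : Fin 10, ∃ φ : L.Formula (A ⊕ Fin 3 × κ), ∀ w : Fin 3 × κ → G,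
      φ.Realize (Sum.elim Subtype.val w) ↔
        r0.tern i (fun k => w (0, k)) (fun k => w (1, k)) (fun k => w (2, k)) := by
    intro i
    obtain ⟨φ, h⟩ := Set.definable_iff_exists_formula_sum.1 ((hA0 i).mono (B := (A : Set G))
      fun a ha => Finset.mem_union_right _ (Finset.mem_biUnion.2 ⟨i, Finset.mem_univ _, ha⟩))
    exact ⟨φ, fun w => (Set.ext_iff.1 h w).symm⟩
  choose φ hφ using hd'
  let R : ∀ c : Ctx A, Fin 10 → (κ → c.H) → (κ → c.H) → (κ → c.H) → Prop := fun c i a b d =>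
    @Formula.Realize L c.H (st c.H) _ (φ i) (Sum.elim c.par fun p => ![a, b, d] p.1 p.2)
  have hR : ∀ i, UP L st κ (Fin 3) fun c v => R c i (v 0) (v 1) (v 2) := fun i =>
    ⟨φ i, fun c v => by
      have : ![v 0, v 1, v 2] = v := by
        funext j
        fin_cases j <;> rfl
      simp only [R, this]⟩
  let r : ∀ c : Ctx A, Rels (κ → c.H) := fun c =>
    relsOf (R c) fun a b d => a none * b none = d none
  have hmu : UP L st κ (Fin 3) fun (c : Ctx A) v => v 0 none * v 1 none = v 2 none :=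
    ⟨μ.relabel fun j => Sum.inr (j, none), fun c v => by
      let _ := st c.H
      rw [Formula.realize_relabel]
      exact hμ' c.H _⟩
  have hr : URels L st r :=
    ⟨fun i => (hR 0).at3 i i i, fun i => (hR 1).at3 i i i, fun i j => (hR 2).at3 i j j,
      fun i j => (hR 3).at3 i j j, fun i j => (hR 4).at3 i j j, (hR 5).at3, (hR 6).at3,
      fun i j => (hR 7).at3 i j j, fun i j => (hR 8).at3 i j j, (hR 9).at3,
      UP.at3 (R := fun c a b d => a none * b none = d none) hmu⟩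
  let c0 : Ctx A := ⟨G, inferInstance, Subtype.val⟩
  have hr0 : r c0 = r0 := by
    have : R c0 = r0.tern := by
      funext i a b d
      exact propext (hφ i _)
    change relsOf (R c0) _ = _
    rw [this]
    rfl
  obtain ⟨ε, hε⟩ := Set.definable_iff_exists_formula_sum.1 ((dp_base _).1 hμ)
  obtain ⟨E, hE, hE'⟩ := hr.translate (α := Fin 3) (n := 0)
    (Formula.relabel (Sum.map Subtype.val id) ε)
  let tr : ∀ c : Ctx A, (κ → c.H) → (κ → c.H) → (κ → c.H) → Prop := fun c a b d =>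
    E c (Sum.elim ![a, b, d] Fin.elim0)
  have htr : ∀ {α : Type} (i j k : α), UP L st κ α fun c v => tr c (v i) (v j) (v k) :=
    fun i j k => (hE.re (Sum.elim ![i, j, k] Fin.elim0)).congr fun c v => by
      rw [iff_iff_eq]
      congr 1
      funext x
      rcases x with x | x
      · fin_cases x <;> rfl
      · exact x.elim0
  have htr' : ∀ c F, (r c).Good F → ∀ a b d, (r c).dm a → (r c).dm b → (r c).dm d →
      (tr c a b d ↔ e (F a) * e (F b) = e (F d)) := by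
    intro c F g a b d ha hb hd
    refine (hE' c F g _ ?_).trans ?_
    · rintro (x | x)
      · fin_cases x
        exacts [ha, hb, hd]
      · exact x.elim0
    · refine Iff.trans ?_ (Set.ext_iff.1 hε ![F a, F b, F d]).symm
      rw [Formula.boundedFormula_realize_eq_realize, Formula.realize_relabel, Set.mem_ofPred_eq,
        iff_iff_eq]
      congr 1
      funext x
      rcases x with x | x
      · rfl
      · fin_cases x <;> rfl
  choose t ht using hs
  obtain ⟨ψ, hψ⟩ : UP L st κ Empty fun (c : Ctx A) _ => (r c).Ax ∧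
      (∀ u v w g h k, (r c).dm u → (r c).dm v → (r c).dm w → (r c).ev u g → (r c).ev v h →
        (r c).ev w k → ((r c).mu g h k ↔ tr c u v w)) ∧
      ∀ a : A, ∃ u o, (r c).num (t a) u ∧ (r c).ev u o ∧ o none = c.par a := by
    refine (hr.ax _).and (UP.and ?_ (UP.all_fin fun a => UP.ex (UP.ex
      ((hr.num _ (some none)).and ((hr.ev (some none) none).and (UP.par a none none))))))
    repeat' first
      | exact hr.dm _ | exact hr.ev _ _ | exact hr.mu _ _ _ | exact htr _ _ _ | apply UP.iff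
      | apply UP.imp' | apply UP.all
  have key : ∀ (c : Ctx A), @Formula.Realize L c.H (st c.H) _
      (ψ.relabel (Sum.elim id fun p => p.1.elim)) c.par ↔ @Formula.Realize L c.H (st c.H) _ ψ
        (Sum.elim c.par fun p => (Empty.elim : Empty → κ → c.H) p.1 p.2) := fun c => by
    let _ := st c.H
    rw [Formula.realize_relabel, iff_iff_eq]
    congr 1
    funext x
    rcases x with x | ⟨x, _⟩
    · rfl
    · exact x.elim
  have surj : ∀ H : Type, Function.Surjective fun o : κ → H => o none := fun H g =>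
    ⟨fun _ => g, rfl⟩
  refine ⟨A, Finset.subset_union_left, ψ.relabel (Sum.elim id fun p => p.1.elim), ?_, ?_⟩
  · have ax : (r c0).Ax := hr0 ▸ stdRels_ax c1 c2 (surj G) fun g => ⟨t g, ht g⟩
    obtain ⟨F, g⟩ := ax.good (surj G) fun _ _ _ => Iff.rfl
    have hF : ∀ u n, cd u n → F u = n := fun u n h =>
      c2 u _ _ (stdRels_cd c2 _ _ (hr0 ▸ (g.num _ u).2 ⟨hr0 ▸ ⟨n, h⟩, rfl⟩)) h
    refine ((key c0).trans (hψ c0 _)).2 ⟨ax, fun u v w x y z hu hv hw => ?_, fun a => ?_⟩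
    · rw [htr' c0 F g u v w hu hv hw, hr0]
      rintro ⟨n, a1, a2⟩ ⟨m, b1, b2⟩ ⟨k, d1, d2⟩
      rw [hF u n a1, hF v m b1, hF w k d1, a2, b2, d2]
      rfl
    · obtain ⟨u, hu⟩ := c1 (t a)
      exact ⟨u, fun _ => a, (g.num _ u).2 ⟨hr0 ▸ ⟨_, hu⟩, hF u _ hu⟩, hr0 ▸ ⟨_, hu, ht a⟩, rfl⟩
  · intro H _ _ par h
    let c : Ctx A := ⟨H, inferInstance, par⟩
    obtain ⟨ax, h1, h2⟩ := ((key c).trans (hψ c _)).1 h
    obtain ⟨F, g⟩ := ax.good (surj H) fun _ _ _ => Iff.rfl
    let Q : H → G → Prop := fun x a => ∃ u o, (r c).dm u ∧ (r c).ev u o ∧ o none = x ∧ e (F u) = a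
    have q1 : ∀ x, ∃ a, Q x a := fun x => by
      obtain ⟨u, a, b⟩ := ax.2.2.2.2 fun _ => x
      exact ⟨_, u, _, a, b, rfl, rfl⟩
    have q2 : ∀ a, ∃ x, Q x a := fun a => by
      obtain ⟨u, hu, eu⟩ := g.surj (t a)
      obtain ⟨o, ho⟩ := ax.2.2.2.1 u hu
      exact ⟨_, u, o, hu, ho, rfl, by rw [eu, ht]⟩
    have q3 : ∀ x y z a b d, Q x a → Q y b → Q z d → (x * y = z ↔ a * b = d) := by
      rintro _ _ _ _ _ _ ⟨u, x, a1, a2, rfl, rfl⟩ ⟨v, y, b1, b2, rfl, rfl⟩ ⟨w, z, d1, d2, rfl, rfl⟩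
      exact (h1 u v w x y z a1 b1 d1 a2 b2 d2).trans (htr' c F g u v w a1 b1 d1)
    choose f hf using q1
    let f' : H →* G := MonoidHom.mk' f fun x y => ((q3 _ _ _ _ _ _ (hf x) (hf y) (hf _)).1 rfl).symm
    have f1 : f 1 = 1 := map_one f'
    have q4 : ∀ x a, Q x a → f x = a := fun x a h => by
      have := (q3 _ _ _ _ _ _ h (hf 1) (hf x)).1 (mul_one x)
      rw [f1, mul_one] at this
      exact this.symm
    refine ⟨MulEquiv.ofBijective f' ⟨fun x y e => ?_, fun a => (q2 a).imp fun x => q4 x a⟩,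
      fun a => ?_⟩
    · have := (q3 _ _ _ _ _ _ (hf x) (hf 1) (hf y)).2 (by rw [f1, mul_one]; exact e)
      rwa [mul_one] at this
    · obtain ⟨u, o, a1, a2, a3⟩ := h2 a
      obtain ⟨a4, a5⟩ := (g.num _ u).1 a1
      exact q4 _ _ ⟨u, o, a4, a2, a3, by rw [a5, ht]⟩

end Pool.Agent.H197Z.Bi
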