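import Pool.Agent.H197Z.EndDesc

/-!
Finitely generated groups bi-interpretable with arithmetic are quasi-finitely axiomatizable, prime
and homogeneous.
-/

set_option autoImplicit false
set_option linter.unusedSectionVars false

namespace Pool.Agent.H197Z.Bi

open FirstOrder FirstOrder.Language Pool.Agent.H146Z.BiDefs

theorem srt_of_isInterp {L L' : FirstOrder.Language.{0, 0}} {M N : Type} [L.Structure M]
    [L'.Structure N] {n : ℕ} {D : Set (Fin n → M)} {f : (Fin n → M) → N}
    (h : IsInterp L L' M N n D f) : ∃ _ : Srt L M N,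
      (DP L M fun p : (Fin n → M) × N => p.1 ∈ D ∧ f p.1 = p.2) ∧
      ∀ (k : ℕ) (F : L'.Functions k), DF L M fun v : Fin k → N => Structure.funMap F v := by
  let S : Srt L M N := ⟨Fin n, inferInstance, D, f, h.dom, h.surj,
    h.ker.preimage_comp fun p : Fin 2 × Fin n => ![Sum.inl p.2, Sum.inr p.2] p.1⟩
  have hG : DP L M fun p : (Fin n → M) × N => p.1 ∈ D ∧ f p.1 = p.2 := dp_coord (S := S)
  have G : ∀ {W : Type} [Srt L M W] {a : W → Fin n → M} {b : W → N}, DF L M a → DF L M b →
      DP L M fun w => a w ∈ D ∧ f (a w) = b w := fun ha hb =>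
    DP.comp2 (P := fun (u : Fin n → M) (y : N) => u ∈ D ∧ f u = y) hG ha hb
  refine ⟨S, hG, fun k F => DF.of_graph (P := fun (v : Fin k → N) (y : N) =>
    ∃ w : Option (Fin k) × Fin n → M, (∀ j, row w (some j) ∈ D ∧ f (row w (some j)) = v j) ∧
      (row w none ∈ D ∧ f (row w none) = y) ∧ ((∀ j, row w j ∈ D) ∧
        Structure.funMap F (fun j => f (row w (some j))) = f (row w none))) ?_ fun v y => ?_⟩
  · refine DP.ex (P := fun (p : (Fin k → N) × N) (w : Option (Fin k) × Fin n → M) =>
      (∀ j, row w (some j) ∈ D ∧ f (row w (some j)) = p.1 j) ∧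
      (row w none ∈ D ∧ f (row w none) = p.2) ∧ ((∀ j, row w j ∈ D) ∧
        Structure.funMap F (fun j => f (row w (some j))) = f (row w none))) ?_
    exact (DP.all_fin fun j => G ((DF.row (some j)).comp DF.snd0) (DF.fst0.fst.eval j)).and
      ((G ((DF.row none).comp DF.snd0) DF.fst0.snd).and ((dp_base _).2 (h.func k F)).snd)
  · constructor
    · rintro ⟨w, a, b, -, c⟩
      rw [← b.2, ← c]
      congr 1
      exact funext fun j => (a j).2.symm
    · rintro rfl
      choose s hs hs' using h.surj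
      refine ⟨fun p => p.1.elim (s (Structure.funMap F v)) (fun j => s (v j)) p.2,
        fun j => ⟨hs _, hs' _⟩, ⟨hs _, hs' _⟩, ?_, ?_⟩
      · rintro (_ | j) <;> exact hs _
      · change Structure.funMap F (fun j => f (s (v j))) = f (s _)
        simp only [hs']

theorem df_unpair {L : FirstOrder.Language.{0, 0}} {M : Type} [L.Structure M] [Srt L M ℕ]
    [Arith L M] : DF L M Nat.unpair := by
  refine DF.of_graph (P := fun (n : ℕ) (p : ℕ × ℕ) => (p.1 < p.2 ∧ n = p.2 * p.2 + p.1) ∨
    (¬ p.1 < p.2 ∧ n = p.1 * p.1 + p.1 + p.2)) ?_ fun n p => ?_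
  · exact ((DP.lt DF.snd0.fst DF.snd0.snd).and (DP.eq DF.fst0
      ((DF.snd0.snd.mul DF.snd0.snd).add DF.snd0.fst))).or
      ((DP.lt DF.snd0.fst DF.snd0.snd).not.and (DP.eq DF.fst0
        (((DF.snd0.fst.mul DF.snd0.fst).add DF.snd0.fst).add DF.snd0.snd)))
  · have : Nat.unpair n = p ↔ n = Nat.pair p.1 p.2 :=
      ⟨fun h => by rw [← h, Nat.pair_unpair], fun h => by rw [h, Nat.unpair_pair]⟩
    rw [this, Nat.pair]
    split_ifs with h <;> simp [h]

open Classical in
theorem df_enum {L : FirstOrder.Language.{0, 0}} {M G : Type} [L.Structure M] [Group G]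
    [Srt L M ℕ] [Arith L M] [Srt L M G] {m : ℕ} {D : Set (Fin m → ℕ)} {g : (Fin m → ℕ) → G}
    (h : DP L M fun p : (Fin m → ℕ) × G => p.1 ∈ D ∧ g p.1 = p.2) :
    DF L M fun k : ℕ => if tup m k.unpair 0 ∈ D then g (tup m k.unpair 0) else 1 := by
  have hd : DF L M fun k : ℕ => tup m k.unpair 0 := DF.tup m df_unpair (DF.const 0)
  have h1 : DP L M fun v : Fin m → ℕ => v ∈ D :=
    (DP.ex (P := fun (v : Fin m → ℕ) (a : G) => v ∈ D ∧ g v = a) h).congr fun v => by simp
  refine DF.of_graph (P := fun (k : ℕ) (a : G) => (tup m k.unpair 0 ∈ D ∧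
    g (tup m k.unpair 0) = a) ∨ (¬ tup m k.unpair 0 ∈ D ∧ 1 = a))
    ((DP.comp2 (P := fun (v : Fin m → ℕ) (a : G) => v ∈ D ∧ g v = a) h (hd.comp DF.fst0)
      DF.snd0).or ((h1.comp (hd.comp DF.fst0)).not.and (DP.eq (DF.const 1) DF.snd0)))
    fun k a => ?_
  split_ifs with c <;> simp [c]

variable {G : Type} [Group G] [Group.FG G]

theorem describe (h : BiInterp Lgrp Lar G ℕ)
    (L : FirstOrder.Language.{0, 0}) (st : ∀ (H : Type) [Group H], L.Structure H)
    (hmul : ∃ μ : L.Formula (Fin 3), ∀ (H : Type) [Group H] (v : Fin 3 → H),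
      @Formula.Realize L H (st H) _ μ v ↔ v 0 * v 1 = v 2) (T : Finset G) :
    ∃ A : Finset G, T ⊆ A ∧ ∃ ψ : L.Formula A, @Formula.Realize L G (st G) _ ψ Subtype.val ∧
      ∀ (H : Type) [Group H] [Group.FG H] (par : A → H), @Formula.Realize L H (st H) _ ψ par →
        ∃ f : H ≃* G, ∀ a, f (par a) = a := by
  classical
  obtain ⟨n, D, f, m, D', g, I1, I2, C1, -⟩ := h
  obtain ⟨_, hG, hf⟩ := srt_of_isInterp I1
  obtain ⟨_, hG', hf'⟩ := srt_of_isInterp I2
  have two : ∀ {L : FirstOrder.Language.{0, 0}} {M X : Type} [L.Structure M] [Srt L M X],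
      DF L M fun p : X × X => ![p.1, p.2] := DF.pi fun i => by
    fin_cases i
    · exact DF.fst0
    · exact DF.snd0
  have : Arith Lgrp G := ⟨(hf 2 ArFunc.add).comp two, (hf 2 ArFunc.mul).comp two⟩
  have hm : DF Lar ℕ fun p : G × G => p.1 * p.2 := (hf' 2 GrpFunc.mul).comp two
  have hg : DP Lgrp G fun p : (Fin m → ℕ) × G => p.1 ∈ D' ∧ g p.1 = p.2 := by
    refine (DP.ex (P := fun (p : (Fin m → ℕ) × G) (w : Option (Fin m × Fin n) → G) =>
      (∀ j, row (w ∘ some) j ∈ D ∧ f (row (w ∘ some) j) = p.1 j) ∧ w none = p.2 ∧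
        w ∈ compGraph D f D' g) ((DP.all_fin fun j =>
          DP.comp2 (P := fun (u : Fin n → G) (y : ℕ) => u ∈ D ∧ f u = y) hG
            (DF.pi fun i => DF.snd0.eval (some (j, i))) (DF.fst0.fst.eval j)).and
          ((DP.eq (DF.snd0.eval none) DF.fst0.snd).and ((dp_base _).2 C1).snd))).congr fun p => ?_
    constructor
    · rintro ⟨w, a, b, -, c, d⟩
      rw [show (fun j => f (row (w ∘ some) j)) = p.1 from funext fun j => (a j).2] at c d
      exact ⟨c, d.trans b⟩
    · rintro ⟨a, b⟩
      choose s hs hs' using I1.surj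
      refine ⟨fun o => o.elim p.2 fun q => s (p.1 q.1) q.2, fun j => ⟨hs (p.1 j), hs' (p.1 j)⟩, rfl,
        fun j => hs (p.1 j), ?_, ?_⟩
      · change (fun j => f (s (p.1 j))) ∈ D'
        simpa only [hs'] using a
      · change g (fun j => f (s (p.1 j))) = p.2
        simpa only [hs'] using b
  have he' := df_enum hG'
  refine describe0 (fun a => ?_) (df_enum hg) (DP.eq (DF.comp2 (h := fun a b : G => a * b) hm
    (he'.comp (DF.eval0 0)) (he'.comp (DF.eval0 1))) (he'.comp (DF.eval0 2))) L st hmul T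
  obtain ⟨v, hv, rfl⟩ := I2.surj a
  obtain ⟨c, hc⟩ := exists_tup m 1 fun _ => v
  exact ⟨Nat.pair c.1 c.2, by simp [hc 0 one_pos, hv]⟩

theorem qfa_of_biInterp (h : BiInterp Lgrp Lar G ℕ) :
    ∃ φ : FirstOrder.Language.Sentence
        (⟨fun k => if k = 2 then Unit else Empty, fun _ => Empty⟩ : FirstOrder.Language.{0, 0}),
      @FirstOrder.Language.Sentence.Realize
          (⟨fun k => if k = 2 then Unit else Empty, fun _ => Empty⟩ : FirstOrder.Language.{0, 0})
          G { funMap := fun _ xs => (List.ofFn xs).prod, RelMap := fun _ _ => False } φ ∧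
      ∀ (H : Type) [Group H], Group.FG H →
        @FirstOrder.Language.Sentence.Realize
            (⟨fun k => if k = 2 then Unit else Empty, fun _ => Empty⟩ : FirstOrder.Language.{0, 0})
            H { funMap := fun _ xs => (List.ofFn xs).prod, RelMap := fun _ _ => False } φ →
          Nonempty (H ≃* G) := by
  let L : FirstOrder.Language.{0, 0} := ⟨fun k => if k = 2 then Unit else Empty, fun _ => Empty⟩
  let st : ∀ (H : Type) [Group H], L.Structure H := fun H _ =>
    { funMap := fun _ xs => (List.ofFn xs).prod, RelMap := fun _ _ => False }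
  obtain ⟨A, -, ψ, h1, h2⟩ := describe h L st ⟨Term.equal (Term.func (l := 2) ()
    ![Term.var 0, Term.var 1]) (Term.var 2), fun H _ v => by
      let _ := st H
      rw [Formula.realize_equal]
      change (List.ofFn _).prod = v 2 ↔ _
      simp⟩ ∅
  have key : ∀ (H : Type) [Group H], @Sentence.Realize L H (st H)
      ((ψ.relabel Sum.inr).iExs A) ↔ ∃ par, @Formula.Realize L H (st H) _ ψ par := by
    intro H _
    let _ := st H
    refine Formula.realize_iExs.trans (exists_congr fun par => ?_)
    rw [Formula.realize_relabel, Sum.elim_comp_inr]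
  refine ⟨(ψ.relabel Sum.inr).iExs A, (key G).2 ⟨_, h1⟩, fun H _ _ h => ?_⟩
  obtain ⟨par, hp⟩ := (key H).1 h
  exact (h2 H par hp).elim fun f _ => ⟨f⟩

theorem prime_of_biInterp (h : BiInterp Lgrp Lar G ℕ) :
    ∀ (L : FirstOrder.Language.{0, 0}), L = ⟨fun _ => Unit, fun _ => Empty⟩ →
    ∀ [S : L.Structure G], S = ⟨fun _ x => (List.ofFn x).prod, fun _ _ => False⟩ →
    ∀ (N : Type) [L.Structure N], N ⊨ L.completeTheory G → Nonempty (G ↪ₑ[L] N) := by
  classical
  rintro L hL S rfl N _ hN
  let st : ∀ (H : Type) [Group H], L.Structure H := fun H _ =>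
    ⟨fun _ x => (List.ofFn x).prod, fun _ _ => False⟩
  let _ := st G
  have F2 : L.Functions 2 := by rw [hL]; exact ()
  have F0 : L.Functions 0 := by rw [hL]; exact ()
  obtain ⟨T, hT⟩ := (inferInstance : Monoid.FG G).fg_top
  obtain ⟨A, hA, ψ, h1, h2⟩ := describe h L st ⟨Term.equal (Term.func F2
    ![Term.var 0, Term.var 1]) (Term.var 2), fun H _ v => by
      let _ := st H
      rw [Formula.realize_equal]
      change (List.ofFn _).prod = v 2 ↔ _
      simp⟩ T
  have tr : ∀ σ : L.Sentence, G ⊨ σ → N ⊨ σ := fun σ hσ =>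
    Theory.realize_sentence_of_mem (L.completeTheory G) hσ
  obtain ⟨par, hp⟩ := Formula.realize_iExs.1 (tr ((ψ.relabel Sum.inr).iExs A)
    (Formula.realize_iExs.2 ⟨Subtype.val, by rwa [Formula.realize_relabel, Sum.elim_comp_inr]⟩))
  rw [Formula.realize_relabel, Sum.elim_comp_inr] at hp
  have typ : ∀ θ : L.Formula A, θ.Realize (Subtype.val : A → G) → θ.Realize par := by
    intro θ hθ
    have := Formula.realize_iAlls.1 (tr (((ψ.imp θ).relabel Sum.inr).iAlls A)
      (Formula.realize_iAlls.2 fun v => by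
        rw [Formula.realize_relabel, Formula.realize_imp]
        intro hv
        obtain ⟨f, hf⟩ := h2 G v hv
        let f' : G ≃[L] G :=
          { toEquiv := f.toEquiv
            map_fun' := fun _ x => by
              change f (List.ofFn x).prod = (List.ofFn (f ∘ x)).prod
              rw [map_list_prod, List.map_ofFn]
            map_rel' := fun _ _ => Iff.rfl }
        refine (StrongHomClass.realize_formula f' θ).1 ?_
        change θ.Realize (f' ∘ v)
        rwa [show f' ∘ v = Subtype.val from funext hf])) par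
    rw [Formula.realize_relabel, Formula.realize_imp] at this
    exact this hp
  have ht : ∀ g : G, ∃ t : L.Term A, t.realize Subtype.val = g := by
    intro g
    have : g ∈ Submonoid.closure (T : Set G) := by rw [hT]; trivial
    induction this using Submonoid.closure_induction with
    | mem a ha => exact ⟨Term.var ⟨a, hA ha⟩, rfl⟩
    | one => exact ⟨Term.func F0 ![], rfl⟩
    | mul a b _ _ ha hb =>
      obtain ⟨s, rfl⟩ := ha
      obtain ⟨t, rfl⟩ := hb
      refine ⟨Term.func F2 ![s, t], ?_⟩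
      change (List.ofFn _).prod = _
      simp
  choose t ht using ht
  refine ⟨⟨fun g => (t g).realize par, fun n φ x => ?_⟩⟩
  have e1 : Formula.Realize (BoundedFormula.subst φ fun i => t (x i)) (Subtype.val : A → G) ↔
      φ.Realize x := by
    refine BoundedFormula.realize_subst.trans ?_
    simp only [ht]
    rfl
  have e2 : Formula.Realize (BoundedFormula.subst φ fun i => t (x i)) par ↔
      φ.Realize ((fun g => (t g).realize par) ∘ x) := BoundedFormula.realize_subst
  rw [← e1, ← e2]
  exact ⟨fun a => by_contra fun b =>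
    Formula.realize_not.1 (typ _ (Formula.realize_not.2 b)) a, typ _⟩

theorem homog_of_biInterp (h : BiInterp Lgrp Lar G ℕ) (m : ℕ) (μ₁ μ₂ : Fin m → G)
    (hμ : ∀ φ : (FirstOrder.Language.mk (fun _ => Bool) (fun _ => Empty)).Formula (Fin m),
      (@FirstOrder.Language.Formula.Realize
          (FirstOrder.Language.mk (fun _ => Bool) (fun _ => Empty)) G
          ({ funMap := fun b xs => cond b (List.ofFn xs).prod ((List.ofFn xs).prod)⁻¹,
             RelMap := fun r _ => Empty.elim r } :
            (FirstOrder.Language.mk (fun _ => Bool) (fun _ => Empty)).Structure G)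
          (Fin m) φ μ₁ ↔
       @FirstOrder.Language.Formula.Realize
          (FirstOrder.Language.mk (fun _ => Bool) (fun _ => Empty)) G
          ({ funMap := fun b xs => cond b (List.ofFn xs).prod ((List.ofFn xs).prod)⁻¹,
             RelMap := fun r _ => Empty.elim r } :
            (FirstOrder.Language.mk (fun _ => Bool) (fun _ => Empty)).Structure G)
          (Fin m) φ μ₂)) :
    ∃ σ : G ≃* G, ∀ i, σ (μ₁ i) = μ₂ i := by
  classical
  let L : FirstOrder.Language.{0, 0} := FirstOrder.Language.mk (fun _ => Bool) (fun _ => Empty)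
  let st : ∀ (H : Type) [Group H], L.Structure H := fun H _ =>
    { funMap := fun b xs => cond b (List.ofFn xs).prod ((List.ofFn xs).prod)⁻¹,
      RelMap := fun r _ => Empty.elim r }
  let _ := st G
  obtain ⟨A, hA, ψ, h1, h2⟩ := describe h L st ⟨Term.equal (Term.func (l := 2) true
    ![Term.var 0, Term.var 1]) (Term.var 2), fun H _ v => by
      let _ := st H
      rw [Formula.realize_equal]
      change (List.ofFn _).prod = v 2 ↔ _
      simp⟩ (Finset.univ.image μ₁)
  let a : Fin m → A := fun i => ⟨μ₁ i, hA (Finset.mem_image_of_mem _ (Finset.mem_univ i))⟩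
  let φ : L.Formula (Fin m) := (ψ.relabel Sum.inr ⊓ Formula.iInf fun i : Fin m =>
    Term.equal (Term.var (Sum.inr (a i))) (Term.var (Sum.inl i))).iExs A
  have key : ∀ v : Fin m → G, φ.Realize v ↔ ∃ par : A → G, ψ.Realize par ∧
      ∀ i, par (a i) = v i := fun v => by
    refine Formula.realize_iExs.trans (exists_congr fun par => ?_)
    rw [Formula.realize_inf, Formula.realize_relabel, Sum.elim_comp_inr, Formula.realize_iInf]
    rfl
  obtain ⟨par, hp, e⟩ := (key μ₂).1 ((hμ φ).1 ((key μ₁).2 ⟨_, h1, fun _ => rfl⟩))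
  obtain ⟨f, hf⟩ := h2 G par hp
  exact ⟨f.symm, fun i => by rw [← e, MulEquiv.symm_apply_eq, hf]⟩

end Pool.Agent.H197Z.Bi
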