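import Mathlib

/-!
A twelve dimensional local symmetric algebra `k ⊕ V ⊕ V* ⊕ k` built from a cyclically invariant
trilinear form on a five dimensional space `V`.
Coordinates: `0` is the unit, `1..5` are `u, p, q, r, t` (degree one), `6..10` the dual basis
(degree two), `11` the socle.
The cyclic words of the form are `uuu, urp, utq, ppr, qqt, rpt, tqr`.
-/

set_option autoImplicit false
set_option linter.unusedSectionVars false

namespace Pool.Agent.H197Z.Rigid

open MulOpposite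

/-- The underlying space. -/
def Alg (k : Type*) : Type _ := Fin 12 → k

variable {k : Type*} [Field k]

instance : AddCommGroup (Alg k) := Pi.addCommGroup
instance : Module k (Alg k) := Pi.module _ _ _
instance : FiniteDimensional k (Alg k) := inferInstanceAs (FiniteDimensional k (Fin 12 → k))

/-- The product. -/
def mul (x y : Alg k) : Alg k :=
  ![x 0 * y 0,
    x 0 * y 1 + x 1 * y 0,
    x 0 * y 2 + x 2 * y 0,
    x 0 * y 3 + x 3 * y 0,
    x 0 * y 4 + x 4 * y 0,
    x 0 * y 5 + x 5 * y 0,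
    x 0 * y 6 + x 6 * y 0 + (x 1 * y 1 + x 4 * y 2 + x 5 * y 3),
    x 0 * y 7 + x 7 * y 0 + (x 1 * y 4 + x 2 * y 4 + x 4 * y 2 + x 5 * y 4),
    x 0 * y 8 + x 8 * y 0 + (x 1 * y 5 + x 3 * y 5 + x 5 * y 3 + x 4 * y 5),
    x 0 * y 9 + x 9 * y 0 + (x 2 * y 1 + x 2 * y 2 + x 2 * y 5 + x 5 * y 3),
    x 0 * y 10 + x 10 * y 0 + (x 3 * y 1 + x 3 * y 3 + x 4 * y 2 + x 3 * y 4),
    x 0 * y 11 + x 11 * y 0 + (x 1 * y 6 + x 2 * y 7 + x 3 * y 8 + x 4 * y 9 + x 5 * y 10)
      + (x 6 * y 1 + x 7 * y 2 + x 8 * y 3 + x 9 * y 4 + x 10 * y 5)]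

instance : Mul (Alg k) := ⟨mul⟩
instance : One (Alg k) := ⟨![1, 0, 0, 0, 0, 0, 0, 0, 0, 0, 0, 0]⟩

theorem ext12 {x y : Alg k} (h0 : x 0 = y 0) (h1 : x 1 = y 1) (h2 : x 2 = y 2) (h3 : x 3 = y 3)
    (h4 : x 4 = y 4) (h5 : x 5 = y 5) (h6 : x 6 = y 6) (h7 : x 7 = y 7) (h8 : x 8 = y 8)
    (h9 : x 9 = y 9) (h10 : x 10 = y 10) (h11 : x 11 = y 11) : x = y := by
  funext i
  fin_cases i <;> assumption

@[simp] theorem add_ap (x y : Alg k) (i : Fin 12) : (x + y) i = x i + y i := rfl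
@[simp] theorem sub_ap (x y : Alg k) (i : Fin 12) : (x - y) i = x i - y i := rfl
@[simp] theorem neg_ap (x : Alg k) (i : Fin 12) : (-x) i = - x i := rfl
@[simp] theorem zero_ap (i : Fin 12) : (0 : Alg k) i = 0 := rfl
@[simp] theorem smul_ap (c : k) (x : Alg k) (i : Fin 12) : (c • x) i = c * x i := rfl

@[simp] theorem one0 : (1 : Alg k) 0 = 1 := rfl
@[simp] theorem one1 : (1 : Alg k) 1 = 0 := rfl
@[simp] theorem one2 : (1 : Alg k) 2 = 0 := rfl
@[simp] theorem one3 : (1 : Alg k) 3 = 0 := rfl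
@[simp] theorem one4 : (1 : Alg k) 4 = 0 := rfl
@[simp] theorem one5 : (1 : Alg k) 5 = 0 := rfl
@[simp] theorem one6 : (1 : Alg k) 6 = 0 := rfl
@[simp] theorem one7 : (1 : Alg k) 7 = 0 := rfl
@[simp] theorem one8 : (1 : Alg k) 8 = 0 := rfl
@[simp] theorem one9 : (1 : Alg k) 9 = 0 := rfl
@[simp] theorem one10 : (1 : Alg k) 10 = 0 := rfl
@[simp] theorem one11 : (1 : Alg k) 11 = 0 := rfl

theorem mul0 (x y : Alg k) : (x * y) 0 = x 0 * y 0 := rfl
theorem mul1 (x y : Alg k) : (x * y) 1 = x 0 * y 1 + x 1 * y 0 := rfl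
theorem mul2 (x y : Alg k) : (x * y) 2 = x 0 * y 2 + x 2 * y 0 := rfl
theorem mul3 (x y : Alg k) : (x * y) 3 = x 0 * y 3 + x 3 * y 0 := rfl
theorem mul4 (x y : Alg k) : (x * y) 4 = x 0 * y 4 + x 4 * y 0 := rfl
theorem mul5 (x y : Alg k) : (x * y) 5 = x 0 * y 5 + x 5 * y 0 := rfl
theorem mul6 (x y : Alg k) : (x * y) 6 =
    x 0 * y 6 + x 6 * y 0 + (x 1 * y 1 + x 4 * y 2 + x 5 * y 3) := rfl
theorem mul7 (x y : Alg k) : (x * y) 7 =
    x 0 * y 7 + x 7 * y 0 + (x 1 * y 4 + x 2 * y 4 + x 4 * y 2 + x 5 * y 4) := rfl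
theorem mul8 (x y : Alg k) : (x * y) 8 =
    x 0 * y 8 + x 8 * y 0 + (x 1 * y 5 + x 3 * y 5 + x 5 * y 3 + x 4 * y 5) := rfl
theorem mul9 (x y : Alg k) : (x * y) 9 =
    x 0 * y 9 + x 9 * y 0 + (x 2 * y 1 + x 2 * y 2 + x 2 * y 5 + x 5 * y 3) := rfl
theorem mul10 (x y : Alg k) : (x * y) 10 =
    x 0 * y 10 + x 10 * y 0 + (x 3 * y 1 + x 3 * y 3 + x 4 * y 2 + x 3 * y 4) := rfl
theorem mul11 (x y : Alg k) : (x * y) 11 =
    x 0 * y 11 + x 11 * y 0 + (x 1 * y 6 + x 2 * y 7 + x 3 * y 8 + x 4 * y 9 + x 5 * y 10)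
      + (x 6 * y 1 + x 7 * y 2 + x 8 * y 3 + x 9 * y 4 + x 10 * y 5) := rfl

instance : Ring (Alg k) :=
  { (inferInstance : AddCommGroup (Alg k)), (inferInstance : Mul (Alg k)),
    (inferInstance : One (Alg k)) with
    left_distrib := fun a b c => by
      apply ext12 <;>
        simp only [mul0, mul1, mul2, mul3, mul4, mul5, mul6, mul7, mul8, mul9, mul10, mul11,
          add_ap] <;> ring
    right_distrib := fun a b c => by
      apply ext12 <;>
        simp only [mul0, mul1, mul2, mul3, mul4, mul5, mul6, mul7, mul8, mul9, mul10, mul11,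
          add_ap] <;> ring
    zero_mul := fun a => by
      apply ext12 <;>
        simp only [mul0, mul1, mul2, mul3, mul4, mul5, mul6, mul7, mul8, mul9, mul10, mul11,
          zero_ap] <;> ring
    mul_zero := fun a => by
      apply ext12 <;>
        simp only [mul0, mul1, mul2, mul3, mul4, mul5, mul6, mul7, mul8, mul9, mul10, mul11,
          zero_ap] <;> ring
    mul_assoc := fun a b c => by
      apply ext12 <;>
        simp only [mul0, mul1, mul2, mul3, mul4, mul5, mul6, mul7, mul8, mul9, mul10, mul11] <;>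
        ring
    one_mul := fun a => by
      apply ext12 <;>
        simp [mul0, mul1, mul2, mul3, mul4, mul5, mul6, mul7, mul8, mul9, mul10, mul11]
    mul_one := fun a => by
      apply ext12 <;>
        simp [mul0, mul1, mul2, mul3, mul4, mul5, mul6, mul7, mul8, mul9, mul10, mul11] }

instance : Algebra k (Alg k) :=
  Algebra.ofModule
    (fun r x y => by
      apply ext12 <;>
        simp only [mul0, mul1, mul2, mul3, mul4, mul5, mul6, mul7, mul8, mul9, mul10, mul11,
          smul_ap] <;> ring)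
    (fun r x y => by
      apply ext12 <;>
        simp only [mul0, mul1, mul2, mul3, mul4, mul5, mul6, mul7, mul8, mul9, mul10, mul11,
          smul_ap] <;> ring)

/-- basis vectors -/
def bv (i : Fin 12) : Alg k := Pi.single i 1

theorem bv_ap (i j : Fin 12) : (bv i : Alg k) j = if j = i then 1 else 0 := by
  unfold bv
  rw [Pi.single_apply]

instance : Nontrivial (Alg k) := ⟨⟨1, 0, fun h => by
  have := congrFun h 0
  simp at this⟩⟩

theorem nilp (n : Alg k) (h : n 0 = 0) : IsNilpotent n := by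
  refine ⟨4, ?_⟩
  have e : n ^ 4 = (n * n) * (n * n) := by
    rw [show (4 : ℕ) = 2 + 2 from rfl, pow_add, pow_two]
  rw [e]
  apply ext12 <;>
    simp [mul0, mul1, mul2, mul3, mul4, mul5, mul6, mul7, mul8, mul9, mul10, mul11, h]

theorem isUnit_of (x : Alg k) (h : x 0 ≠ 0) : IsUnit x := by
  have h1 : IsNilpotent ((x 0)⁻¹ • x - 1) := nilp _ (by simp [h])
  have h2 : IsUnit ((x 0)⁻¹ • x) := by
    have := h1.isUnit_add_one
    simpa using this
  have h3 : x = (algebraMap k (Alg k) (x 0)) * ((x 0)⁻¹ • x) := by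
    rw [← Algebra.smul_def, smul_smul, mul_inv_cancel₀ h, one_smul]
  rw [h3]
  exact ((IsUnit.mk0 _ h).map _).mul h2

theorem mem_jac (x : Alg k) (h : x 0 = 0) : x ∈ Ring.jacobson (Alg k) := by
  rw [← Ideal.jacobson_bot, Ideal.mem_jacobson_iff]
  intro y
  have hu : IsUnit (y * x + 1) := isUnit_of _ (by simp [mul0, h])
  obtain ⟨z, hz⟩ := hu.exists_left_inv
  refine ⟨z, ?_⟩
  rw [Ideal.mem_bot, mul_assoc, ← hz, mul_add, mul_one, sub_self]

/-- the symmetrising form -/
def form : Alg k →ₗ[k] Module.Dual k (Alg k) :=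
  LinearMap.mk₂ k (fun x y => (x * y) 11)
    (fun a b c => by rw [add_mul, add_ap])
    (fun r a b => by rw [smul_mul_assoc, smul_ap, smul_eq_mul])
    (fun a b c => by rw [mul_add, add_ap])
    (fun r a b => by rw [mul_smul_comm, smul_ap, smul_eq_mul])

theorem form_ap (x y : Alg k) : form x y = (x * y) 11 := rfl

theorem tr_comm (x y : Alg k) : (x * y) 11 = (y * x) 11 := by
  rw [mul11, mul11]; ring

theorem form_inj : Function.Injective (form : Alg k →ₗ[k] Module.Dual k (Alg k)) := by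
  rw [injective_iff_map_eq_zero]
  intro x hx
  have h : ∀ i : Fin 12, (x * (bv i : Alg k)) 11 = 0 := fun i => by
    rw [← form_ap, hx]; rfl
  have h0 := h 0; have h1 := h 1; have h2 := h 2; have h3 := h 3; have h4 := h 4
  have h5 := h 5; have h6 := h 6; have h7 := h 7; have h8 := h 8; have h9 := h 9
  have h10 := h 10; have h11 := h 11
  simp [mul11, bv_ap] at h0 h1 h2 h3 h4 h5 h6 h7 h8 h9 h10 h11
  apply ext12 <;> simpa

/-- the bimodule isomorphism with the dual -/
noncomputable def formEquiv : Alg k ≃ₗ[k] Module.Dual k (Alg k) :=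
  LinearMap.linearEquivOfInjective form form_inj (Subspace.dual_finrank_eq).symm

theorem formEquiv_ap (x y : Alg k) : formEquiv x y = (x * y) 11 := rfl

theorem formEquiv_bimod (a b x y : Alg k) :
    formEquiv (a * x * b) y = formEquiv x (b * y * a) := by
  rw [formEquiv_ap, formEquiv_ap, mul_assoc, mul_assoc, tr_comm]
  simp only [mul_assoc]

/-- the element `u` -/
def uu : Alg k := bv 1

theorem u_mul_p : (uu : Alg k) * bv 2 = 0 := by
  apply ext12 <;>
    simp [mul0, mul1, mul2, mul3, mul4, mul5, mul6, mul7, mul8, mul9, mul10, mul11, uu, bv_ap]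

theorem u_mul_q : (uu : Alg k) * bv 3 = 0 := by
  apply ext12 <;>
    simp [mul0, mul1, mul2, mul3, mul4, mul5, mul6, mul7, mul8, mul9, mul10, mul11, uu, bv_ap]

/-- The key computation: if `m p` and `m q` lie in `uA` then `m ∈ Au + uA`. -/
theorem key (m c d : Alg k) (h1 : m * bv 2 = uu * c) (h2 : m * bv 3 = uu * d) :
    ∃ b e : Alg k, m = b * uu + uu * e := by
  have a0 := congrFun h1 2
  have a1 := congrFun h1 9
  have a2 := congrFun h1 10
  have a3 := congrFun h2 9
  have a4 := congrFun h2 10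
  simp [mul2, mul9, mul10, uu, bv_ap] at a0 a1 a2 a3 a4
  refine ⟨m 9 • bv 2 + m 10 • bv 3,
    m 1 • bv 0 + m 6 • bv 1 + m 7 • bv 4 + m 8 • bv 5 + m 11 • bv 6, ?_⟩
  apply ext12 <;>
    simp [mul0, mul1, mul2, mul3, mul4, mul5, mul6, mul7, mul8, mul9, mul10, mul11, uu, bv_ap,
      a0, a1, a2, a3, a4]

theorem not_split (x : Alg k) : (1 + uu * x) * uu ≠ 0 := by
  intro h
  have := congrFun h 1
  simp [mul0, mul1, uu, bv_ap] at this

end Pool.Agent.H197Z.Rigid
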