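import Pool.Agent.H197Z.RigidAlg

/-!
Homological properties of the algebra `Alg k` and of its right module `A / uA`.
-/

set_option autoImplicit false

universe u

namespace Pool.Agent.H197Z.Rigid

open MulOpposite CategoryTheory Abelian

variable {k : Type u} [Field k]

/-- An algebra isomorphic to its dual as a bimodule is injective as a right module. -/
theorem injective_of_symm {A : Type u} [Ring A] [Algebra k A] (e : A ≃ₗ[k] Module.Dual k A)
    (he : ∀ a b x y : A, e (a * x * b) y = e x (b * y * a)) : Module.Injective Aᵐᵒᵖ A := by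
  apply Module.Baer.injective
  intro I g
  -- the functional on `I`
  let I' : Submodule k Aᵐᵒᵖ := I.restrictScalars k
  have hsm : ∀ (c : k) (x : A), (algebraMap k Aᵐᵒᵖ c) • x = c • x := fun c x => by
    simp [MulOpposite.smul_eq_mul_unop, Algebra.smul_def, Algebra.commutes]
  let f : I' →ₗ[k] k :=
    { toFun := fun x => e (g ⟨x.1, x.2⟩) 1
      map_add' := fun x y => by
        have : (⟨(x + y).1, (x + y).2⟩ : I) = ⟨x.1, x.2⟩ + ⟨y.1, y.2⟩ := rfl
        rw [this, map_add, map_add, LinearMap.add_apply]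
      map_smul' := fun c x => by
        have : (⟨(c • x).1, (c • x).2⟩ : I) = (algebraMap k Aᵐᵒᵖ c) • (⟨x.1, x.2⟩ : I) := by
          apply Subtype.ext
          exact Algebra.smul_def c x.1
        rw [this, map_smul, hsm, map_smul, LinearMap.smul_apply, RingHom.id_apply] }
  obtain ⟨h, hh⟩ := f.exists_extend
  let h' : Module.Dual k A := h ∘ₗ (MulOpposite.opLinearEquiv k).toLinearMap
  let b : A := e.symm h'
  refine ⟨LinearMap.toSpanSingleton Aᵐᵒᵖ A b, fun x hx => ?_⟩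
  apply e.injective
  ext y
  have hmem : op y * x ∈ I := I.mul_mem_left _ hx
  have e1 : e (g ⟨x, hx⟩) y = f ⟨op y * x, hmem⟩ := by
    change _ = e (g ⟨op y * x, hmem⟩) 1
    have : (⟨op y * x, hmem⟩ : I) = op y • (⟨x, hx⟩ : I) := rfl
    rw [this, map_smul, MulOpposite.smul_eq_mul_unop, unop_op]
    have := he 1 y (g ⟨x, hx⟩) 1
    simpa using this.symm
  have e2 : f ⟨op y * x, hmem⟩ = h (op y * x) := by
    rw [← hh]; rfl
  have e3 : e (LinearMap.toSpanSingleton Aᵐᵒᵖ A b x) y = e b (unop x * y) := by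
    rw [LinearMap.toSpanSingleton_apply, MulOpposite.smul_eq_mul_unop]
    have := he 1 (unop x) b y
    simpa using this
  rw [e3, e1, e2]
  have : e b = h' := e.apply_symm_apply h'
  rw [this]
  rfl

/-- the right ideal `uA` -/
def uA (k : Type u) [Field k] : Submodule (Alg k)ᵐᵒᵖ (Alg k) :=
  Submodule.span (Alg k)ᵐᵒᵖ {uu}

theorem mem_uA (x : Alg k) : x ∈ uA k ↔ ∃ c : Alg k, x = uu * c := by
  unfold uA
  rw [Submodule.mem_span_singleton]
  constructor
  · rintro ⟨c, rfl⟩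
    exact ⟨unop c, rfl⟩
  · rintro ⟨c, rfl⟩
    exact ⟨op c, rfl⟩

theorem u_mem : (uu : Alg k) ∈ uA k := (mem_uA _).2 ⟨1, (mul_one _).symm⟩

/-- the module `A / uA` -/
abbrev Mod (k : Type u) [Field k] : Type u := Alg k ⧸ uA k

theorem not_projective : ¬ Module.Projective (Alg k)ᵐᵒᵖ (Mod k) := by
  intro hP
  obtain ⟨s, hs⟩ := Module.projective_lifting_property (uA k).mkQ
    (LinearMap.id : Mod k →ₗ[(Alg k)ᵐᵒᵖ] Mod k) (uA k).mkQ_surjective
  have h1 : (uA k).mkQ (s ((uA k).mkQ 1)) = (uA k).mkQ 1 := by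
    have := LinearMap.congr_fun hs ((uA k).mkQ 1)
    simpa using this
  rw [Submodule.mkQ_apply, Submodule.mkQ_apply, Submodule.Quotient.eq, mem_uA] at h1
  obtain ⟨c, hc⟩ := h1
  have h2 : s (Submodule.Quotient.mk 1) = 1 + uu * c := by
    rw [← hc]; abel
  have h3 : op (uu : Alg k) • (Submodule.Quotient.mk 1 : Mod k) = 0 := by
    rw [← Submodule.Quotient.mk_smul, Submodule.Quotient.mk_eq_zero]
    simpa using u_mem
  have h4 := congrArg s h3
  rw [map_smul, map_zero, h2] at h4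
  exact not_split c h4

/-- every map `uA → A / uA` extends to `A` -/
theorem extend (φ : uA k →ₗ[(Alg k)ᵐᵒᵖ] Mod k) :
    ∃ ψ : Alg k →ₗ[(Alg k)ᵐᵒᵖ] Mod k, ψ ∘ₗ (uA k).subtype = φ := by
  obtain ⟨m, hm⟩ := (uA k).mkQ_surjective (φ ⟨uu, u_mem⟩)
  have kill : ∀ y : Alg k, uu * y = 0 → ∃ c, m * y = uu * c := by
    intro y hy
    have h1 : op y • (⟨uu, u_mem⟩ : uA k) = 0 := Subtype.ext hy
    have h2 := congrArg φ h1
    rw [map_smul, map_zero, ← hm, ← map_smul, Submodule.mkQ_apply,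
      Submodule.Quotient.mk_eq_zero, mem_uA] at h2
    exact h2
  obtain ⟨c, hc⟩ := kill _ u_mul_p
  obtain ⟨d, hd⟩ := kill _ u_mul_q
  obtain ⟨b, e, hbe⟩ := key m c d hc hd
  let L : Alg k →ₗ[(Alg k)ᵐᵒᵖ] Alg k :=
    { toFun := fun x => b * x
      map_add' := mul_add b
      map_smul' := fun r x => (mul_assoc _ _ _).symm }
  refine ⟨(uA k).mkQ ∘ₗ L, ?_⟩
  ext ⟨x, hx⟩
  obtain ⟨y, rfl⟩ := (mem_uA x).1 hx
  have h1 : (⟨uu * y, hx⟩ : uA k) = op y • (⟨uu, u_mem⟩ : uA k) := rfl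
  rw [h1, map_smul, map_smul, ← hm]
  congr 1
  change (uA k).mkQ (b * uu) = _
  rw [Submodule.mkQ_apply, Submodule.mkQ_apply, Submodule.Quotient.eq, mem_uA]
  refine ⟨-e, ?_⟩
  rw [hbe, mul_neg]; abel

theorem ext_one_zero :
    Subsingleton (Ext.{u} (ModuleCat.of (Alg k)ᵐᵒᵖ (Mod k)) (ModuleCat.of (Alg k)ᵐᵒᵖ (Mod k)) 1) := by
  let S : ShortComplex (ModuleCat.{u} (Alg k)ᵐᵒᵖ) :=
    ShortComplex.mk (ModuleCat.ofHom (uA k).subtype) (ModuleCat.ofHom (uA k).mkQ) (by
      ext x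
      simp)
  have hS : S.ShortExact := by
    apply ModuleCat.shortComplex_shortExact
    · exact LinearMap.exact_subtype_mkQ (uA k)
    · exact (uA k).subtype_injective
    · exact (uA k).mkQ_surjective
  have : Module.Free (Alg k)ᵐᵒᵖ (Alg k) :=
    Module.Free.of_equiv (MulOpposite.opLinearEquiv (Alg k)ᵐᵒᵖ (M := Alg k)).symm
  have : Projective S.X₂ := by
    change Projective (ModuleCat.of (Alg k)ᵐᵒᵖ (Alg k))
    infer_instance
  refine subsingleton_of_forall_eq 0 fun x => ?_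
  obtain ⟨y, hy⟩ := Ext.contravariant_sequence_exact₃ hS (ModuleCat.of (Alg k)ᵐᵒᵖ (Mod k)) x
    (Ext.eq_zero_of_projective (n := 0) _) (add_zero 1)
  obtain ⟨φ, rfl⟩ := (Ext.mk₀_bijective _ _).2 y
  obtain ⟨ψ, hψ⟩ := extend (k := k) φ.hom
  have : φ = S.f ≫ ModuleCat.ofHom ψ := by
    apply ModuleCat.hom_ext
    exact hψ.symm
  rw [← hy, this, ← Ext.mk₀_comp_mk₀]
  exact hS.extClass_comp_assoc _

end Pool.Agent.H197Z.Rigid
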